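import Mathlib

/-! The arithmetic removal lemma for differences, from the triangle removal lemma. -/

set_option autoImplicit false

namespace Pool.Agent.N646.AC

open Finset SimpleGraph TripartiteFromTriangles

/-- **removal**: if few pairs in `X × Y` have a difference outside `D`, then after the removal of few
elements all the differences are in `D`, with few exceptional differences -/
theorem removal (ε : ℝ) (hε : 0 < ε) : ∃ c : ℝ, 0 < c ∧ ∀ (G : Type) [AddCommGroup G] [Fintype G]
    [DecidableEq G] (X Y D : Finset G),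
    (((X ×ˢ Y).filter (fun p => p.2 - p.1 ∉ D)).card : ℝ) ≤ c * (Fintype.card G : ℝ) ^ 2 →
    ∃ X' ⊆ X, ∃ Y' ⊆ Y, ∃ E : Finset G, ((X \ X').card : ℝ) ≤ ε * Fintype.card G ∧
      ((Y \ Y').card : ℝ) ≤ ε * Fintype.card G ∧ (E.card : ℝ) ≤ ε * Fintype.card G ∧
      ∀ x ∈ X', ∀ y ∈ Y', y - x ∈ D ∨ y - x ∈ E := by
  set δ : ℝ := ε / 27 with hδ
  have hδ0 : 0 < δ := by positivity
  have hb := triangleRemovalBound_pos hδ0
  refine ⟨triangleRemovalBound δ, hb, ?_⟩
  intro G _ _ _ X Y D hfew
  classical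
  have hG : (0 : ℝ) < Fintype.card G := by
    exact_mod_cast Fintype.card_pos_iff.2 ⟨(0 : G)⟩
  -- the triples
  set t : Finset (G × G × G) := univ.filter (fun p => p.2.1 - p.1 ∈ X ∧ p.2.2 - p.1 ∈ Y ∧
    p.2.2 - p.2.1 ∉ D) with ht
  have hmem : ∀ a b c : G, (a, b, c) ∈ t ↔ b - a ∈ X ∧ c - a ∈ Y ∧ c - b ∉ D := by
    intro a b c
    rw [ht, mem_filter]
    exact ⟨fun h => h.2, fun h => ⟨mem_univ _, h⟩⟩
  have htc : (t.card : ℝ) ≤ triangleRemovalBound δ * (Fintype.card G : ℝ) ^ 3 := by
    have h1 : t.card ≤ ((univ : Finset G) ×ˢ ((X ×ˢ Y).filter (fun p => p.2 - p.1 ∉ D))).card := by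
      apply card_le_card_of_injOn (fun p : G × G × G => (p.1, (p.2.1 - p.1, p.2.2 - p.1)))
      · rintro ⟨a, b, c⟩ hp
        have hp' := (hmem a b c).1 hp
        rw [mem_coe, mem_product, mem_filter, mem_product]
        refine ⟨mem_univ _, ⟨hp'.1, hp'.2.1⟩, ?_⟩
        simpa using hp'.2.2
      · rintro ⟨a, b, c⟩ _ ⟨a', b', c'⟩ _ h
        simp only [Prod.mk.injEq] at h
        obtain ⟨rfl, h2, h3⟩ := h
        have e2 : b = b' := sub_left_injective h2
        have e3 : c = c' := sub_left_injective h3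
        rw [e2, e3]
    rw [card_product, card_univ] at h1
    have h2 : (t.card : ℝ) ≤ (Fintype.card G : ℝ) *
        (((X ×ˢ Y).filter (fun p => p.2 - p.1 ∉ D)).card : ℝ) := by exact_mod_cast h1
    calc (t.card : ℝ) ≤ _ := h2
      _ ≤ (Fintype.card G : ℝ) * (triangleRemovalBound δ * (Fintype.card G : ℝ) ^ 2) :=
          mul_le_mul_of_nonneg_left hfew hG.le
      _ = _ := by ring
  -- few triangles
  have hcl : ((graph t).cliqueFinset 3).card ≤ t.card := by
    have hsub : (graph t).cliqueFinset 3 ⊆ t.image toTriangle := by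
      intro s hs
      rw [mem_cliqueFinset_iff, is3Clique_iff] at hs
      obtain ⟨x, y, z, hxy, hxz, hyz, rfl⟩ := hs
      obtain ⟨a, b, c, he, h01, h02, h12⟩ := graph_triple hxy hxz hyz
      rw [Graph.in₀₁_iff] at h01
      rw [Graph.in₀₂_iff] at h02
      rw [Graph.in₁₂_iff] at h12
      obtain ⟨c', h01⟩ := h01
      obtain ⟨b', h02⟩ := h02
      obtain ⟨a', h12⟩ := h12
      rw [mem_image]
      refine ⟨(a, b, c), (hmem a b c).2 ⟨((hmem _ _ _).1 h01).1, ((hmem _ _ _).1 h02).2.1,
        ((hmem _ _ _).1 h12).2.2⟩, ?_⟩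
      rw [← he]
      rfl
    exact (card_le_card hsub).trans card_image_le
  have hcard : (Fintype.card (G ⊕ G ⊕ G) : ℝ) = 3 * Fintype.card G := by
    rw [Fintype.card_sum, Fintype.card_sum]; push_cast; ring
  obtain ⟨G', hG', hdec, hfar, hfree⟩ := triangle_removal (G := graph t) (ε := δ) (by
    rw [hcard]
    have h1 : (((graph t).cliqueFinset 3).card : ℝ) ≤ t.card := by exact_mod_cast hcl
    have h2 : triangleRemovalBound δ * (Fintype.card G : ℝ) ^ 3 <
        triangleRemovalBound δ * (3 * Fintype.card G) ^ 3 := by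
      have : 0 < triangleRemovalBound δ * (Fintype.card G : ℝ) ^ 3 := by positivity
      nlinarith
    linarith)
  have hR : ((((graph t).edgeFinset \ G'.edgeFinset).card : ℕ) : ℝ) ≤
      9 * δ * (Fintype.card G : ℝ) ^ 2 := by
    have h1 : ((((graph t).edgeFinset \ G'.edgeFinset).card : ℕ) : ℝ) =
        ((graph t).edgeFinset.card : ℝ) - G'.edgeFinset.card := by
      rw [card_sdiff_of_subset (edgeFinset_mono hG'), Nat.cast_sub
        (card_le_card (edgeFinset_mono hG'))]
    rw [h1]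
    have h2 : ((Fintype.card (G ⊕ G ⊕ G) ^ 2 : ℕ) : ℝ) = 9 * (Fintype.card G : ℝ) ^ 2 := by
      push_cast
      push_cast at hcard
      rw [hcard]
      ring
    rw [h2] at hfar
    linarith
  -- a general count
  have hgen : ∀ (u v : G → G → G ⊕ G ⊕ G) (Z : Finset G),
      (∀ b x b' x', s(u b x, v b x) = s(u b' x', v b' x') → b = b' ∧ x = x') →
      (∀ b ∈ Z, (Fintype.card G : ℝ) / 3 ≤
        ((univ.filter (fun x => (graph t).Adj (u b x) (v b x) ∧ ¬ G'.Adj (u b x) (v b x))).card : ℝ)) →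
      (Z.card : ℝ) ≤ ε * Fintype.card G := by
    intro u v Z hinj hZ
    have h1 : ∑ b ∈ Z, (univ.filter (fun x => (graph t).Adj (u b x) (v b x) ∧
        ¬ G'.Adj (u b x) (v b x))).card ≤ ((graph t).edgeFinset \ G'.edgeFinset).card := by
      rw [← card_sigma]
      apply card_le_card_of_injOn (fun p : (_ : G) × G => s(u p.1 p.2, v p.1 p.2))
      · rintro ⟨b, x⟩ hp
        rw [mem_coe, mem_sigma, mem_filter] at hp
        rw [mem_coe, mem_sdiff, mem_edgeFinset, mem_edgeFinset, mem_edgeSet, mem_edgeSet]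
        exact hp.2.2
      · rintro ⟨b, x⟩ _ ⟨b', x'⟩ _ h
        obtain ⟨h1, h2⟩ := hinj _ _ _ _ h
        simp only [] at h1 h2
        subst h1; subst h2; rfl
    have h2 : (Z.card : ℝ) * (Fintype.card G / 3) ≤ 9 * δ * (Fintype.card G : ℝ) ^ 2 := by
      refine le_trans ?_ hR
      calc (Z.card : ℝ) * (Fintype.card G / 3) = ∑ _b ∈ Z, (Fintype.card G : ℝ) / 3 := by
            rw [sum_const, nsmul_eq_mul]
        _ ≤ ∑ b ∈ Z, ((univ.filter (fun x => (graph t).Adj (u b x) (v b x) ∧
            ¬ G'.Adj (u b x) (v b x))).card : ℝ) := sum_le_sum hZ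
        _ ≤ _ := by exact_mod_cast h1
    have h3 : (Z.card : ℝ) * (Fintype.card G / 3) ≤ (ε * Fintype.card G) * (Fintype.card G / 3) := by
      calc _ ≤ _ := h2
        _ = _ := by rw [hδ]; ring
    exact le_of_mul_le_mul_right h3 (by positivity)
  set u₀ : G → G → G ⊕ G ⊕ G := fun _ x => Sum3.in₀ x with hu₀
  set r1 : G → Finset G := fun b => univ.filter (fun x =>
    (graph t).Adj (Sum3.in₀ x) (Sum3.in₁ (x + b)) ∧ ¬ G'.Adj (Sum3.in₀ x) (Sum3.in₁ (x + b))) with hr1
  set r2 : G → Finset G := fun a => univ.filter (fun x =>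
    (graph t).Adj (Sum3.in₀ x) (Sum3.in₂ (x + a)) ∧ ¬ G'.Adj (Sum3.in₀ x) (Sum3.in₂ (x + a))) with hr2
  set r3 : G → Finset G := fun h => univ.filter (fun y =>
    (graph t).Adj (Sum3.in₁ y) (Sum3.in₂ (y + h)) ∧ ¬ G'.Adj (Sum3.in₁ y) (Sum3.in₂ (y + h))) with hr3
  refine ⟨X.filter (fun b => ((r1 b).card : ℝ) < Fintype.card G / 3), filter_subset _ _,
    Y.filter (fun a => ((r2 a).card : ℝ) < Fintype.card G / 3), filter_subset _ _,
    univ.filter (fun h => (Fintype.card G : ℝ) / 3 ≤ ((r3 h).card : ℝ)), ?_, ?_, ?_, ?_⟩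
  · apply hgen (fun _ x => Sum3.in₀ x) (fun b x => Sum3.in₁ (x + b))
    · intro b x b' x' h
      simp only [Sym2.eq_iff] at h
      rcases h with ⟨h1, h2⟩ | ⟨h1, h2⟩
      · have hx : x = x' := Sum.inl_injective h1
        subst hx
        have h3 : x + b = x + b' := Sum.inl_injective (Sum.inr_injective h2)
        exact ⟨add_left_cancel h3, rfl⟩
      · cases h1
    · intro b hb
      rw [mem_sdiff, mem_filter] at hb
      by_contra hcon
      push Not at hcon
      exact hb.2 ⟨hb.1, hcon⟩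
  · apply hgen (fun _ x => Sum3.in₀ x) (fun a x => Sum3.in₂ (x + a))
    · intro b x b' x' h
      simp only [Sym2.eq_iff] at h
      rcases h with ⟨h1, h2⟩ | ⟨h1, h2⟩
      · have hx : x = x' := Sum.inl_injective h1
        subst hx
        have h3 : x + b = x + b' := Sum.inr_injective (Sum.inr_injective h2)
        exact ⟨add_left_cancel h3, rfl⟩
      · cases h1
    · intro b hb
      rw [mem_sdiff, mem_filter] at hb
      by_contra hcon
      push Not at hcon
      exact hb.2 ⟨hb.1, hcon⟩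
  · apply hgen (fun _ y => Sum3.in₁ y) (fun h y => Sum3.in₂ (y + h))
    · intro b x b' x' h
      simp only [Sym2.eq_iff] at h
      rcases h with ⟨h1, h2⟩ | ⟨h1, h2⟩
      · have hx : x = x' := Sum.inl_injective (Sum.inr_injective h1)
        subst hx
        have h3 : x + b = x + b' := Sum.inr_injective (Sum.inr_injective h2)
        exact ⟨add_left_cancel h3, rfl⟩
      · cases h1
    · intro b hb
      exact (mem_filter.1 hb).2
  · intro b hb a ha
    rw [mem_filter] at hb ha
    by_contra hcon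
    push Not at hcon
    obtain ⟨hD, hE⟩ := hcon
    have hE' : ((r3 (a - b)).card : ℝ) < Fintype.card G / 3 := by
      by_contra h
      push Not at h
      exact hE (mem_filter.2 ⟨mem_univ _, h⟩)
    have hcover : (univ : Finset G) ⊆ r1 b ∪ r2 a ∪ (r3 (a - b)).image (fun y => y - b) := by
      intro x _
      have htri : (x, x + b, x + a) ∈ t := by
        rw [hmem]
        refine ⟨by simpa using hb.1, by simpa using ha.1, ?_⟩
        have : x + a - (x + b) = a - b := by abel
        rw [this]; exact hD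
      by_contra hno
      rw [mem_union, mem_union, mem_image] at hno
      push Not at hno
      obtain ⟨⟨n1, n2⟩, n3⟩ := hno
      have e1 : (graph t).Adj (Sum3.in₀ x) (Sum3.in₁ (x + b)) := Graph.in₀₁_iff.2 ⟨_, htri⟩
      have e2 : (graph t).Adj (Sum3.in₀ x) (Sum3.in₂ (x + a)) := Graph.in₀₂_iff.2 ⟨_, htri⟩
      have e3 : (graph t).Adj (Sum3.in₁ (x + b)) (Sum3.in₂ (x + a)) := Graph.in₁₂_iff.2 ⟨_, htri⟩
      have g1 : G'.Adj (Sum3.in₀ x) (Sum3.in₁ (x + b)) := by
        by_contra h
        exact n1 (mem_filter.2 ⟨mem_univ _, e1, h⟩)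
      have g2 : G'.Adj (Sum3.in₀ x) (Sum3.in₂ (x + a)) := by
        by_contra h
        exact n2 (mem_filter.2 ⟨mem_univ _, e2, h⟩)
      have g3 : G'.Adj (Sum3.in₁ (x + b)) (Sum3.in₂ (x + a)) := by
        by_contra h
        apply n3 (x + b) _ (by abel)
        have e4 : x + b + (a - b) = x + a := by abel
        exact mem_filter.2 ⟨mem_univ _, by rw [e4]; exact e3, by rw [e4]; exact h⟩
      exact hfree _ (is3Clique_triple_iff.2 ⟨g1, g2, g3⟩)
    have h1 := card_le_card hcover
    rw [card_univ] at h1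
    have h2 : Fintype.card G ≤ (r1 b).card + (r2 a).card + (r3 (a - b)).card := by
      refine h1.trans ((card_union_le _ _).trans ?_)
      exact Nat.add_le_add (card_union_le _ _) card_image_le
    have h3 : (Fintype.card G : ℝ) ≤ (r1 b).card + (r2 a).card + (r3 (a - b)).card := by
      exact_mod_cast h2
    linarith [hb.2, ha.2]

end Pool.Agent.N646.AC
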