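import Mathlib

/-!
Containers for dense hypergraphs.

`B` is a set of `r`-tuples of elements of a set with at most `n` elements; a set `I` is independent
if no tuple of `B` has all its entries in `I`. Every independent set is contained in one of boundedly
many (in terms of a bounded number of its elements) sets which contain fewer than `ε n ^ r` tuples of
`B`.
-/

set_option autoImplicit false

namespace Pool.Agent.N646.AC

open Finset

variable {α : Type} [DecidableEq α]

/-- the tuples of `B` inside `C` -/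
def ins {r : ℕ} (B : Finset (Fin r → α)) (C : Finset α) : Finset (Fin r → α) :=
  B.filter (fun y => ∀ i, y i ∈ C)

/-- no tuple of `B` is inside `I` -/
def Indep {r : ℕ} (B : Finset (Fin r → α)) (I : Finset α) : Prop := ∀ y ∈ B, ∃ i, y i ∉ I

/-- the link of `v` -/
def link {r : ℕ} (B : Finset (Fin (r + 1) → α)) (v : α) : Finset (Fin r → α) :=
  (B.filter (fun y => y 0 = v)).image Fin.tail

theorem mem_link {r : ℕ} {B : Finset (Fin (r + 1) → α)} {v : α} {z : Fin r → α} :
    z ∈ link B v ↔ (Fin.cons v z : Fin (r + 1) → α) ∈ B := by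
  unfold link
  rw [mem_image]
  constructor
  · rintro ⟨y, hy, rfl⟩
    rw [mem_filter] at hy
    rw [← hy.2]
    have : (Fin.cons (y 0) (Fin.tail y) : Fin (r + 1) → α) = y := Fin.cons_self_tail y
    rw [this]
    exact hy.1
  · intro h
    refine ⟨_, mem_filter.2 ⟨h, ?_⟩, ?_⟩
    · simp
    · exact Fin.tail_cons (α := fun _ => α) v z

theorem card_link {r : ℕ} (B : Finset (Fin (r + 1) → α)) (v : α) :
    (link B v).card = (B.filter (fun y => y 0 = v)).card := by
  unfold link
  apply card_image_of_injOn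
  intro y hy y' hy' h
  rw [mem_coe, mem_filter] at hy hy'
  rw [← Fin.cons_self_tail y, ← Fin.cons_self_tail y', h, hy.2, hy'.2]

theorem link_in {r : ℕ} {B : Finset (Fin (r + 1) → α)} {C : Finset α}
    (h : ∀ y ∈ B, ∀ i, y i ∈ C) (v : α) : ∀ z ∈ link B v, ∀ i, z i ∈ C := by
  intro z hz i
  have := h _ (mem_link.1 hz) i.succ
  simpa using this

theorem link_indep {r : ℕ} {B : Finset (Fin (r + 1) → α)} {I : Finset α} (h : Indep B I) {v : α}
    (hv : v ∈ I) : Indep (link B v) I := by
  intro z hz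
  obtain ⟨i, hi⟩ := h _ (mem_link.1 hz)
  induction i using Fin.cases with
  | zero => exact absurd hv (by simpa using hi)
  | succ j => exact ⟨j, by simpa using hi⟩

omit [DecidableEq α] in
theorem card_le_pow {r : ℕ} {B : Finset (Fin r → α)} {C : Finset α}
    (h : ∀ y ∈ B, ∀ i, y i ∈ C) : B.card ≤ C.card ^ r := by
  have : B ⊆ Fintype.piFinset (fun _ => C) := fun y hy => Fintype.mem_piFinset.2 (h y hy)
  refine (card_le_card this).trans (le_of_eq ?_)
  rw [Fintype.card_piFinset, prod_const, card_univ, Fintype.card_fin]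

open Classical in
/-- one round of the algorithm -/
theorem round (r : ℕ) : ∀ ε : ℝ, 0 < ε → ∃ δ : ℝ, 0 < δ ∧ ∃ q : ℕ, ∀ (α : Type) [DecidableEq α]
    (n : ℝ), 0 < n → ∀ (C : Finset α) (B : Finset (Fin (r + 1) → α)), (C.card : ℝ) ≤ n →
    (∀ y ∈ B, ∀ i, y i ∈ C) → ε * n ^ (r + 1) ≤ (B.card : ℝ) →
    ∃ Φ : (Fin q → Option α) → Finset α,
      (∀ τ, Φ τ ⊆ C ∧ ((Φ τ).card : ℝ) + δ * n ≤ (C.card : ℝ)) ∧
      ∀ I ⊆ C, Indep B I → ∃ τ : Fin q → Option α, (∀ i v, τ i = some v → v ∈ I) ∧ I ⊆ Φ τ := by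
  induction r with
  | zero =>
    intro ε hε
    refine ⟨ε, hε, 0, ?_⟩
    intro α _ n hn C B hC hB hcard
    set D : Finset α := B.image (fun y => y 0) with hD
    have hDC : D ⊆ C := by
      intro v hv
      obtain ⟨y, hy, rfl⟩ := mem_image.1 hv
      exact hB y hy 0
    have hDcard : D.card = B.card := by
      rw [hD]
      apply card_image_of_injective
      intro y y' h
      funext i
      rw [Fin.eq_zero i]
      exact h
    refine ⟨fun _ => C \ D, fun τ => ⟨sdiff_subset, ?_⟩, ?_⟩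
    · have h1 : (C \ D).card + D.card = C.card := card_sdiff_add_card_eq_card hDC
      have h2 : ((C \ D).card : ℝ) + D.card = C.card := by exact_mod_cast h1
      rw [← h2, hDcard]
      simp only [zero_add, pow_one] at hcard
      linarith
    · intro I hI hind
      refine ⟨fun _ => none, fun i => i.elim0, ?_⟩
      intro v hv
      rw [mem_sdiff]
      refine ⟨hI hv, fun hvD => ?_⟩
      obtain ⟨y, hy, rfl⟩ := mem_image.1 hvD
      obtain ⟨i, hi⟩ := hind y hy
      rw [Fin.eq_zero i] at hi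
      exact hi hv
  | succ r ih =>
    intro ε hε
    obtain ⟨δ', hδ', q', hq'⟩ := ih (ε / 2) (by linarith)
    refine ⟨min (ε / 2) δ', lt_min (by linarith) hδ', q' + 1, ?_⟩
    intro α _ n hn C B hC hB hcard
    set D : Finset α := C.filter (fun v => ε / 2 * n ^ (r + 1) ≤ ((link B v).card : ℝ)) with hD
    have hDC : D ⊆ C := filter_subset _ _
    -- the size of `D`
    have hsum : B.card = ∑ v ∈ C, (link B v).card := by
      rw [card_eq_sum_card_fiberwise (f := fun y : Fin (r + 1 + 1) → α => y 0) (t := C)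
        (fun y hy => hB y hy 0)]
      refine sum_congr rfl fun v _ => ?_
      rw [card_link]
    have hDcard : ε / 2 * n ≤ (D.card : ℝ) := by
      have h1 : (B.card : ℝ) ≤ D.card * n ^ (r + 1) + n * (ε / 2 * n ^ (r + 1)) := by
        rw [hsum, Nat.cast_sum]
        have h2 : ∀ v ∈ C, ((link B v).card : ℝ) ≤
            (if v ∈ D then n ^ (r + 1) else 0) + ε / 2 * n ^ (r + 1) := by
          intro v hv
          split_ifs with h
          · have h3 : ((link B v).card : ℝ) ≤ n ^ (r + 1) := by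
              have h4 := card_le_pow (link_in hB v)
              calc ((link B v).card : ℝ) ≤ (C.card : ℝ) ^ (r + 1) := by exact_mod_cast h4
                _ ≤ n ^ (r + 1) := pow_le_pow_left₀ (Nat.cast_nonneg _) hC _
            have : 0 ≤ ε / 2 * n ^ (r + 1) := by positivity
            linarith
          · have h3 : ¬ ε / 2 * n ^ (r + 1) ≤ ((link B v).card : ℝ) := fun h4 =>
              h (mem_filter.2 ⟨hv, h4⟩)
            linarith [not_le.1 h3]
        refine (sum_le_sum h2).trans ?_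
        rw [sum_add_distrib, ← sum_filter, sum_const, sum_const, nsmul_eq_mul, nsmul_eq_mul]
        have h5 : (C.filter (fun v => v ∈ D)).card = D.card := by
          congr 1
          ext v
          simp only [mem_filter]
          exact ⟨fun h => h.2, fun h => ⟨hDC h, h⟩⟩
        rw [h5]
        have h6 : (C.card : ℝ) * (ε / 2 * n ^ (r + 1)) ≤ n * (ε / 2 * n ^ (r + 1)) :=
          mul_le_mul_of_nonneg_right hC (by positivity)
        linarith
      have hnp : 0 < n ^ (r + 1) := by positivity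
      have h2 : ε / 2 * n * n ^ (r + 1) ≤ D.card * n ^ (r + 1) := by
        have h3 : ε * n ^ (r + 1 + 1) = ε / 2 * n * n ^ (r + 1) + n * (ε / 2 * n ^ (r + 1)) := by
          ring
        linarith
      exact le_of_mul_le_mul_right h2 hnp
    have hex : ∀ v : α, ∃ Φ : (Fin q' → Option α) → Finset α, v ∈ D →
        (∀ τ, Φ τ ⊆ C ∧ ((Φ τ).card : ℝ) + δ' * n ≤ (C.card : ℝ)) ∧
        ∀ I ⊆ C, Indep (link B v) I →
          ∃ τ : Fin q' → Option α, (∀ i v, τ i = some v → v ∈ I) ∧ I ⊆ Φ τ := by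
      intro v
      by_cases hv : v ∈ D
      · obtain ⟨Φ, hΦ⟩ := hq' α n hn C (link B v) hC (link_in hB v) (mem_filter.1 hv).2
        exact ⟨Φ, fun _ => hΦ⟩
      · exact ⟨fun _ => ∅, fun h => absurd h hv⟩
    choose Φ hΦ using hex
    set Ψ : (Fin (q' + 1) → Option α) → Finset α := fun τ =>
      match τ 0 with
      | none => C \ D
      | some v => if v ∈ D then Φ v (Fin.tail τ) else C \ D with hΨ
    have hsd : ((C \ D).card : ℝ) + min (ε / 2) δ' * n ≤ (C.card : ℝ) := by
      have h1 : (C \ D).card + D.card = C.card := card_sdiff_add_card_eq_card hDC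
      have h2 : ((C \ D).card : ℝ) + D.card = C.card := by exact_mod_cast h1
      have h3 : min (ε / 2) δ' * n ≤ ε / 2 * n :=
        mul_le_mul_of_nonneg_right (min_le_left _ _) hn.le
      linarith
    refine ⟨Ψ, ?_, ?_⟩
    · intro τ
      simp only [hΨ]
      cases h : τ 0 with
      | none => exact ⟨sdiff_subset, hsd⟩
      | some v =>
        simp only []
        split_ifs with hv
        · obtain ⟨h1, h2⟩ := (hΦ v hv).1 (Fin.tail τ)
          refine ⟨h1, ?_⟩
          have h3 : min (ε / 2) δ' * n ≤ δ' * n :=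
            mul_le_mul_of_nonneg_right (min_le_right _ _) hn.le
          linarith
        · exact ⟨sdiff_subset, hsd⟩
    · intro I hI hind
      by_cases hID : ∃ v ∈ I, v ∈ D
      · obtain ⟨v, hvI, hvD⟩ := hID
        obtain ⟨τ', h1, h2⟩ := (hΦ v hvD).2 I hI (link_indep hind hvI)
        refine ⟨Fin.cons (some v) τ', ?_, ?_⟩
        · intro i w hw
          induction i using Fin.cases with
          | zero =>
            rw [Fin.cons_zero] at hw
            rw [← Option.some.inj hw]
            exact hvI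
          | succ j =>
            rw [Fin.cons_succ] at hw
            exact h1 j w hw
        · simp only [hΨ, Fin.cons_zero, if_pos hvD]
          have : Fin.tail (Fin.cons (some v) τ' : Fin (q' + 1) → Option α) = τ' :=
            Fin.tail_cons (α := fun _ => Option α) _ _
          rw [this]
          exact h2
      · push Not at hID
        refine ⟨fun _ => none, fun i w hw => by simp at hw, ?_⟩
        simp only [hΨ]
        intro v hv
        exact mem_sdiff.2 ⟨hI hv, hID v hv⟩

open Classical in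
theorem cont_aux (r : ℕ) (ε : ℝ) (hε : 0 < ε) (δ : ℝ) (hδ : 0 < δ) (q : ℕ)
    (hr : ∀ (α : Type) [DecidableEq α]
    (n : ℝ), 0 < n → ∀ (C : Finset α) (B : Finset (Fin (r + 1) → α)), (C.card : ℝ) ≤ n →
    (∀ y ∈ B, ∀ i, y i ∈ C) → ε * n ^ (r + 1) ≤ (B.card : ℝ) →
    ∃ Φ : (Fin q → Option α) → Finset α,
      (∀ τ, Φ τ ⊆ C ∧ ((Φ τ).card : ℝ) + δ * n ≤ (C.card : ℝ)) ∧
      ∀ I ⊆ C, Indep B I → ∃ τ : Fin q → Option α, (∀ i v, τ i = some v → v ∈ I) ∧ I ⊆ Φ τ)
    (m : ℕ) : ∃ Q : ℕ, ∀ (α : Type) [DecidableEq α] (n : ℝ), 0 < n → ∀ (B : Finset (Fin (r + 1) → α))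
      (C : Finset α), (C.card : ℝ) ≤ n → (C.card : ℝ) ≤ m * (δ * n) →
      ∃ Ψ : (Fin Q → Option α) → Finset α,
        (∀ τ, Ψ τ ⊆ C ∧ ((ins B (Ψ τ)).card : ℝ) < ε * n ^ (r + 1)) ∧
        ∀ I ⊆ C, Indep B I → ∃ τ : Fin Q → Option α, (∀ i v, τ i = some v → v ∈ I) ∧ I ⊆ Ψ τ := by
  induction m with
  | zero =>
    refine ⟨0, ?_⟩
    intro α _ n hn B C _ hC
    have hC0 : C = ∅ := by
      rw [← card_eq_zero]
      have : (C.card : ℝ) ≤ 0 := by simpa using hC
      exact_mod_cast le_antisymm this (Nat.cast_nonneg _)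
    refine ⟨fun _ => C, fun τ => ⟨Subset.rfl, ?_⟩, ?_⟩
    · have : ins B C = ∅ := by
        unfold ins
        rw [filter_eq_empty_iff]
        intro y _ h
        have := h 0
        rw [hC0] at this
        exact absurd this (notMem_empty _)
      rw [this, card_empty, Nat.cast_zero]
      positivity
    · intro I hI _
      exact ⟨fun _ => none, fun i => i.elim0, hI⟩
  | succ m ih =>
    obtain ⟨Q, hQ⟩ := ih
    refine ⟨q + Q, ?_⟩
    intro α _ n hn B C hCn hC
    by_cases hrich : ((ins B C).card : ℝ) < ε * n ^ (r + 1)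
    · exact ⟨fun _ => C, fun τ => ⟨Subset.rfl, hrich⟩, fun I hI _ =>
        ⟨fun _ => none, fun i v h => by simp at h, hI⟩⟩
    · obtain ⟨Φ, hΦ1, hΦ2⟩ := hr α n hn C (ins B C) hCn (fun y hy => (mem_filter.1 hy).2)
        (not_lt.1 hrich)
      have hex : ∀ τ : Fin q → Option α, ∃ Ψ : (Fin Q → Option α) → Finset α,
        (∀ τ', Ψ τ' ⊆ Φ τ ∧ ((ins B (Ψ τ')).card : ℝ) < ε * n ^ (r + 1)) ∧
        ∀ I ⊆ Φ τ, Indep B I →
          ∃ τ' : Fin Q → Option α, (∀ i v, τ' i = some v → v ∈ I) ∧ I ⊆ Ψ τ' := by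
        intro τ
        apply hQ α n hn B (Φ τ)
        · have := (hΦ1 τ).2
          have : 0 < δ * n := by positivity
          linarith
        · have h1 := (hΦ1 τ).2
          push_cast at hC
          linarith
      choose Ψ hΨ1 hΨ2 using hex
      refine ⟨fun σ => Ψ (fun i => σ (Fin.castAdd Q i)) (fun i => σ (Fin.natAdd q i)), ?_, ?_⟩
      · intro σ
        obtain ⟨h1, h2⟩ := hΨ1 (fun i => σ (Fin.castAdd Q i)) (fun i => σ (Fin.natAdd q i))
        exact ⟨h1.trans (hΦ1 _).1, h2⟩
      · intro I hI hind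
        obtain ⟨τ, h1, h2⟩ := hΦ2 I hI (fun y hy => hind y (mem_filter.1 hy).1)
        obtain ⟨τ', h3, h4⟩ := hΨ2 τ I h2 hind
        refine ⟨Fin.append τ τ', ?_, ?_⟩
        · intro i v hv
          induction i using Fin.addCases with
          | left j => exact h1 j v (by rwa [Fin.append_left] at hv)
          | right j => exact h3 j v (by rwa [Fin.append_right] at hv)
        · simp only [Fin.append_left, Fin.append_right]
          exact h4

open Classical in
/-- **containers** -/
theorem cont (r : ℕ) (ε : ℝ) (hε : 0 < ε) : ∃ Q : ℕ, ∀ (α : Type) [DecidableEq α]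
    (n : ℝ), 0 < n → ∀ (B : Finset (Fin (r + 1) → α)) (C : Finset α), (C.card : ℝ) ≤ n →
      ∃ Ψ : (Fin Q → Option α) → Finset α,
        (∀ τ, Ψ τ ⊆ C ∧ ((ins B (Ψ τ)).card : ℝ) < ε * n ^ (r + 1)) ∧
        ∀ I ⊆ C, Indep B I → ∃ τ : Fin Q → Option α, (∀ i v, τ i = some v → v ∈ I) ∧ I ⊆ Ψ τ := by
  obtain ⟨δ, hδ, q, hr⟩ := round r ε hε
  obtain ⟨m, hm⟩ := exists_nat_ge (1 / δ)
  obtain ⟨Q, hQ⟩ := cont_aux r ε hε δ hδ q (fun α _ => hr α) m
  refine ⟨Q, fun α _ n hn B C hC => hQ α n hn B C hC (hC.trans ?_)⟩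
  rw [div_le_iff₀ hδ] at hm
  calc n = 1 * n := by ring
    _ ≤ (m * δ) * n := mul_le_mul_of_nonneg_right hm hn.le
    _ = m * (δ * n) := by ring

end Pool.Agent.N646.AC
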