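import Mathlib
import Pool.Agent.N646.AC.Cont

/-!
Random samples `x : Fin T → V`: a large deviation bound, uniform over the containers which are
determined by boundedly many elements of the sample.
-/

set_option autoImplicit false

namespace Pool.Agent.N646.AC

open Finset Filter Topology

variable {α : Type} [DecidableEq α]

omit [DecidableEq α] in
/-- resampling one coordinate -/
theorem sum_update {T : ℕ} (V : Finset α) (j : Fin T) (F : (Fin T → α) → ℝ) :
    ∑ x ∈ Fintype.piFinset (fun _ : Fin T => V), ∑ v ∈ V, F (Function.update x j v) =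
      (V.card : ℝ) * ∑ x ∈ Fintype.piFinset (fun _ : Fin T => V), F x := by
  rw [← Finset.sum_product']
  have h : ∑ p ∈ Fintype.piFinset (fun _ : Fin T => V) ×ˢ V, F (Function.update p.1 j p.2) =
      ∑ p ∈ Fintype.piFinset (fun _ : Fin T => V) ×ˢ V, F p.1 := by
    refine Finset.sum_nbij' (fun p => (Function.update p.1 j p.2, p.1 j))
      (fun p => (Function.update p.1 j p.2, p.1 j)) ?_ ?_ ?_ ?_ ?_
    · intro p hp
      rw [mem_product, Fintype.mem_piFinset] at hp ⊢
      refine ⟨fun i => ?_, hp.1 j⟩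
      by_cases hi : i = j
      · subst hi; simpa using hp.2
      · simpa [Function.update_of_ne hi] using hp.1 i
    · intro p hp
      rw [mem_product, Fintype.mem_piFinset] at hp ⊢
      refine ⟨fun i => ?_, hp.1 j⟩
      by_cases hi : i = j
      · subst hi; simpa using hp.2
      · simpa [Function.update_of_ne hi] using hp.1 i
    · rintro ⟨x, v⟩ _
      simp
    · rintro ⟨x, v⟩ _
      simp
    · rintro ⟨x, v⟩ _
      simp
  rw [h, Finset.sum_product]
  simp [Finset.mul_sum]

/-- the product bound for coordinates in `S` on which `Φ` does not depend -/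
theorem prod_bound {T : ℕ} (V : Finset α) (Z : ℝ) (hZ : 0 ≤ Z)
    (Φ : (Fin T → α) → α → ℝ) (hΦ0 : ∀ x v, 0 ≤ Φ x v) (S : Finset (Fin T))
    (hdep : ∀ j ∈ S, ∀ x v, Φ (Function.update x j v) = Φ x)
    (hsum : ∀ x ∈ Fintype.piFinset (fun _ : Fin T => V), ∑ v ∈ V, Φ x v ≤ Z) :
    (V.card : ℝ) ^ S.card * ∑ x ∈ Fintype.piFinset (fun _ : Fin T => V), ∏ i ∈ S, Φ x (x i) ≤
      (V.card : ℝ) ^ T * Z ^ S.card := by
  induction S using Finset.induction_on with
  | empty =>
    simp [Fintype.card_piFinset]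
  | insert j S hj ih =>
    have ih' := ih (fun i hi => hdep i (mem_insert_of_mem hi))
    rw [card_insert_of_notMem hj, pow_succ, pow_succ, mul_assoc, ← sum_update]
    have h1 : ∀ x ∈ Fintype.piFinset (fun _ : Fin T => V),
        ∑ v ∈ V, ∏ i ∈ insert j S, Φ (Function.update x j v) (Function.update x j v i) ≤
          Z * ∏ i ∈ S, Φ x (x i) := by
      intro x hx
      have h2 : ∀ v ∈ V, ∏ i ∈ insert j S, Φ (Function.update x j v) (Function.update x j v i) =
          Φ x v * ∏ i ∈ S, Φ x (x i) := by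
        intro v _
        rw [prod_insert hj, hdep j (mem_insert_self _ _), Function.update_self]
        congr 1
        refine prod_congr rfl fun i hi => ?_
        rw [Function.update_of_ne (fun h : i = j => hj (by rw [← h]; exact hi))]
      rw [sum_congr rfl h2, ← sum_mul]
      exact mul_le_mul_of_nonneg_right (hsum x hx) (prod_nonneg fun i _ => hΦ0 _ _)
    calc (V.card : ℝ) ^ S.card * ∑ x ∈ Fintype.piFinset (fun _ : Fin T => V), ∑ v ∈ V,
          ∏ i ∈ insert j S, Φ (Function.update x j v) (Function.update x j v i)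
        ≤ (V.card : ℝ) ^ S.card * ∑ x ∈ Fintype.piFinset (fun _ : Fin T => V),
            Z * ∏ i ∈ S, Φ x (x i) :=
          mul_le_mul_of_nonneg_left (sum_le_sum h1) (by positivity)
      _ = Z * ((V.card : ℝ) ^ S.card * ∑ x ∈ Fintype.piFinset (fun _ : Fin T => V),
            ∏ i ∈ S, Φ x (x i)) := by rw [← mul_sum]; ring
      _ ≤ Z * ((V.card : ℝ) ^ T * Z ^ S.card) := mul_le_mul_of_nonneg_left ih' hZ
      _ = _ := by ring

/-- the coordinates used by `t` -/
def used {Q T : ℕ} (t : Fin Q → Option (Fin T)) : Finset (Fin T) :=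
  univ.biUnion (fun i => (t i).toFinset)

theorem card_used {Q T : ℕ} (t : Fin Q → Option (Fin T)) : (used t).card ≤ Q := by
  unfold used
  refine card_biUnion_le.trans ?_
  refine (sum_le_card_nsmul _ _ 1 fun i _ => ?_).trans (by simp)
  cases t i <;> simp

omit [DecidableEq α] in
theorem map_update {Q T : ℕ} (t : Fin Q → Option (Fin T)) (x : Fin T → α) (v : α) (j : Fin T)
    (hj : j ∉ used t) : (fun i => (t i).map (Function.update x j v)) = fun i => (t i).map x := by
  funext i
  cases h : t i with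
  | none => rfl
  | some k =>
    have hk : k ≠ j := by
      rintro rfl
      apply hj
      unfold used
      rw [mem_biUnion]
      exact ⟨i, mem_univ _, by rw [h]; simp⟩
    simp [Function.update_of_ne hk]

/-- the number of the samples for which the container given by `t` is too popular -/
theorem tail_bound {Q T : ℕ} (V : Finset α) (Ψ : (Fin Q → Option α) → Finset α) (w : α → ℝ)
    (hw0 : ∀ v ∈ V, 0 ≤ w v) (hw1 : ∀ v ∈ V, w v ≤ 1) (a κ : ℝ) (ha0 : 0 ≤ a) (ha1 : a ≤ 1)
    (hκ0 : 0 < κ) (hκ1 : κ ≤ 1)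
    (hΨ : ∀ τ, ∑ v ∈ V, w v * ((if v ∈ Ψ τ then 1 else 0) - a) ≤ - κ * V.card)
    (t : Fin Q → Option (Fin T)) :
    (((Fintype.piFinset (fun _ : Fin T => V)).filter (fun x =>
      0 ≤ ∑ i, w (x i) * ((if x i ∈ Ψ (fun i => (t i).map x) then 1 else 0) - a))).card : ℝ) ≤
      Real.exp Q * ((1 - κ ^ 2 / 4) ^ (T - Q) * (V.card : ℝ) ^ T) := by
  classical
  rcases V.eq_empty_or_nonempty with hV | hVne
  · subst hV
    rcases Nat.eq_zero_or_pos T with rfl | hT
    · simp only [card_empty, CharP.cast_eq_zero, mul_zero] at hΨ ⊢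
      have h1 : (((Fintype.piFinset (fun _ : Fin 0 => (∅ : Finset α))).filter (fun x =>
        0 ≤ ∑ i, w (x i) * ((if x i ∈ Ψ (fun i => (t i).map x) then 1 else 0) - a))).card : ℝ) ≤ 1 := by
        have := card_filter_le (Fintype.piFinset (fun _ : Fin 0 => (∅ : Finset α))) (fun x =>
          0 ≤ ∑ i, w (x i) * ((if x i ∈ Ψ (fun i => (t i).map x) then 1 else 0) - a))
        rw [Fintype.card_piFinset] at this
        simp only [univ_eq_empty, prod_empty] at this
        exact_mod_cast this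
      refine h1.trans ?_
      simp
    · have : Fintype.piFinset (fun _ : Fin T => (∅ : Finset α)) = ∅ := by
        rw [← card_eq_zero, Fintype.card_piFinset]
        simp [hT.ne']
      rw [this]
      simp only [filter_empty, card_empty, Nat.cast_zero]
      have : 0 ≤ 1 - κ ^ 2 / 4 := by nlinarith
      positivity
  have hn0 : (0 : ℝ) < V.card := by exact_mod_cast card_pos.2 hVne
  set n : ℝ := (V.card : ℝ) with hn
  set lm : ℝ := κ / 2 with hlm
  have hlm0 : 0 < lm := by rw [hlm]; linarith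
  have hlm1 : lm ≤ 1 := by rw [hlm]; linarith
  set C : (Fin T → α) → Finset α := fun x => Ψ (fun i => (t i).map x) with hC
  set g : (Fin T → α) → α → ℝ := fun x v => if v ∈ V then w v * ((if v ∈ C x then 1 else 0) - a) else 0
    with hg
  have hg1 : ∀ x v, |g x v| ≤ 1 := by
    intro x v
    simp only [hg]
    split_ifs with h1 h2
    · have := hw0 v h1; have := hw1 v h1
      rw [abs_le]; constructor <;> nlinarith
    · have := hw0 v h1; have := hw1 v h1
      rw [abs_le]; constructor <;> nlinarith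
    · simp
  set Φ : (Fin T → α) → α → ℝ := fun x v => Real.exp (lm * g x v) with hΦ
  set S : Finset (Fin T) := univ \ used t with hS
  set Z : ℝ := n * (1 - κ ^ 2 / 4) with hZ
  have hc0 : 0 ≤ 1 - κ ^ 2 / 4 := by nlinarith
  have hZ0 : 0 ≤ Z := mul_nonneg hn0.le hc0
  have hdep : ∀ j ∈ S, ∀ x v, Φ (Function.update x j v) = Φ x := by
    intro j hj x v
    have hj' : j ∉ used t := (mem_sdiff.1 hj).2
    have : C (Function.update x j v) = C x := by
      simp only [hC]
      rw [map_update t x v j hj']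
    simp only [hΦ, hg, this]
  have hsum : ∀ x ∈ Fintype.piFinset (fun _ : Fin T => V), ∑ v ∈ V, Φ x v ≤ Z := by
    intro x _
    have h1 : ∀ v ∈ V, Φ x v ≤ 1 + lm * g x v + lm ^ 2 := by
      intro v _
      have h2 : |lm * g x v| ≤ 1 := by
        rw [abs_mul, abs_of_pos hlm0]
        have := hg1 x v
        nlinarith [abs_nonneg (g x v)]
      have h3 := Real.abs_exp_sub_one_sub_id_le h2
      have h4 : (lm * g x v) ^ 2 ≤ lm ^ 2 := by
        rw [mul_pow]
        have h5 : (g x v) ^ 2 ≤ 1 := by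
          rw [← sq_abs]
          have := hg1 x v
          nlinarith [abs_nonneg (g x v)]
        nlinarith [sq_nonneg lm]
      have h6 := (abs_le.1 h3).2
      simp only [hΦ]
      linarith
    refine (sum_le_sum h1).trans ?_
    have h2 : ∑ v ∈ V, g x v = ∑ v ∈ V, w v * ((if v ∈ C x then 1 else 0) - a) := by
      refine sum_congr rfl fun v hv => ?_
      simp only [hg, if_pos hv]
    have h3 := hΨ (fun i => (t i).map x)
    have h4 : ∑ v ∈ V, (1 + lm * g x v + lm ^ 2) = n + lm * ∑ v ∈ V, g x v + n * lm ^ 2 := by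
      rw [sum_add_distrib, sum_add_distrib, ← mul_sum]
      simp [hn]
    rw [h4, h2]
    have h5 : lm * ∑ v ∈ V, w v * ((if v ∈ C x then 1 else 0) - a) ≤ lm * (-κ * n) :=
      mul_le_mul_of_nonneg_left h3 hlm0.le
    have h6 : n + lm * (-κ * n) + n * lm ^ 2 = Z := by
      rw [hZ, hlm]; ring
    linarith
  have hprod := prod_bound V Z hZ0 Φ (fun x v => (Real.exp_pos _).le) S hdep hsum
  -- Markov
  set E := (Fintype.piFinset (fun _ : Fin T => V)).filter (fun x =>
      0 ≤ ∑ i, w (x i) * ((if x i ∈ Ψ (fun i => (t i).map x) then 1 else 0) - a)) with hE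
  have hmark : (E.card : ℝ) ≤ Real.exp Q * ∑ x ∈ Fintype.piFinset (fun _ : Fin T => V),
      ∏ i ∈ S, Φ x (x i) := by
    rw [mul_sum]
    calc (E.card : ℝ) = ∑ x ∈ E, (1 : ℝ) := by simp
      _ ≤ ∑ x ∈ E, Real.exp Q * ∏ i ∈ S, Φ x (x i) := by
          refine sum_le_sum fun x hx => ?_
          rw [hE, mem_filter, Fintype.mem_piFinset] at hx
          obtain ⟨hxV, hx0⟩ := hx
          have h1 : ∑ i, g x (x i) = ∑ i, w (x i) * ((if x i ∈ C x then 1 else 0) - a) := by
            refine sum_congr rfl fun i _ => ?_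
            simp only [hg, if_pos (hxV i)]
          have h2 : 0 ≤ ∑ i, g x (x i) := by rw [h1]; exact hx0
          have h3 : ∑ i, g x (x i) = ∑ i ∈ S, g x (x i) + ∑ i ∈ used t, g x (x i) := by
            rw [hS]
            exact (sum_sdiff (subset_univ _)).symm
          have h4 : ∑ i ∈ used t, g x (x i) ≤ Q := by
            calc ∑ i ∈ used t, g x (x i) ≤ ∑ i ∈ used t, (1 : ℝ) :=
                  sum_le_sum fun i _ => (abs_le.1 (hg1 x (x i))).2
              _ = (used t).card := by simp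
              _ ≤ Q := by exact_mod_cast card_used t
          have h5 : ∏ i ∈ S, Φ x (x i) = Real.exp (lm * ∑ i ∈ S, g x (x i)) := by
            simp only [hΦ]
            rw [← Real.exp_sum, mul_sum]
          rw [h5, ← Real.exp_add]
          apply Real.one_le_exp
          have h6 : -(Q : ℝ) ≤ ∑ i ∈ S, g x (x i) := by linarith
          have hQ0 : (0 : ℝ) ≤ Q := Nat.cast_nonneg _
          nlinarith
      _ ≤ ∑ x ∈ Fintype.piFinset (fun _ : Fin T => V), Real.exp Q * ∏ i ∈ S, Φ x (x i) :=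
          sum_le_sum_of_subset_of_nonneg (filter_subset _ _) fun x _ _ =>
            mul_nonneg (Real.exp_pos _).le (prod_nonneg fun i _ => (Real.exp_pos _).le)
  have hScard : T - Q ≤ S.card := by
    have h1 : S.card + (used t).card = T := by
      rw [hS, card_sdiff_add_card_eq_card (subset_univ _), card_univ, Fintype.card_fin]
    have := card_used t
    omega
  have hnS : 0 < n ^ S.card := by positivity
  have hfin : ∑ x ∈ Fintype.piFinset (fun _ : Fin T => V), ∏ i ∈ S, Φ x (x i) ≤
      (1 - κ ^ 2 / 4) ^ S.card * n ^ T := by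
    have h1 : n ^ S.card * ∑ x ∈ Fintype.piFinset (fun _ : Fin T => V), ∏ i ∈ S, Φ x (x i) ≤
        n ^ S.card * ((1 - κ ^ 2 / 4) ^ S.card * n ^ T) := by
      refine hprod.trans (le_of_eq ?_)
      rw [hZ, mul_pow]; ring
    exact le_of_mul_le_mul_left h1 hnS
  refine hmark.trans (mul_le_mul_of_nonneg_left (hfin.trans ?_) (Real.exp_pos _).le)
  apply mul_le_mul_of_nonneg_right _ (by positivity)
  apply pow_le_pow_of_le_one hc0 _ hScard
  nlinarith [sq_nonneg κ]

/-- the total over all `t` is small for large `T` -/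
theorem total_small (Q : ℕ) (κ : ℝ) (hκ0 : 0 < κ) (hκ1 : κ ≤ 1) (η : ℝ) (hη : 0 < η) :
    ∃ T : ℕ, 1 ≤ T ∧ ((T : ℝ) + 1) ^ Q * (Real.exp Q * (1 - κ ^ 2 / 4) ^ (T - Q)) ≤ η := by
  set c : ℝ := 1 - κ ^ 2 / 4 with hc
  have hc1 : c < 1 := by rw [hc]; nlinarith [sq_nonneg κ, sq_pos_of_pos hκ0]
  have hc0 : 0 < c := by rw [hc]; nlinarith
  have h1 : Tendsto (fun m : ℕ => (m : ℝ) ^ Q * c ^ m) atTop (𝓝 0) :=
    tendsto_pow_const_mul_const_pow_of_abs_lt_one Q (by rw [abs_of_pos hc0]; exact hc1)
  have h2 : ∀ᶠ m : ℕ in atTop, (m : ℝ) ^ Q * c ^ m < η * c ^ (Q + 1) / Real.exp Q :=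
    h1.eventually_lt_const (by positivity)
  obtain ⟨m, hm, hmQ⟩ := (h2.and (eventually_ge_atTop (Q + 2))).exists
  refine ⟨m - 1, by omega, ?_⟩
  have e1 : ((m - 1 : ℕ) : ℝ) + 1 = m := by
    have : m - 1 + 1 = m := by omega
    exact_mod_cast this
  rw [e1]
  have e2 : c ^ (Q + 1) * c ^ (m - 1 - Q) = c ^ m := by
    rw [← pow_add]
    congr 1
    omega
  have h3 : (m : ℝ) ^ Q * c ^ m * Real.exp Q < η * c ^ (Q + 1) := by
    rwa [lt_div_iff₀ (Real.exp_pos _)] at hm
  have hcp : 0 < c ^ (Q + 1) := by positivity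
  have h4 : c ^ (Q + 1) * ((m : ℝ) ^ Q * (Real.exp Q * c ^ (m - 1 - Q))) ≤ c ^ (Q + 1) * η := by
    calc c ^ (Q + 1) * ((m : ℝ) ^ Q * (Real.exp Q * c ^ (m - 1 - Q)))
        = (m : ℝ) ^ Q * (c ^ (Q + 1) * c ^ (m - 1 - Q)) * Real.exp Q := by ring
      _ = (m : ℝ) ^ Q * c ^ m * Real.exp Q := by rw [e2]
      _ ≤ _ := by linarith
  exact le_of_mul_le_mul_left h4 hcp

end Pool.Agent.N646.AC
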