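import Mathlib
import Pool.Agent.N646.AC.Samp
import Pool.Agent.W25.QL.Main

/-!
A hereditary family `G` of finite sets such that from any large classes a proportion `1 / lam` of the
classes has a transversal in `G`: for every weight there is an almost complete set which carries
almost the proportion `1 / lam` of the weight.
-/

set_option autoImplicit false

namespace Pool.Agent.N646.AC

open Finset Filter Topology
open Pool.Agent.W25.QL (Fails QProp bad_rare)
open Pool.Agent.W70.QP (Cx mem_Cx)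

/-- the hitting property -/
def Hit (lam : ℝ) {α : Type} [DecidableEq α] (Kf : ℕ → ℕ) (M : ℕ) (V : Finset α)
    (G : Finset α → Prop) : Prop :=
  ∀ T' : ℕ, 1 ≤ T' → T' ≤ M → ∀ H : Fin T' → Fin (Kf T') → α, (∀ g i, H g i ∈ V) →
    Function.Injective (fun x : Fin T' × Fin (Kf T') => H x.1 x.2) →
    ∃ (S : Finset (Fin T')) (c : Fin T' → Fin (Kf T')), (T' : ℝ) ≤ lam * (S.card : ℝ) ∧
      G (S.image (fun g => H g (c g)))

open Classical in
/-- the tuples of distinct elements of `A` which are not in `G` -/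
noncomputable def badT {α : Type} [DecidableEq α] (k : ℕ) (A : Finset α) (G : Finset α → Prop) :
    Finset (Fin (k + 1) → α) :=
  (Fintype.piFinset (fun _ : Fin (k + 1) => A)).filter
    (fun y => Function.Injective y ∧ ¬ G (univ.image y))

theorem mem_badT {α : Type} [DecidableEq α] {k : ℕ} {A : Finset α} {G : Finset α → Prop}
    {y : Fin (k + 1) → α} : y ∈ badT k A G ↔
      (∀ i, y i ∈ A) ∧ Function.Injective y ∧ ¬ G (univ.image y) := by
  classical
  unfold badT
  rw [mem_filter, Fintype.mem_piFinset]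

theorem ins_badT {α : Type} [DecidableEq α] {k : ℕ} {A V : Finset α} {G : Finset α → Prop}
    (h : A ⊆ V) : ins (badT k V G) A = badT k A G := by
  ext y
  unfold ins
  rw [mem_filter, mem_badT, mem_badT]
  exact ⟨fun h1 => ⟨h1.2, h1.1.2⟩, fun h1 => ⟨⟨fun i => h (h1.1 i), h1.2⟩, h1.1⟩⟩

theorem badT_mono {α : Type} [DecidableEq α] {k : ℕ} {A V : Finset α} {G : Finset α → Prop}
    (h : A ⊆ V) : badT k A G ⊆ badT k V G := by
  intro y
  rw [mem_badT, mem_badT]
  exact fun h1 => ⟨fun i => h (h1.1 i), h1.2⟩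

open Classical in
/-- **for every weight there is an almost complete set** -/
theorem wclique {lam : ℝ} (hlam : 1 ≤ lam) (k : ℕ) (ε : ℝ) (hε : 0 < ε) (D : ℕ) (hD : 1 ≤ D)
    (Kf : ℕ → ℕ) : ∃ M n₀ : ℕ, ∀ (α : Type) [DecidableEq α] (V : Finset α) (G : Finset α → Prop),
      n₀ ≤ V.card → (∀ F F' : Finset α, F' ⊆ F → G F → G F') → Hit lam Kf M V G →
      ∀ W : α → ℕ, (∀ v ∈ V, 1 ≤ W v ∧ W v ≤ D) →
      ∃ A ⊆ V, (1 / lam - ε) * ((∑ v ∈ V, W v : ℕ) : ℝ) ≤ ((∑ v ∈ A, W v : ℕ) : ℝ) ∧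
        ((badT k A G).card : ℝ) < ε * (V.card : ℝ) ^ (k + 1) := by
  have hlam0 : 0 < lam := by linarith
  have hDR : (0 : ℝ) < D := by exact_mod_cast hD
  set a : ℝ := 1 / lam with ha
  have ha0 : 0 ≤ a := by rw [ha]; positivity
  have ha1 : a ≤ 1 := by rw [ha, div_le_one hlam0]; exact hlam
  set κ : ℝ := min (ε / D) 1 with hκ
  have hκ0 : 0 < κ := lt_min (by positivity) one_pos
  have hκ1 : κ ≤ 1 := min_le_right _ _
  obtain ⟨Q, hQ⟩ := cont k ε hε
  obtain ⟨T, hT1, hT⟩ := total_small Q κ hκ0 hκ1 (1 / 8) (by norm_num)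
  obtain ⟨M, hM⟩ := bad_rare hlam0 T Kf (1 / 8) (by norm_num)
  obtain ⟨n₀, hn₀⟩ := hM Unit
  refine ⟨M, max n₀ (8 * T ^ 2 + 1), ?_⟩
  intro α _ V G hVn hG hHit W hW
  have hn1 : n₀ ≤ V.card := (le_max_left _ _).trans hVn
  have hn2 : 8 * T ^ 2 + 1 ≤ V.card := (le_max_right _ _).trans hVn
  have hVpos : 0 < V.card := by omega
  obtain ⟨v0, hv0⟩ := card_pos.1 hVpos
  have hn0 : (0 : ℝ) < V.card := by exact_mod_cast hVpos
  have hnT : (8 : ℝ) * T ^ 2 ≤ V.card := by exact_mod_cast (by omega : 8 * T ^ 2 ≤ V.card)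
  have hbad := hn₀ α V (fun _ => ()) G hn1 hG
    (fun T' h1 h2 H h3 h4 _ => hHit T' h1 h2 H h3 h4)
  have hninj := Pool.Agent.H362R2.CM.card_not_injective_le T V
  have hninj' : (((Fintype.piFinset (fun _ : Fin T => V)).filter
      (fun φ => ¬ Function.Injective φ)).card : ℝ) ≤ 1 / 8 * (V.card : ℝ) ^ T := by
    have h1 : (((Fintype.piFinset (fun _ : Fin T => V)).filter
      (fun φ => ¬ Function.Injective φ)).card : ℝ) * V.card ≤
        (1 / 8 * (V.card : ℝ) ^ T) * V.card := by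
      refine le_trans (le_of_eq (by congr!)) (hninj.trans ?_)
      have : (0 : ℝ) ≤ (V.card : ℝ) ^ T := by positivity
      nlinarith
    exact le_of_mul_le_mul_right h1 hn0
  by_contra hcon
  push Not at hcon
  -- the containers
  obtain ⟨Ψ, hΨ1, hΨ2⟩ := hQ α (V.card : ℝ) hn0 (badT k V G) V le_rfl
  have hΨW : ∀ τ, ((∑ v ∈ Ψ τ, W v : ℕ) : ℝ) < (a - ε) * ((∑ v ∈ V, W v : ℕ) : ℝ) := by
    intro τ
    obtain ⟨h1, h2⟩ := hΨ1 τ
    by_contra h3
    have h4 := hcon (Ψ τ) h1 (not_lt.1 h3)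
    rw [ins_badT h1] at h2
    exact absurd h2 (not_lt.2 h4)
  have hWV : (V.card : ℝ) ≤ ((∑ v ∈ V, W v : ℕ) : ℝ) := by
    have : V.card ≤ ∑ v ∈ V, W v := by
      calc V.card = ∑ v ∈ V, 1 := by simp
        _ ≤ _ := sum_le_sum fun v hv => (hW v hv).1
    exact_mod_cast this
  set w : α → ℝ := fun v => (W v : ℝ) / D with hw
  have hw0 : ∀ v ∈ V, 0 ≤ w v := fun v _ => by simp only [hw]; positivity
  have hw1 : ∀ v ∈ V, w v ≤ 1 := fun v hv => by
    simp only [hw]
    rw [div_le_one hDR]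
    exact_mod_cast (hW v hv).2
  have hΨw : ∀ τ, ∑ v ∈ V, w v * ((if v ∈ Ψ τ then 1 else 0) - a) ≤ - κ * V.card := by
    intro τ
    have h1 : ∑ v ∈ V, w v * ((if v ∈ Ψ τ then 1 else 0) - a) =
        (((∑ v ∈ Ψ τ, W v : ℕ) : ℝ) - a * ((∑ v ∈ V, W v : ℕ) : ℝ)) / D := by
      have e1 : ∑ v ∈ V, w v * (if v ∈ Ψ τ then 1 else 0) = ((∑ v ∈ Ψ τ, W v : ℕ) : ℝ) / D := by
        simp only [mul_ite, mul_one, mul_zero]
        rw [← sum_filter]
        have e2 : V.filter (fun v => v ∈ Ψ τ) = Ψ τ := by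
          ext v
          simp only [mem_filter]
          exact ⟨fun h => h.2, fun h => ⟨(hΨ1 τ).1 h, h⟩⟩
        rw [e2]
        push_cast
        rw [sum_div]
      have e3 : ∑ v ∈ V, w v * a = a * ((∑ v ∈ V, W v : ℕ) : ℝ) / D := by
        rw [← sum_mul]
        push_cast
        simp only [hw]
        rw [← sum_div]
        ring
      simp only [mul_sub, sum_sub_distrib]
      rw [e1, e3]
      ring
    rw [h1, div_le_iff₀ hDR]
    have h2 := (hΨW τ).le
    have h3 : κ * D ≤ ε := by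
      calc κ * D ≤ ε / D * D := mul_le_mul_of_nonneg_right (min_le_left _ _) hDR.le
        _ = ε := by field_simp
    have h4 : κ * D * (V.card : ℝ) ≤ ε * ((∑ v ∈ V, W v : ℕ) : ℝ) :=
      mul_le_mul h3 hWV hn0.le hε.le
    nlinarith
  -- the bad samples
  set Bd := (Fintype.piFinset (fun _ : Fin T => V)).filter (fun x => Function.Injective x ∧
        ∃ m, Fails lam (Cx G x) m) with hBd
  set NI := (Fintype.piFinset (fun _ : Fin T => V)).filter (fun φ => ¬ Function.Injective φ) with hNI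
  set E : (Fin Q → Option (Fin T)) → Finset (Fin T → α) := fun t =>
    (Fintype.piFinset (fun _ : Fin T => V)).filter (fun x =>
      0 ≤ ∑ i, w (x i) * ((if x i ∈ Ψ (fun i => (t i).map x) then 1 else 0) - a)) with hE
  have hEc : ((univ.biUnion E).card : ℝ) ≤ 1 / 8 * (V.card : ℝ) ^ T := by
    have h1 : ((univ.biUnion E).card : ℝ) ≤ ∑ t : Fin Q → Option (Fin T), ((E t).card : ℝ) := by
      exact_mod_cast card_biUnion_le
    refine h1.trans ?_
    have h2 : ∀ t ∈ (univ : Finset (Fin Q → Option (Fin T))), ((E t).card : ℝ) ≤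
        Real.exp Q * ((1 - κ ^ 2 / 4) ^ (T - Q) * (V.card : ℝ) ^ T) := fun t _ =>
      tail_bound V Ψ w hw0 hw1 a κ ha0 ha1 hκ0 hκ1 hΨw t
    refine (sum_le_sum h2).trans ?_
    rw [sum_const, card_univ, Fintype.card_fun, Fintype.card_option, Fintype.card_fin,
      Fintype.card_fin, nsmul_eq_mul]
    push_cast
    calc ((T : ℝ) + 1) ^ Q * (Real.exp Q * ((1 - κ ^ 2 / 4) ^ (T - Q) * (V.card : ℝ) ^ T))
        = (((T : ℝ) + 1) ^ Q * (Real.exp Q * (1 - κ ^ 2 / 4) ^ (T - Q))) * (V.card : ℝ) ^ T := by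
          ring
      _ ≤ _ := mul_le_mul_of_nonneg_right hT (by positivity)
  -- a good sample
  have hgood : ∃ x ∈ Fintype.piFinset (fun _ : Fin T => V), x ∉ Bd ∧ x ∉ NI ∧
      x ∉ univ.biUnion E := by
    by_contra hno
    push Not at hno
    have h1 : Fintype.piFinset (fun _ : Fin T => V) ⊆ Bd ∪ NI ∪ univ.biUnion E := by
      intro x hx
      by_cases h2 : x ∈ Bd
      · exact mem_union_left _ (mem_union_left _ h2)
      by_cases h3 : x ∈ NI
      · exact mem_union_left _ (mem_union_right _ h3)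
      exact mem_union_right _ (hno x hx h2 h3)
    have h2 := (card_le_card h1).trans ((card_union_le _ _).trans
      (Nat.add_le_add_right (card_union_le _ _) _))
    rw [Fintype.card_piFinset, prod_const, card_univ, Fintype.card_fin] at h2
    have h3 : (V.card : ℝ) ^ T ≤ (Bd.card : ℝ) + NI.card + (univ.biUnion E).card := by
      exact_mod_cast h2
    have h4 : (0 : ℝ) < (V.card : ℝ) ^ T := by positivity
    have h5 : (Bd.card : ℝ) ≤ 1 / 8 * (V.card : ℝ) ^ T := hbad
    linarith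
  obtain ⟨x, hx, hxB, hxN, hxE⟩ := hgood
  rw [Fintype.mem_piFinset] at hx
  have hxinj : Function.Injective x := by
    by_contra h
    exact hxN (mem_filter.2 ⟨Fintype.mem_piFinset.2 hx, h⟩)
  have hnf : ¬ Fails lam (Cx G x) (fun i => W (x i)) := by
    intro h
    exact hxB (mem_filter.2 ⟨Fintype.mem_piFinset.2 hx, hxinj, _, h⟩)
  unfold Fails at hnf
  push Not at hnf
  have hT0 : 0 < T := by omega
  have hsum1 : 1 ≤ ∑ i, W (x i) := by
    have h1 : W (x ⟨0, hT0⟩) ≤ ∑ i, W (x i) :=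
      single_le_sum (f := fun i => W (x i)) (fun _ _ => Nat.zero_le _) (mem_univ _)
    exact (hW _ (hx _)).1.trans h1
  obtain ⟨S, hS, hSW⟩ := hnf hsum1
  rw [mem_Cx] at hS
  have hindep : Indep (badT k V G) (S.image x) := by
    intro y hy
    by_contra hall
    push Not at hall
    rw [mem_badT] at hy
    apply hy.2.2
    apply hG _ _ _ hS
    intro v hv
    obtain ⟨i, _, rfl⟩ := mem_image.1 hv
    exact hall i
  obtain ⟨τ, hτ1, hτ2⟩ := hΨ2 (S.image x) (by
    intro v hv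
    obtain ⟨i, _, rfl⟩ := mem_image.1 hv
    exact hx i) hindep
  have ht : ∀ i, ∃ o : Option (Fin T), o.map x = τ i := by
    intro i
    cases h : τ i with
    | none => exact ⟨none, rfl⟩
    | some v =>
      obtain ⟨j, _, hj⟩ := mem_image.1 (hτ1 i v h)
      exact ⟨some j, by simp [hj]⟩
  choose t ht using ht
  apply hxE
  rw [mem_biUnion]
  refine ⟨t, mem_univ _, ?_⟩
  simp only [hE]
  rw [mem_filter]
  refine ⟨Fintype.mem_piFinset.2 hx, ?_⟩
  have htau : (fun i => (t i).map x) = τ := funext ht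
  rw [htau]
  -- the sum
  have h1 : ∑ i, w (x i) * ((if x i ∈ Ψ τ then (1 : ℝ) else 0) - a) =
      ∑ i, w (x i) * (if x i ∈ Ψ τ then (1 : ℝ) else 0) - a * ∑ i, w (x i) := by
    rw [mul_sum, ← sum_sub_distrib]
    refine sum_congr rfl fun i _ => ?_
    ring
  rw [h1]
  have h2 : ∑ i ∈ S, w (x i) ≤ ∑ i, w (x i) * (if x i ∈ Ψ τ then (1 : ℝ) else 0) := by
    have h3 : ∑ i ∈ S, w (x i) = ∑ i ∈ S, w (x i) * (if x i ∈ Ψ τ then (1 : ℝ) else 0) := by
      refine sum_congr rfl fun i hi => ?_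
      rw [if_pos (hτ2 (mem_image_of_mem x hi)), mul_one]
    rw [h3]
    refine sum_le_sum_of_subset_of_nonneg (subset_univ _) fun i _ _ => ?_
    have := hw0 _ (hx i)
    split_ifs <;> simp [this]
  have h4 : a * ∑ i, w (x i) ≤ ∑ i ∈ S, w (x i) := by
    have h5 : ∑ i, w (x i) = ((∑ i, W (x i) : ℕ) : ℝ) / D := by
      push_cast
      rw [sum_div]
    have h6 : ∑ i ∈ S, w (x i) = ((∑ i ∈ S, W (x i) : ℕ) : ℝ) / D := by
      push_cast
      rw [sum_div]
    rw [h5, h6, ← mul_div_assoc]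
    apply div_le_div_of_nonneg_right _ hDR.le
    rw [ha, one_div, inv_mul_le_iff₀ hlam0]
    exact hSW
  linarith

end Pool.Agent.N646.AC
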