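import Mathlib

/-! Fourier analysis on a finite abelian group: what is needed for the almost periodicity. -/

set_option autoImplicit false

namespace Pool.Agent.N646.AC

open Finset ComplexConjugate

variable {G : Type} [AddCommGroup G] [Fintype G] [DecidableEq G]

theorem char_orth (ψ φ : AddChar G ℂ) :
    ∑ h, ψ h * conj (φ h) = if ψ = φ then (Fintype.card G : ℂ) else 0 := by
  have h1 : ∀ h, ψ h * conj (φ h) = (ψ - φ) h := by
    intro h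
    rw [AddChar.sub_apply, AddChar.map_neg_eq_conj]
  simp_rw [h1]
  rw [AddChar.sum_eq_ite]
  simp [sub_eq_zero]

theorem char_orth' (x y : G) :
    ∑ ψ : AddChar G ℂ, ψ x * conj (ψ y) = if x = y then (Fintype.card G : ℂ) else 0 := by
  have h1 : ∀ ψ : AddChar G ℂ, ψ x * conj (ψ y) = ψ (x - y) := by
    intro ψ
    rw [sub_eq_add_neg, AddChar.map_add_eq_mul, AddChar.map_neg_eq_conj]
  simp_rw [h1]
  rw [AddChar.sum_apply_eq_ite]
  simp [sub_eq_zero]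

theorem parseval1 (a : AddChar G ℂ → ℂ) :
    ∑ h : G, ‖∑ ψ : AddChar G ℂ, a ψ * ψ h‖ ^ 2 =
      (Fintype.card G : ℝ) * ∑ ψ : AddChar G ℂ, ‖a ψ‖ ^ 2 := by
  have key : ((∑ h : G, ‖∑ ψ : AddChar G ℂ, a ψ * ψ h‖ ^ 2 : ℝ) : ℂ) =
      (((Fintype.card G : ℝ) * ∑ ψ : AddChar G ℂ, ‖a ψ‖ ^ 2 : ℝ) : ℂ) := by
    push_cast
    simp_rw [← Complex.mul_conj']
    have e1 : ∀ h : G, (∑ ψ : AddChar G ℂ, a ψ * ψ h) * conj (∑ φ : AddChar G ℂ, a φ * φ h) =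
        ∑ ψ : AddChar G ℂ, ∑ φ : AddChar G ℂ, a ψ * conj (a φ) * (ψ h * conj (φ h)) := by
      intro h
      rw [map_sum, sum_mul_sum]
      refine sum_congr rfl fun ψ _ => sum_congr rfl fun φ _ => ?_
      rw [map_mul]; ring
    simp_rw [e1]
    rw [sum_comm, mul_sum]
    refine sum_congr rfl fun ψ _ => ?_
    rw [sum_comm]
    simp_rw [← mul_sum, char_orth]
    simp
    ring
  exact_mod_cast key

theorem parseval2 (F : G → ℂ) :
    ∑ ψ : AddChar G ℂ, ‖∑ x, F x * ψ x‖ ^ 2 = (Fintype.card G : ℝ) * ∑ x, ‖F x‖ ^ 2 := by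
  have key : ((∑ ψ : AddChar G ℂ, ‖∑ x, F x * ψ x‖ ^ 2 : ℝ) : ℂ) =
      (((Fintype.card G : ℝ) * ∑ x, ‖F x‖ ^ 2 : ℝ) : ℂ) := by
    push_cast
    simp_rw [← Complex.mul_conj']
    have e1 : ∀ ψ : AddChar G ℂ, (∑ x, F x * ψ x) * conj (∑ y, F y * ψ y) =
        ∑ x, ∑ y, F x * conj (F y) * (ψ x * conj (ψ y)) := by
      intro h
      rw [map_sum, sum_mul_sum]
      refine sum_congr rfl fun ψ _ => sum_congr rfl fun φ _ => ?_
      rw [map_mul]; ring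
    simp_rw [e1]
    rw [sum_comm, mul_sum]
    refine sum_congr rfl fun ψ _ => ?_
    rw [sum_comm]
    simp_rw [← mul_sum, char_orth']
    simp
    ring
  exact_mod_cast key

/-- the Fourier coefficient -/
noncomputable def fh (f : G → ℂ) (ψ : AddChar G ℂ) : ℂ :=
  (Fintype.card G : ℂ)⁻¹ * ∑ x, f x * conj (ψ x)

theorem cardC_ne : (Fintype.card G : ℂ) ≠ 0 := by
  have : 0 < Fintype.card G := Fintype.card_pos_iff.2 ⟨0⟩
  exact_mod_cast this.ne'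

theorem inversion (f : G → ℂ) (x : G) : f x = ∑ ψ : AddChar G ℂ, fh f ψ * ψ x := by
  unfold fh
  have e1 : ∀ ψ : AddChar G ℂ, (Fintype.card G : ℂ)⁻¹ * (∑ y, f y * conj (ψ y)) * ψ x =
      ∑ y, (Fintype.card G : ℂ)⁻¹ * f y * (ψ x * conj (ψ y)) := by
    intro ψ
    rw [mul_sum, sum_mul]
    refine sum_congr rfl fun y _ => ?_
    ring
  simp_rw [e1]
  rw [sum_comm]
  simp_rw [← mul_sum, char_orth']
  simp
  field_simp [cardC_ne (G := G)]

theorem parseval (f : G → ℂ) :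
    (Fintype.card G : ℝ) * ∑ ψ : AddChar G ℂ, ‖fh f ψ‖ ^ 2 = ∑ x, ‖f x‖ ^ 2 := by
  rw [← parseval1]
  refine sum_congr rfl fun x _ => ?_
  rw [← inversion]

/-- the correlation of `F` with a function with small Fourier coefficients -/
theorem corr (F : G → ℂ) (a : AddChar G ℂ → ℂ) (η : ℝ) (hη : 0 ≤ η) (ha : ∀ ψ, ‖a ψ‖ ≤ η)
    (hF : ∀ x, ‖F x‖ ≤ 1) :
    ∑ h : G, ‖∑ x, F x * ∑ ψ : AddChar G ℂ, a ψ * ψ (x + h)‖ ^ 2 ≤
      (Fintype.card G : ℝ) ^ 3 * η ^ 2 := by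
  have e1 : ∀ h : G, ∑ x, F x * ∑ ψ : AddChar G ℂ, a ψ * ψ (x + h) =
      ∑ ψ : AddChar G ℂ, (a ψ * ∑ x, F x * ψ x) * ψ h := by
    intro h
    simp_rw [mul_sum, sum_mul]
    rw [sum_comm]
    refine sum_congr rfl fun ψ _ => sum_congr rfl fun x _ => ?_
    rw [AddChar.map_add_eq_mul]
    ring
  simp_rw [e1]
  rw [parseval1]
  have h1 : ∑ ψ : AddChar G ℂ, ‖a ψ * ∑ x, F x * ψ x‖ ^ 2 ≤
      η ^ 2 * ∑ ψ : AddChar G ℂ, ‖∑ x, F x * ψ x‖ ^ 2 := by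
    rw [mul_sum]
    refine sum_le_sum fun ψ _ => ?_
    rw [norm_mul, mul_pow]
    exact mul_le_mul_of_nonneg_right (pow_le_pow_left₀ (norm_nonneg _) (ha ψ) 2) (by positivity)
  rw [parseval2] at h1
  have h2 : ∑ x, ‖F x‖ ^ 2 ≤ (Fintype.card G : ℝ) := by
    calc ∑ x, ‖F x‖ ^ 2 ≤ ∑ _x : G, (1 : ℝ) := sum_le_sum fun x _ => by
          have := hF x
          have h0 := norm_nonneg (F x)
          nlinarith
      _ = Fintype.card G := by simp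
  have hG : (0 : ℝ) ≤ Fintype.card G := Nat.cast_nonneg _
  calc (Fintype.card G : ℝ) * ∑ ψ : AddChar G ℂ, ‖a ψ * ∑ x, F x * ψ x‖ ^ 2
      ≤ Fintype.card G * (η ^ 2 * (Fintype.card G * ∑ x, ‖F x‖ ^ 2)) :=
        mul_le_mul_of_nonneg_left h1 hG
    _ ≤ Fintype.card G * (η ^ 2 * (Fintype.card G * Fintype.card G)) := by gcongr
    _ = _ := by ring

end Pool.Agent.N646.AC
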