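import Mathlib
import Pool.Agent.N646.AC.Clq

/-!
A bounded number of almost complete sets covers almost all elements with the multiplicity
`1 / lam - ε` (multiplicative weights).
-/

set_option autoImplicit false

namespace Pool.Agent.N646.AC

open Finset Filter Topology

/-- the number of the first `j` sets which contain `v` -/
def cnt {α : Type} [DecidableEq α] (A : ℕ → Finset α) (j : ℕ) (v : α) : ℕ :=
  ((range j).filter (fun i => v ∈ A i)).card

theorem cnt_le {α : Type} [DecidableEq α] (A : ℕ → Finset α) (j : ℕ) (v : α) : cnt A j v ≤ j := by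
  unfold cnt
  refine (card_filter_le _ _).trans (by simp)

theorem cnt_congr {α : Type} [DecidableEq α] {A B : ℕ → Finset α} {j : ℕ} (h : ∀ i < j, A i = B i) (v : α) :
    cnt A j v = cnt B j v := by
  unfold cnt
  congr 1
  apply filter_congr
  intro i hi
  rw [h i (mem_range.1 hi)]

theorem cnt_succ {α : Type} [DecidableEq α] (A : ℕ → Finset α) (j : ℕ) (v : α) :
    cnt A (j + 1) v = cnt A j v + if v ∈ A j then 1 else 0 := by
  unfold cnt
  rw [range_add_one, filter_insert]
  split_ifs with h
  · rw [card_insert_of_notMem]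
    intro h1
    exact absurd (mem_range.1 (mem_filter.1 h1).1) (lt_irrefl _)
  · simp

/-- the iteration -/
theorem iter {α : Type} [DecidableEq α] {V : Finset α} (P : Finset α → Prop) (b m : ℕ) (hb : 2 ≤ b) (a : ℝ)
    (ha : a ≤ 1)
    (h : ∀ W : α → ℕ, (∀ v ∈ V, 1 ≤ W v ∧ W v ≤ b ^ m) → ∃ A ⊆ V,
      a * ((∑ v ∈ V, W v : ℕ) : ℝ) ≤ ((∑ v ∈ A, W v : ℕ) : ℝ) ∧ P A) (j : ℕ) (hj : j ≤ m) :
    ∃ A : ℕ → Finset α, (∀ i < j, A i ⊆ V ∧ P (A i)) ∧
      ∑ v ∈ V, (((b : ℝ) - 1) / b) ^ cnt A j v ≤ V.card * (1 - a / b) ^ j := by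
  have hbR : (2 : ℝ) ≤ b := by exact_mod_cast hb
  have hb0 : (0 : ℝ) < b := by linarith
  induction j with
  | zero =>
    refine ⟨fun _ => ∅, fun i hi => absurd hi (by omega), ?_⟩
    simp [cnt]
  | succ j ih =>
    obtain ⟨A, hA1, hA2⟩ := ih (by omega)
    set W : α → ℕ := fun v => (b - 1) ^ cnt A j v * b ^ (m - cnt A j v) with hW
    have hcm : ∀ v, cnt A j v ≤ m := fun v => (cnt_le A j v).trans (by omega)
    have hWR : ∀ v, (W v : ℝ) = (b : ℝ) ^ m * (((b : ℝ) - 1) / b) ^ cnt A j v := by
      intro v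
      simp only [hW]
      push_cast
      rw [Nat.cast_sub (by omega : 1 ≤ b), Nat.cast_one, div_pow]
      have e : (b : ℝ) ^ m = (b : ℝ) ^ (m - cnt A j v) * (b : ℝ) ^ cnt A j v := by
        rw [← pow_add, Nat.sub_add_cancel (hcm v)]
      rw [e]
      have hne : (b : ℝ) ^ cnt A j v ≠ 0 := by positivity
      field_simp
    obtain ⟨A', hA'V, hA'W, hA'P⟩ := h W (by
      intro v _
      simp only [hW]
      constructor
      · apply Nat.one_le_iff_ne_zero.2
        have h1 : b - 1 ≠ 0 := by omega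
        have h2 : b ≠ 0 := by omega
        positivity
      · calc (b - 1) ^ cnt A j v * b ^ (m - cnt A j v) ≤ b ^ cnt A j v * b ^ (m - cnt A j v) :=
            Nat.mul_le_mul_right _ (Nat.pow_le_pow_left (by omega) _)
          _ = b ^ m := by rw [← pow_add, Nat.add_sub_cancel' (hcm v)])
    set A'' : ℕ → Finset α := fun i => if i < j then A i else A' with hA''
    have hlt : ∀ i < j, A'' i = A i := fun i hi => by simp only [hA'', if_pos hi]
    have heq : A'' j = A' := by simp only [hA'', lt_irrefl, if_false]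
    refine ⟨A'', ?_, ?_⟩
    · intro i hi
      rcases Nat.lt_succ_iff_lt_or_eq.1 hi with h1 | rfl
      · rw [hlt i h1]; exact hA1 i h1
      · rw [heq]; exact ⟨hA'V, hA'P⟩
    · set β : ℝ := ((b : ℝ) - 1) / b with hβ
      have hbp : (0 : ℝ) < (b : ℝ) ^ m := by positivity
      have h1 : a * ∑ v ∈ V, β ^ cnt A j v ≤ ∑ v ∈ A', β ^ cnt A j v := by
        have h2 : (b : ℝ) ^ m * (a * ∑ v ∈ V, β ^ cnt A j v) ≤
            (b : ℝ) ^ m * ∑ v ∈ A', β ^ cnt A j v := by
          have e1 : ((∑ v ∈ V, W v : ℕ) : ℝ) = (b : ℝ) ^ m * ∑ v ∈ V, β ^ cnt A j v := by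
            push_cast
            rw [mul_sum]
            exact sum_congr rfl fun v _ => hWR v
          have e2 : ((∑ v ∈ A', W v : ℕ) : ℝ) = (b : ℝ) ^ m * ∑ v ∈ A', β ^ cnt A j v := by
            push_cast
            rw [mul_sum]
            exact sum_congr rfl fun v _ => hWR v
          rw [e1, e2] at hA'W
          linarith
        exact le_of_mul_le_mul_left h2 hbp
      have h2 : ∑ v ∈ V, β ^ cnt A'' (j + 1) v =
          ∑ v ∈ V, β ^ cnt A j v - 1 / b * ∑ v ∈ A', β ^ cnt A j v := by
        have h3 : ∀ v, β ^ cnt A'' (j + 1) v = β ^ cnt A j v -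
            (if v ∈ A' then 1 / b * β ^ cnt A j v else 0) := by
          intro v
          rw [cnt_succ, cnt_congr hlt, heq]
          split_ifs with h4
          · have : β = 1 - 1 / b := by rw [hβ]; field_simp
            rw [pow_succ]
            nth_rewrite 2 [this]
            ring
          · simp
        simp only [h3]
        rw [sum_sub_distrib]
        congr 1
        rw [← sum_filter, mul_sum]
        apply sum_congr _ fun _ _ => rfl
        ext v
        simp only [mem_filter]
        exact ⟨fun h => h.2, fun h => ⟨hA'V h, h⟩⟩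
      rw [h2]
      have h5 : 0 ≤ ∑ v ∈ V, β ^ cnt A j v := by
        apply sum_nonneg
        intro v _
        have : 0 ≤ β := by rw [hβ]; apply div_nonneg <;> linarith
        positivity
      have h6 : 1 / (b : ℝ) * (a * ∑ v ∈ V, β ^ cnt A j v) ≤
          1 / b * ∑ v ∈ A', β ^ cnt A j v :=
        mul_le_mul_of_nonneg_left h1 (by positivity)
      have h7 : 0 ≤ 1 - a / b := by
        have : a / b ≤ 1 := by
          rw [div_le_one hb0]; linarith
        linarith
      calc ∑ v ∈ V, β ^ cnt A j v - 1 / b * ∑ v ∈ A', β ^ cnt A j v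
          ≤ (1 - a / b) * ∑ v ∈ V, β ^ cnt A j v := by
            have e : 1 / (b : ℝ) * (a * ∑ v ∈ V, β ^ cnt A j v) =
              a / b * ∑ v ∈ V, β ^ cnt A j v := by ring
            rw [e] at h6
            linarith
        _ ≤ (1 - a / b) * (V.card * (1 - a / b) ^ j) := mul_le_mul_of_nonneg_left hA2 h7
        _ = V.card * (1 - a / b) ^ (j + 1) := by ring

open Classical in
/-- **covering with almost complete sets** -/
theorem cover {lam : ℝ} (hlam : 1 ≤ lam) (k : ℕ) (ε : ℝ) (hε : 0 < ε) (Kf : ℕ → ℕ) :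
    ∃ m M n₀ : ℕ, ∃ κ : ℝ, 1 ≤ m ∧ 0 < κ ∧ ∀ (α : Type) [DecidableEq α] (V : Finset α)
      (G : Finset α → Prop), n₀ ≤ V.card → (∀ F F' : Finset α, F' ⊆ F → G F → G F') →
      Hit lam Kf M V G → ∃ A : Fin m → Finset α,
        (∀ j, A j ⊆ V ∧ (A j = ∅ ∨ κ * V.card ≤ ((A j).card : ℝ)) ∧
          ((badT k (A j) G).card : ℝ) ≤ ε * ((A j).card : ℝ) ^ (k + 1)) ∧
        ((V.filter (fun v => ((univ.filter (fun j => v ∈ A j)).card : ℝ) <
          (1 / lam - ε) * m)).card : ℝ) ≤ ε * V.card := by
  have hlam0 : 0 < lam := by linarith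
  set a : ℝ := 1 / lam with ha
  have ha0 : 0 < a := by rw [ha]; positivity
  have ha1 : a ≤ 1 := by rw [ha, div_le_one hlam0]; exact hlam
  rcases le_or_gt a ε with haε | haε
  · refine ⟨1, 0, 0, 1, le_rfl, one_pos, ?_⟩
    intro α _ V G _ _ _
    refine ⟨fun _ => ∅, fun j => ⟨empty_subset _, Or.inl rfl, ?_⟩, ?_⟩
    · have : badT k (∅ : Finset α) G = ∅ := by
        rw [eq_empty_iff_forall_notMem]
        intro y hy
        rw [mem_badT] at hy
        exact absurd (hy.1 0) (notMem_empty _)
      rw [this]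
      simp
    · have : (V.filter (fun v => (((univ : Finset (Fin 1)).filter
          (fun j => v ∈ (∅ : Finset α))).card : ℝ) < (a - ε) * ((1 : ℕ) : ℝ))) = ∅ := by
        rw [filter_eq_empty_iff]
        intro v _
        simp
        linarith
      rw [this]
      simp only [card_empty, Nat.cast_zero]
      positivity
  have hε1 : ε < 1 := by linarith
  set ε₀ : ℝ := ε / 4 with hε₀
  have hε₀0 : 0 < ε₀ := by rw [hε₀]; linarith
  obtain ⟨b₀, hb₀⟩ := exists_nat_gt (1 / ε₀)
  set b : ℕ := b₀ + 2 with hb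
  have hb2 : 2 ≤ b := by omega
  have hbR : (2 : ℝ) ≤ b := by exact_mod_cast hb2
  have hbε : 1 < ε₀ * b := by
    rw [div_lt_iff₀ hε₀0] at hb₀
    rw [hb]; push_cast
    nlinarith
  set c' : ℝ := (a - ε₀) / b - (a - 2 * ε₀) / (b - 1) with hc'
  have hb1 : (0 : ℝ) < b - 1 := by linarith
  have hb0 : (0 : ℝ) < b := by linarith
  have hc'0 : 0 < c' := by
    have e : c' = (ε₀ * b - (a - ε₀)) / (b * (b - 1)) := by
      rw [hc']; field_simp; ring
    rw [e]
    apply div_pos _ (by positivity)
    linarith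
  obtain ⟨m₀, hm₀⟩ := exists_nat_ge (2 / (ε * c'))
  set m : ℕ := m₀ + 1 with hm
  have hmR : 2 / (ε * c') ≤ m := hm₀.trans (by rw [hm]; push_cast; linarith)
  have hm0 : (0 : ℝ) < m := by rw [hm]; positivity
  have hexp : Real.exp (-(c' * m)) ≤ ε / 2 := by
    have h1 : 2 / ε ≤ c' * m := by
      rw [div_le_iff₀ (by positivity)] at hmR
      rw [div_le_iff₀ hε]
      linarith
    have h2 : 2 / ε ≤ Real.exp (c' * m) := by
      have := Real.add_one_le_exp (c' * m)
      linarith
    rw [Real.exp_neg]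
    rw [inv_le_comm₀ (Real.exp_pos _) (by positivity)]
    calc (ε / 2)⁻¹ = 2 / ε := by rw [inv_div]
      _ ≤ _ := h2
  set κ : ℝ := ε ^ 2 / 4 with hκ
  have hκ0 : 0 < κ := by rw [hκ]; positivity
  have hε₂ : 0 < min ε₀ (ε * κ ^ (k + 1)) := lt_min hε₀0 (by positivity)
  obtain ⟨M, n₀, hcl⟩ := wclique hlam k (min ε₀ (ε * κ ^ (k + 1))) hε₂ (b ^ m)
    (Nat.one_le_iff_ne_zero.2 (by positivity)) Kf
  refine ⟨m, M, n₀, κ, by omega, hκ0, ?_⟩
  intro α _ V G hVn hG hHit
  set n : ℝ := (V.card : ℝ) with hn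
  have hn0 : 0 ≤ n := Nat.cast_nonneg _
  obtain ⟨A, hA1, hA2⟩ := iter (V := V)
    (fun A => ((badT k A G).card : ℝ) < min ε₀ (ε * κ ^ (k + 1)) * n ^ (k + 1)) b m hb2 (a - ε₀)
    (by linarith) (by
      intro W hW
      obtain ⟨A, h1, h2, h3⟩ := hcl α V G hVn hG hHit W hW
      refine ⟨A, h1, le_trans ?_ h2, h3⟩
      apply mul_le_mul_of_nonneg_right _ (Nat.cast_nonneg _)
      have := min_le_left ε₀ (ε * κ ^ (k + 1))
      linarith) m le_rfl
  -- the elements which are covered rarely
  set E := V.filter (fun v => (cnt A m v : ℝ) < (a - 2 * ε₀) * m) with hE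
  have hEc : (E.card : ℝ) ≤ ε / 2 * n := by
    set β : ℝ := ((b : ℝ) - 1) / b with hβ
    have hβ0 : 0 ≤ β := by rw [hβ]; positivity
    have hβe : Real.exp (-(1 / (b - 1))) ≤ β := by
      have h1 : β⁻¹ ≤ Real.exp (1 / (b - 1)) := by
        have h2 := Real.add_one_le_exp (1 / ((b : ℝ) - 1))
        have e : β⁻¹ = 1 / ((b : ℝ) - 1) + 1 := by
          rw [hβ, inv_div]; field_simp; ring
        rw [e]; exact h2
      have hβp : 0 < β := by rw [hβ]; positivity
      rw [Real.exp_neg]
      exact inv_le_of_inv_le₀ hβp h1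
    have h1 : (E.card : ℝ) * Real.exp (-((a - 2 * ε₀) * m / (b - 1))) ≤
        ∑ v ∈ V, β ^ cnt A m v := by
      calc (E.card : ℝ) * Real.exp (-((a - 2 * ε₀) * m / (b - 1))) =
          ∑ v ∈ E, Real.exp (-((a - 2 * ε₀) * m / (b - 1))) := by
            rw [sum_const, nsmul_eq_mul]
        _ ≤ ∑ v ∈ E, β ^ cnt A m v := by
            refine sum_le_sum fun v hv => ?_
            have hv' := (mem_filter.1 hv).2
            calc Real.exp (-((a - 2 * ε₀) * m / (b - 1))) ≤
                Real.exp (cnt A m v * (-(1 / (b - 1)))) := by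
                  apply Real.exp_le_exp.2
                  have : (cnt A m v : ℝ) / (b - 1) ≤ (a - 2 * ε₀) * m / (b - 1) :=
                    div_le_div_of_nonneg_right hv'.le hb1.le
                  have e : (cnt A m v : ℝ) * (-(1 / (b - 1))) = -((cnt A m v : ℝ) / (b - 1)) := by
                    ring
                  rw [e]
                  linarith
              _ = Real.exp (-(1 / (b - 1))) ^ cnt A m v := by rw [← Real.exp_nat_mul]
              _ ≤ β ^ cnt A m v := pow_le_pow_left₀ (Real.exp_pos _).le hβe _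
        _ ≤ _ := sum_le_sum_of_subset_of_nonneg (filter_subset _ _) fun v _ _ => by positivity
    have h2 : (1 - (a - ε₀) / b) ^ m ≤ Real.exp (-((a - ε₀) * m / b)) := by
      have h3 : 1 - (a - ε₀) / b ≤ Real.exp (-((a - ε₀) / b)) := by
        have := Real.add_one_le_exp (-((a - ε₀) / b))
        linarith
      have h4 : 0 ≤ 1 - (a - ε₀) / b := by
        have : (a - ε₀) / b ≤ 1 := by
          rw [div_le_one hb0]; linarith
        linarith
      calc (1 - (a - ε₀) / b) ^ m ≤ Real.exp (-((a - ε₀) / b)) ^ m := pow_le_pow_left₀ h4 h3 _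
        _ = Real.exp (-((a - ε₀) * m / b)) := by
            rw [← Real.exp_nat_mul]; congr 1; ring
    have h3 := h1.trans (hA2.trans (mul_le_mul_of_nonneg_left h2 hn0))
    have h4 : (E.card : ℝ) ≤ n * Real.exp (-(c' * m)) := by
      have h5 : (E.card : ℝ) = (E.card : ℝ) * Real.exp (-((a - 2 * ε₀) * m / (b - 1))) *
          Real.exp ((a - 2 * ε₀) * m / (b - 1)) := by
        rw [mul_assoc, ← Real.exp_add]; simp
      rw [h5]
      calc (E.card : ℝ) * Real.exp (-((a - 2 * ε₀) * m / (b - 1))) *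
          Real.exp ((a - 2 * ε₀) * m / (b - 1))
          ≤ n * Real.exp (-((a - ε₀) * m / b)) * Real.exp ((a - 2 * ε₀) * m / (b - 1)) :=
            mul_le_mul_of_nonneg_right h3 (Real.exp_pos _).le
        _ = n * Real.exp (-(c' * m)) := by
            rw [mul_assoc, ← Real.exp_add]
            congr 2
            rw [hc']; ring
    calc (E.card : ℝ) ≤ n * Real.exp (-(c' * m)) := h4
      _ ≤ n * (ε / 2) := mul_le_mul_of_nonneg_left hexp hn0
      _ = ε / 2 * n := by ring
  -- the small sets
  set cs : α → ℕ := fun v =>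
    ((range m).filter (fun i => v ∈ A i ∧ ((A i).card : ℝ) < κ * n)).card with hcs
  set F := V.filter (fun v => ε / 2 * m ≤ (cs v : ℝ)) with hF
  have hFc : (F.card : ℝ) ≤ ε / 2 * n := by
    have h1 : ∑ v ∈ V, (cs v : ℝ) ≤ m * (κ * n) := by
      have h2 : ∑ v ∈ V, cs v = ∑ i ∈ range m, (V.filter (fun v => v ∈ A i ∧
          ((A i).card : ℝ) < κ * n)).card := by
        simp only [hcs, card_filter]
        exact sum_comm
      have h3 : ∀ i ∈ range m, ((V.filter (fun v => v ∈ A i ∧
          ((A i).card : ℝ) < κ * n)).card : ℝ) ≤ κ * n := by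
        intro i _
        by_cases h4 : ((A i).card : ℝ) < κ * n
        · refine le_trans ?_ h4.le
          rw [Nat.cast_le]
          apply card_le_card
          intro v hv
          exact (mem_filter.1 hv).2.1
        · have : V.filter (fun v => v ∈ A i ∧ ((A i).card : ℝ) < κ * n) = ∅ := by
            rw [filter_eq_empty_iff]
            intro v _ h5
            exact h4 h5.2
          rw [this, card_empty, Nat.cast_zero]
          positivity
      have h4 : ∑ v ∈ V, (cs v : ℝ) = ∑ i ∈ range m, ((V.filter (fun v => v ∈ A i ∧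
          ((A i).card : ℝ) < κ * n)).card : ℝ) := by exact_mod_cast h2
      rw [h4]
      refine (sum_le_sum h3).trans ?_
      rw [sum_const, card_range, nsmul_eq_mul]
    have h2 : (F.card : ℝ) * (ε / 2 * m) ≤ ∑ v ∈ V, (cs v : ℝ) := by
      calc (F.card : ℝ) * (ε / 2 * m) = ∑ v ∈ F, ε / 2 * (m : ℝ) := by
            rw [sum_const, nsmul_eq_mul]
        _ ≤ ∑ v ∈ F, (cs v : ℝ) := sum_le_sum fun v hv => (mem_filter.1 hv).2
        _ ≤ _ := sum_le_sum_of_subset_of_nonneg (filter_subset _ _) fun v _ _ => Nat.cast_nonneg _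
    have h3 : (F.card : ℝ) * (ε / 2 * m) ≤ (ε / 2 * n) * (ε / 2 * m) := by
      refine h2.trans (h1.trans (le_of_eq ?_))
      rw [hκ]; ring
    exact le_of_mul_le_mul_right h3 (by positivity)
  refine ⟨fun j => if κ * n ≤ ((A j).card : ℝ) then A j else ∅, ?_, ?_⟩
  · intro j
    simp only []
    obtain ⟨h1, h2⟩ := hA1 j j.2
    split_ifs with h3
    · refine ⟨h1, Or.inr h3, h2.le.trans ?_⟩
      calc min ε₀ (ε * κ ^ (k + 1)) * n ^ (k + 1) ≤ (ε * κ ^ (k + 1)) * n ^ (k + 1) :=
            mul_le_mul_of_nonneg_right (min_le_right _ _) (by positivity)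
        _ = ε * (κ * n) ^ (k + 1) := by rw [mul_pow]; ring
        _ ≤ ε * ((A j).card : ℝ) ^ (k + 1) :=
            mul_le_mul_of_nonneg_left (pow_le_pow_left₀ (by positivity) h3 _) hε.le
    · refine ⟨empty_subset _, Or.inl rfl, ?_⟩
      have : badT k (∅ : Finset α) G = ∅ := by
        rw [eq_empty_iff_forall_notMem]
        intro y hy
        rw [mem_badT] at hy
        exact absurd (hy.1 0) (notMem_empty _)
      rw [this]
      simp
  · have hsub : V.filter (fun v => ((univ.filter (fun j : Fin m =>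
        v ∈ (if κ * n ≤ ((A j).card : ℝ) then A j else ∅))).card : ℝ) < (a - ε) * m) ⊆ E ∪ F := by
      intro v hv
      obtain ⟨hvV, hv2⟩ := mem_filter.1 hv
      by_contra hno
      rw [mem_union, not_or] at hno
      have h1 : (a - 2 * ε₀) * m ≤ (cnt A m v : ℝ) := by
        by_contra h
        exact hno.1 (mem_filter.2 ⟨hvV, not_le.1 h⟩)
      have h2 : (cs v : ℝ) < ε / 2 * m := by
        by_contra h
        exact hno.2 (mem_filter.2 ⟨hvV, not_lt.1 h⟩)
      have h3 : cnt A m v ≤ (univ.filter (fun j : Fin m =>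
        v ∈ (if κ * n ≤ ((A j).card : ℝ) then A j else ∅))).card + cs v := by
        have e1 : (univ.filter (fun j : Fin m =>
            v ∈ (if κ * n ≤ ((A j).card : ℝ) then A j else ∅))).card =
            ((range m).filter (fun i => v ∈ A i ∧ κ * n ≤ ((A i).card : ℝ))).card := by
          rw [← card_image_of_injective (univ.filter (fun j : Fin m =>
            v ∈ (if κ * n ≤ ((A j).card : ℝ) then A j else ∅))) Fin.val_injective]
          congr 1
          ext i
          simp only [mem_image, mem_filter, mem_univ, true_and, mem_range]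
          constructor
          · rintro ⟨j, hj, rfl⟩
            refine ⟨j.2, ?_⟩
            split_ifs at hj with h
            · exact ⟨hj, h⟩
            · exact absurd hj (notMem_empty _)
          · rintro ⟨hi, h4, h5⟩
            exact ⟨⟨i, hi⟩, by simp only [if_pos h5]; exact h4, rfl⟩
        rw [e1]
        simp only [hcs]
        unfold cnt
        refine le_trans (card_le_card ?_) (card_union_le _ _)
        intro i hi
        rw [mem_filter] at hi
        obtain ⟨h4, h5⟩ := hi
        rw [mem_union, mem_filter, mem_filter]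
        rcases le_or_gt (κ * n) ((A i).card : ℝ) with h6 | h6
        · exact Or.inl ⟨h4, h5, h6⟩
        · exact Or.inr ⟨h4, h5, h6⟩
      have h4 : (cnt A m v : ℝ) ≤ ((univ.filter (fun j : Fin m =>
        v ∈ (if κ * n ≤ ((A j).card : ℝ) then A j else ∅))).card : ℝ) + cs v := by
        exact_mod_cast h3
      have h5 : (a - 2 * ε₀) * m = (a - ε) * m + ε / 2 * m := by rw [hε₀]; ring
      linarith
    have h1 := (card_le_card hsub).trans (card_union_le _ _)
    have h2 : ((V.filter (fun v => ((univ.filter (fun j : Fin m =>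
        v ∈ (if κ * n ≤ ((A j).card : ℝ) then A j else ∅))).card : ℝ) < (a - ε) * m)).card : ℝ) ≤
        (E.card : ℝ) + F.card := by exact_mod_cast h1
    linarith

end Pool.Agent.N646.AC
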