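import Mathlib
import Pool.Agent.N646.AC.Cov
import Pool.Agent.Y827.HD.Her

/-!
Linear forms: every large set of linear forms without small local obstructions is covered almost
uniformly by boundedly many almost complete sets, i.e. sets almost all of whose tuples satisfy
Dickson's conjecture.
-/

set_option autoImplicit false

namespace Pool.Agent.N646.AC

open Finset Filter Topology
open Pool.Agent.Y827.LS
open Pool.Agent.Y827.GS
open Pool.Agent.Y827.RO
open Pool.Agent.Y827.HD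

/-- all patterns of prime and composite values occur at least `N / (log N) ^ C` times up to `N` -/
def AllP {k : ℕ} (C N : ℕ) (f : Fin (k + 1) → ℤ × ℤ) : Prop :=
  ∀ J : Finset (Fin (k + 1)), (N : ℝ) / (Real.log N) ^ C ≤ (pat f J N : ℝ)

open Classical in
/-- the exceptional tuples of distinct elements of `U` -/
noncomputable def exc {k : ℕ} (U : Finset (ℤ × ℤ)) (P : (Fin (k + 1) → ℤ × ℤ) → Prop) :
    Finset (Fin (k + 1) → ℤ × ℤ) :=
  (Fintype.piFinset (fun _ : Fin (k + 1) => U)).filter (fun f => Function.Injective f ∧ ¬ P f)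

theorem mem_exc {k : ℕ} {U : Finset (ℤ × ℤ)} {P : (Fin (k + 1) → ℤ × ℤ) → Prop}
    {f : Fin (k + 1) → ℤ × ℤ} : f ∈ exc U P ↔ (∀ i, f i ∈ U) ∧ Function.Injective f ∧ ¬ P f := by
  classical
  unfold exc
  rw [mem_filter, Fintype.mem_piFinset]

/-- the elements of `V` in fewer than `s m` of the sets `U j` -/
noncomputable def rare {m : ℕ} (V : Finset (ℤ × ℤ)) (U : Fin m → Finset (ℤ × ℤ)) (s : ℝ) :
    Finset (ℤ × ℤ) :=
  V.filter (fun v => ((univ.filter (fun j => v ∈ U j)).card : ℝ) < s * m)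

open Classical in
/-- **the uniform version** -/
theorem covU (k : ℕ) (ε : ℝ) (hε : 0 < ε) : ∃ z n₀ C m : ℕ, 1 ≤ m ∧ ∀ A : ℕ,
    ∀ᶠ N : ℕ in atTop, ∀ V : Finset (ℤ × ℤ), (∀ f ∈ V, Adf A N f) → AdmF z V → n₀ ≤ V.card →
    ∃ U : Fin m → Finset (ℤ × ℤ),
      (∀ j, U j ⊆ V ∧ ((exc (k := k) (U j) (AllP C N)).card : ℝ) ≤
        ε * ((U j).card : ℝ) ^ (k + 1)) ∧
      ((rare V U (5 / 18 - ε)).card : ℝ) ≤ ε * V.card := by
  choose Kf hKf1 hKf using lamRD
  obtain ⟨m, M, n₀, κ, hm, hκ, hcov⟩ := cover (lam := 18 / 5) (by norm_num) k (ε / 2)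
    (by linarith) Kf
  set C : ℕ := ∑ T' ∈ range (M + 1), (T' * Kf T' + 2) with hCdef
  obtain ⟨K, hK⟩ := few C (1 / (2 * ((k : ℝ) + 1))) (by positivity)
  obtain ⟨n₁, hn₁⟩ : ∃ n₁ : ℕ, 2 ^ (k + 1) * ((k : ℝ) + 1) * K / (ε / 2) / κ ≤ n₁ := exists_nat_ge _
  refine ⟨∑ T' ∈ range (M + 1), T' * Kf T', max n₀ n₁, C + 1, m, hm, fun A => ?_⟩
  have hev : ∀ᶠ N : ℕ in atTop, ∀ T' : Fin (M + 1), 1 ≤ (T' : ℕ) →
      ∀ H : Fin (T' : ℕ) → Fin (Kf T') → ℤ × ℤ,
      Function.Injective (fun z : Fin (T' : ℕ) × Fin (Kf T') => H z.1 z.2) →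
      (∀ g i, Adf A N (H g i)) →
      (∀ p : ℕ, p.Prime → p ≤ T' * Kf T' → ∃ r : ℤ, ∀ g i,
        ¬ (p : ℤ) ∣ (H g i).1 * r + (H g i).2) →
      ∃ (S : Finset (Fin (T' : ℕ))) (cc : Fin (T' : ℕ) → Fin (Kf T')),
        ((T' : ℕ) : ℝ) ≤ (18 / 5) * (S.card : ℝ) ∧
        (N : ℝ) / (Real.log N) ^ (T' * Kf T' + 2) ≤
          (cntN (S.image (fun g => H g (cc g))) N : ℝ) := by
    rw [eventually_all]
    intro T'
    by_cases h0 : 1 ≤ (T' : ℕ)
    swap
    · exact Eventually.of_forall fun x h => absurd h h0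
    filter_upwards [hKf T' h0 A] with N hN _ H hinj hAd hadm
    exact hN H hinj hAd hadm
  have tL : Tendsto (fun N : ℕ => Real.log (N : ℝ)) atTop atTop :=
    Real.tendsto_log_atTop.comp tendsto_natCast_atTop_atTop
  filter_upwards [hev, hK A, tL.eventually_ge_atTop 2, eventually_ge_atTop 3] with
    N hN hKN hlog hN3 V hVA hVadm hVn
  have hL1 := log_ge_one hN3
  obtain ⟨U, hU1, hU2⟩ := hcov (ℤ × ℤ) V
    (fun F => (N : ℝ) / (Real.log N) ^ C ≤ (cntN F N : ℝ)) ((le_max_left _ _).trans hVn)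
    (fun F F' hF h => h.trans (by exact_mod_cast cntN_anti hF N)) (by
      intro T' hT'1 hT'M H hHV hHinj
      have hadm : ∀ p : ℕ, p.Prime → p ≤ T' * Kf T' → ∃ r : ℤ, ∀ g i,
          ¬ (p : ℤ) ∣ (H g i).1 * r + (H g i).2 := by
        intro p hp hpT
        obtain ⟨r, hr⟩ := hVadm p (hpT.trans
          (Finset.single_le_sum (f := fun T' => T' * Kf T') (fun _ _ => Nat.zero_le _)
                (mem_range.2 (by omega)))) hp
        exact ⟨r, fun g i => hr _ (hHV g i)⟩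
      obtain ⟨S, cc, hS, hcc⟩ := hN ⟨T', by omega⟩ hT'1 H hHinj (fun g i => hVA _ (hHV g i)) hadm
      refine ⟨S, cc, hS, le_trans ?_ hcc⟩
      refine div_le_div_of_nonneg_left (Nat.cast_nonneg _) (by positivity)
        (pow_le_pow_right₀ hL1 ?_)
      exact single_le_sum (f := fun T' => T' * Kf T' + 2) (fun _ _ => Nat.zero_le _)
        (mem_range.2 (by omega)))
  refine ⟨U, fun j => ⟨(hU1 j).1, ?_⟩, ?_⟩
  · obtain ⟨hUV, hUs, hUb⟩ := hU1 j
    rcases hUs with h0 | h0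
    · have : exc (k := k) (U j) (AllP (C + 1) N) = ∅ := by
        rw [eq_empty_iff_forall_notMem]
        intro f hf
        rw [mem_exc, h0] at hf
        exact absurd (hf.1 0) (notMem_empty _)
      rw [this, card_empty, Nat.cast_zero]
      positivity
    have hsub : exc (k := k) (U j) (AllP (C + 1) N) ⊆
        badT k (U j) (fun F => (N : ℝ) / (Real.log N) ^ C ≤ (cntN F N : ℝ)) ∪
        ((univ : Finset (Finset (Fin (k + 1)) × Fin (k + 1))).filter (fun x => x.2 ∉ x.1)).biUnion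
          (fun x => BJ k (U j) C N x.1 x.2) := by
      intro f hf
      rw [mem_exc] at hf
      obtain ⟨g1, g2, g3⟩ := hf
      rw [mem_union, mem_biUnion]
      by_cases hG : (N : ℝ) / (Real.log N) ^ C ≤ (cntN (univ.image f) N : ℝ)
      swap
      · exact Or.inl (mem_badT.2 ⟨g1, g2, hG⟩)
      by_cases hc : ∃ J : Finset (Fin (k + 1)), ∃ i ∉ J, Att f J i N
      · obtain ⟨J, i, hi, hA⟩ := hc
        refine Or.inr ⟨(J, i), mem_filter.2 ⟨mem_univ _, hi⟩, ?_⟩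
        unfold BJ
        refine mem_filter.2 ⟨Fintype.mem_piFinset.2 g1, hG.trans ?_, hA⟩
        rw [Nat.cast_le]
        unfold cntN SJ
        apply card_le_card
        intro n hn
        rw [mem_filter] at hn ⊢
        exact ⟨hn.1, fun i _ => hn.2 (f i) (mem_image_of_mem f (mem_univ i))⟩
      · push Not at hc
        exact absurd (fun J => pat_ge hlog hG hc J) g3
    have h2 : ((exc (k := k) (U j) (AllP (C + 1) N)).card : ℝ) ≤
        ((badT k (U j) (fun F => (N : ℝ) / (Real.log N) ^ C ≤ (cntN F N : ℝ))).card : ℝ) +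
        2 ^ (k + 1) * ((k : ℝ) + 1) * (K * ((U j).card : ℝ) ^ k) := by
      have h3 := (card_le_card hsub).trans
        ((card_union_le _ _).trans (add_le_add le_rfl card_biUnion_le))
      have h4 : ∑ x ∈ (univ : Finset (Finset (Fin (k + 1)) × Fin (k + 1))).filter
          (fun x => x.2 ∉ x.1), (BJ k (U j) C N x.1 x.2).card ≤
            2 ^ (k + 1) * (k + 1) * (K * (U j).card ^ k) := by
        refine (sum_le_sum (g := fun _ => K * (U j).card ^ k) fun x hx =>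
          BJ_card x.1 x.2 (mem_filter.1 hx).2 (hKN (U j) (fun f hf => hVA f (hUV hf)))).trans ?_
        rw [sum_const, smul_eq_mul]
        apply Nat.mul_le_mul_right
        refine (card_filter_le _ _).trans (le_of_eq ?_)
        rw [card_univ, Fintype.card_prod, Fintype.card_finset, Fintype.card_fin]
      have h5 := h3.trans (add_le_add le_rfl h4)
      exact_mod_cast h5
    have hVn1 : 2 ^ (k + 1) * ((k : ℝ) + 1) * K ≤ (U j).card * (ε / 2) := by
      have h3 : 2 ^ (k + 1) * ((k : ℝ) + 1) * K / (ε / 2) / κ ≤ V.card :=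
        hn₁.trans (by exact_mod_cast (le_max_right _ _).trans hVn)
      rw [div_le_iff₀ hκ, div_le_iff₀ (by linarith)] at h3
      calc 2 ^ (k + 1) * ((k : ℝ) + 1) * K ≤ V.card * κ * (ε / 2) := h3
        _ ≤ (U j).card * (ε / 2) := by
            apply mul_le_mul_of_nonneg_right _ (by linarith)
            linarith
    have h6 : 2 ^ (k + 1) * ((k : ℝ) + 1) * (K * ((U j).card : ℝ) ^ k) ≤
        ε / 2 * ((U j).card : ℝ) ^ (k + 1) := by
      calc 2 ^ (k + 1) * ((k : ℝ) + 1) * (K * ((U j).card : ℝ) ^ k)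
          = (2 ^ (k + 1) * ((k : ℝ) + 1) * K) * ((U j).card : ℝ) ^ k := by ring
        _ ≤ ((U j).card * (ε / 2)) * ((U j).card : ℝ) ^ k := by gcongr
        _ = ε / 2 * ((U j).card : ℝ) ^ (k + 1) := by ring
    calc ((exc (k := k) (U j) (AllP (C + 1) N)).card : ℝ) ≤ _ := h2
      _ ≤ ε / 2 * ((U j).card : ℝ) ^ (k + 1) + ε / 2 * ((U j).card : ℝ) ^ (k + 1) :=
          add_le_add hUb h6
      _ = ε * ((U j).card : ℝ) ^ (k + 1) := by ring
  · have hsub : rare V U (5 / 18 - ε) ⊆ V.filter (fun v =>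
        ((univ.filter (fun j => v ∈ U j)).card : ℝ) < (1 / (18 / 5) - ε / 2) * m) := by
      intro v hv
      unfold rare at hv
      rw [mem_filter] at hv ⊢
      refine ⟨hv.1, hv.2.trans_le ?_⟩
      apply mul_le_mul_of_nonneg_right _ (Nat.cast_nonneg _)
      have : (1 : ℝ) / (18 / 5) = 5 / 18 := by norm_num
      rw [this]; linarith
    have h1 : ((rare V U (5 / 18 - ε)).card : ℝ) ≤ ((V.filter (fun v =>
        ((univ.filter (fun j => v ∈ U j)).card : ℝ) < (1 / (18 / 5) - ε / 2) * m)).card : ℝ) := by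
      exact_mod_cast card_le_card hsub
    refine h1.trans (hU2.trans ?_)
    apply mul_le_mul_of_nonneg_right _ (Nat.cast_nonneg _)
    linarith

/-- pigeonhole -/
theorem freq_finset {β : Type} (s : Finset β) (Q : β → ℕ → Prop)
    (h : ∀ᶠ N : ℕ in atTop, ∃ p ∈ s, Q p N) : ∃ p ∈ s, ∃ᶠ N : ℕ in atTop, Q p N := by
  by_contra hcon
  push Not at hcon
  have h1 : ∀ᶠ N : ℕ in atTop, ∀ p ∈ s, ¬ Q p N := by
    rw [Filter.eventually_all_finset]
    intro p hp
    exact hcon p hp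
  obtain ⟨N, ⟨p, hp, hQ⟩, hN⟩ := (h.and h1).exists
  exact hN p hp hQ

open Classical in
/-- **one family of tuples** -/
theorem covF (k : ℕ) (ε : ℝ) (hε : 0 < ε) : ∃ z n₀ C m : ℕ, 1 ≤ m ∧
    (∀ V : Finset (ℤ × ℤ), (∀ f ∈ V, 0 < f.1 ∧ IsCoprime f.1 f.2) → AdmF z V → n₀ ≤ V.card →
      ∃ (U : Fin m → Finset (ℤ × ℤ)) (G : Finset (Fin (k + 1) → ℤ × ℤ)),
        (∀ j, U j ⊆ V ∧ ((exc (U j) (fun f => f ∈ G)).card : ℝ) ≤
          ε * ((U j).card : ℝ) ^ (k + 1)) ∧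
        ((rare V U (5 / 18 - ε)).card : ℝ) ≤ ε * V.card ∧
        ∃ᶠ N : ℕ in atTop, ∀ f ∈ G, AllP C N f) ∧
    (∀ A : ℕ, ∀ᶠ N : ℕ in atTop, ∀ V : Finset (ℤ × ℤ), (∀ f ∈ V, Adf A N f) → AdmF z V →
      n₀ ≤ V.card → ∃ U : Fin m → Finset (ℤ × ℤ),
      (∀ j, U j ⊆ V ∧ ((exc (k := k) (U j) (AllP C N)).card : ℝ) ≤
        ε * ((U j).card : ℝ) ^ (k + 1)) ∧
      ((rare V U (5 / 18 - ε)).card : ℝ) ≤ ε * V.card) := by
  obtain ⟨z, n₀, C, m, hm, h⟩ := covU k ε hε
  refine ⟨z, n₀, C, m, hm, ?_, h⟩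
  intro V hV hadm hn
  obtain ⟨A, hA⟩ := adf_ev V hV
  have hev : ∀ᶠ N : ℕ in atTop, ∃ p ∈ (Fintype.piFinset (fun _ : Fin m => V.powerset)) ×ˢ
      (Fintype.piFinset (fun _ : Fin (k + 1) => V)).powerset,
      ((∀ j, ((exc (p.1 j) (fun f => f ∈ p.2)).card : ℝ) ≤ ε * ((p.1 j).card : ℝ) ^ (k + 1)) ∧
        ((rare V p.1 (5 / 18 - ε)).card : ℝ) ≤ ε * V.card ∧ ∀ f ∈ p.2, AllP C N f) := by
    filter_upwards [h A, hA] with N hN hNA
    obtain ⟨U, hU1, hU2⟩ := hN V hNA hadm hn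
    refine ⟨(U, (Fintype.piFinset (fun _ : Fin (k + 1) => V)).filter (AllP C N)), ?_, ?_, hU2,
      fun f hf => (mem_filter.1 hf).2⟩
    · rw [mem_product, Fintype.mem_piFinset]
      refine ⟨fun j => mem_powerset.2 (hU1 j).1, ?_⟩
      rw [mem_powerset]
      exact filter_subset _ _
    · intro j
      refine le_trans ?_ (hU1 j).2
      rw [Nat.cast_le]
      apply card_le_card
      intro f hf
      rw [mem_exc] at hf ⊢
      refine ⟨hf.1, hf.2.1, fun hP => hf.2.2 ?_⟩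
      exact mem_filter.2 ⟨Fintype.mem_piFinset.2 fun i => (hU1 j).1 (hf.1 i), hP⟩
  obtain ⟨p, hp, hfr⟩ := freq_finset _ _ hev
  rw [mem_product, Fintype.mem_piFinset] at hp
  obtain ⟨N₀, hN₀⟩ := hfr.exists
  refine ⟨p.1, p.2, fun j => ⟨mem_powerset.1 (hp.1 j), hN₀.1 j⟩, hN₀.2.1, ?_⟩
  exact hfr.mono fun N hN => hN.2.2

end Pool.Agent.N646.AC
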