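import Mathlib
import Pool.Agent.N646.AC.Fou

/-! Bohr sets in a finite abelian group. -/

set_option autoImplicit false

namespace Pool.Agent.N646.AC

open Finset ComplexConjugate

section
variable {G : Type} [AddCommGroup G] [Fintype G]

open Classical in
/-- Bohr sets -/
noncomputable def bohr (Γ : Finset (AddChar G ℂ)) (ρ : ℝ) : Finset G :=
  univ.filter (fun h => ∀ ψ ∈ Γ, ‖ψ h - 1‖ ≤ ρ)

theorem mem_bohr {Γ : Finset (AddChar G ℂ)} {ρ : ℝ} {h : G} :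
    h ∈ bohr Γ ρ ↔ ∀ ψ ∈ Γ, ‖ψ h - 1‖ ≤ ρ := by
  classical
  unfold bohr
  simp

theorem bohr_mono {Γ : Finset (AddChar G ℂ)} {ρ ρ' : ℝ} (h : ρ ≤ ρ') : bohr Γ ρ ⊆ bohr Γ ρ' := by
  intro x hx
  rw [mem_bohr] at hx ⊢
  exact fun ψ hψ => (hx ψ hψ).trans h

theorem zero_mem_bohr (Γ : Finset (AddChar G ℂ)) {ρ : ℝ} (h : 0 ≤ ρ) : (0 : G) ∈ bohr Γ ρ := by
  rw [mem_bohr]
  intro ψ _
  simpa using h

theorem neg_mem_bohr {Γ : Finset (AddChar G ℂ)} {ρ : ℝ} {x : G} (h : x ∈ bohr Γ ρ) :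
    -x ∈ bohr Γ ρ := by
  rw [mem_bohr] at h ⊢
  intro ψ hψ
  have h1 := h ψ hψ
  rw [AddChar.map_neg_eq_conj]
  have e : conj (ψ x) - 1 = conj (ψ x - 1) := by simp
  rw [e, Complex.norm_conj]
  exact h1

theorem add_mem_bohr {Γ : Finset (AddChar G ℂ)} {ρ ρ' : ℝ} {x y : G} (h : x ∈ bohr Γ ρ)
    (h' : y ∈ bohr Γ ρ') : x + y ∈ bohr Γ (ρ + ρ') := by
  rw [mem_bohr] at h h' ⊢
  intro ψ hψ
  rw [AddChar.map_add_eq_mul]
  have e : ψ x * ψ y - 1 = ψ x * (ψ y - 1) + (ψ x - 1) := by ring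
  rw [e]
  refine (norm_add_le _ _).trans ?_
  rw [norm_mul, AddChar.norm_apply, one_mul]
  linarith [h ψ hψ, h' ψ hψ]

end

open Classical in
theorem bohr_card (d : ℕ) (ρ : ℝ) (hρ : 0 < ρ) : ∃ c : ℝ, 0 < c ∧ c ≤ 1 ∧ ∀ (G : Type)
    [AddCommGroup G] [Fintype G] (Γ : Finset (AddChar G ℂ)), Γ.card ≤ d →
    c * (Fintype.card G : ℝ) ≤ ((bohr Γ ρ).card : ℝ) := by
  obtain ⟨L, hL⟩ := exists_nat_ge (2 / ρ)
  set L' : ℕ := L + 1 with hL'
  have hL'0 : (0 : ℝ) < L' := by rw [hL']; positivity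
  have hLρ : 2 / (L' : ℝ) ≤ ρ := by
    rw [div_le_iff₀ hρ] at hL
    rw [div_le_iff₀ hL'0, hL']
    push_cast
    nlinarith
  set K : ℕ := (2 * L' + 1) ^ 2 with hK
  have hK1 : 1 ≤ K := Nat.one_le_iff_ne_zero.2 (by positivity)
  refine ⟨1 / (K : ℝ) ^ d, by positivity, ?_, ?_⟩
  · rw [div_le_one (by positivity)]
    exact one_le_pow₀ (by exact_mod_cast hK1)
  intro G _ _ Γ hΓ
  have hG : 0 < Fintype.card G := Fintype.card_pos_iff.2 ⟨0⟩
  set cell : ℂ → ℤ × ℤ := fun z => (⌊(L' : ℝ) * z.re⌋, ⌊(L' : ℝ) * z.im⌋) with hcell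
  set box : Finset (ℤ × ℤ) := Icc (-(L' : ℤ)) L' ×ˢ Icc (-(L' : ℤ)) L' with hbox
  have hboxc : box.card = K := by
    rw [hbox, card_product, Int.card_Icc]
    have : ((L' : ℤ) + 1 - -(L' : ℤ)).toNat = 2 * L' + 1 := by omega
    rw [this, hK]; ring
  set t : Finset (Γ → ℤ × ℤ) := Fintype.piFinset (fun _ => box) with ht
  have htc : t.card = K ^ Γ.card := by
    rw [ht, Fintype.card_piFinset, prod_const, hboxc, card_univ, Fintype.card_coe]
  set F : G → (Γ → ℤ × ℤ) := fun x ψ => cell ((ψ : AddChar G ℂ) x) with hF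
  have hmem : ∀ z : ℂ, ‖z‖ = 1 → cell z ∈ box := by
    intro z hz
    have h1 := Complex.abs_re_le_norm z
    have h2 := Complex.abs_im_le_norm z
    rw [hz] at h1 h2
    rw [abs_le] at h1 h2
    rw [hbox, hcell]
    simp only [mem_product, mem_Icc]
    refine ⟨⟨?_, ?_⟩, ?_, ?_⟩
    · rw [Int.le_floor]; push_cast; nlinarith [h1.1]
    · have : (⌊(L' : ℝ) * z.re⌋ : ℝ) ≤ L' := (Int.floor_le _).trans (by nlinarith [h1.2])
      exact_mod_cast this
    · rw [Int.le_floor]; push_cast; nlinarith [h2.1]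
    · have : (⌊(L' : ℝ) * z.im⌋ : ℝ) ≤ L' := (Int.floor_le _).trans (by nlinarith [h2.2])
      exact_mod_cast this
  have hmaps : ∀ x ∈ (univ : Finset G), F x ∈ t := by
    intro x _
    rw [ht, Fintype.mem_piFinset]
    intro ψ
    exact hmem _ (AddChar.norm_apply _ _)
  have hne : t.Nonempty := ⟨F 0, hmaps 0 (mem_univ _)⟩
  have htp : (0 : ℝ) < t.card := by exact_mod_cast card_pos.2 hne
  obtain ⟨y, hy, hyc⟩ := Finset.exists_le_card_fiber_of_nsmul_le_card_of_maps_to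
    (s := (univ : Finset G)) (t := t) (f := F) hmaps hne
    (b := (Fintype.card G : ℝ) / t.card) (by
      rw [nsmul_eq_mul, card_univ]
      rw [mul_div_cancel₀ _ htp.ne'])
  have hfib : (univ.filter (fun x => F x = y)).Nonempty := by
    rw [← card_pos]
    have : (0 : ℝ) < ((univ.filter (fun x => F x = y)).card : ℝ) :=
      lt_of_lt_of_le (by positivity) hyc
    exact_mod_cast this
  obtain ⟨x₀, hx₀⟩ := hfib
  have hx₀' : F x₀ = y := (mem_filter.1 hx₀).2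
  have hsub : (univ.filter (fun x => F x = y)).card ≤ (bohr Γ ρ).card := by
    apply card_le_card_of_injOn (fun x => x - x₀)
    · intro x hx
      have hx' : F x = F x₀ := ((mem_filter.1 hx).2).trans hx₀'.symm
      rw [mem_coe, mem_bohr]
      intro ψ hψ
      have h1 := congrFun hx' ⟨ψ, hψ⟩
      simp only [hF, hcell, Prod.mk.injEq] at h1
      obtain ⟨h2, h3⟩ := h1
      have key : ∀ a b : ℝ, ⌊(L' : ℝ) * a⌋ = ⌊(L' : ℝ) * b⌋ → |a - b| ≤ 1 / L' := by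
        intro a b hab
        have h4 := Int.abs_sub_lt_one_of_floor_eq_floor hab
        rw [← mul_sub, abs_mul, abs_of_pos hL'0] at h4
        rw [le_div_iff₀ hL'0]
        linarith
      have h4 := key _ _ h2
      have h5 := key _ _ h3
      have e : ψ (x - x₀) - 1 = (ψ x - ψ x₀) * conj (ψ x₀) := by
        rw [sub_eq_add_neg x, AddChar.map_add_eq_mul, AddChar.map_neg_eq_conj, sub_mul,
          Complex.mul_conj', AddChar.norm_apply]
        simp
      rw [e, norm_mul, Complex.norm_conj, AddChar.norm_apply, mul_one]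
      refine (Complex.norm_le_abs_re_add_abs_im _).trans ?_
      rw [Complex.sub_re, Complex.sub_im]
      have : 1 / (L' : ℝ) + 1 / L' = 2 / L' := by ring
      linarith
    · intro x _ x' _ h
      exact sub_left_injective h
  have h1 : 1 / (K : ℝ) ^ d * (Fintype.card G : ℝ) ≤ (Fintype.card G : ℝ) / t.card := by
    rw [htc]
    push_cast
    rw [one_div, inv_mul_eq_div]
    apply div_le_div_of_nonneg_left (Nat.cast_nonneg _) (by positivity)
    exact pow_le_pow_right₀ (by exact_mod_cast hK1) hΓ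
  refine h1.trans (hyc.trans ?_)
  exact_mod_cast hsub

/-- a regular radius -/
theorem regular (d : ℕ) (ρ : ℝ) (hρ : 0 < ρ) (δ : ℝ) (hδ : 0 < δ) : ∃ m : ℕ, 1 ≤ m ∧ ∀ (G : Type)
    [AddCommGroup G] [Fintype G] (Γ : Finset (AddChar G ℂ)), Γ.card ≤ d →
    ∃ r : ℝ, ρ ≤ r ∧ r ≤ 2 * ρ ∧
      ((bohr Γ (r + ρ / m)).card : ℝ) ≤ (1 + δ) * ((bohr Γ r).card : ℝ) := by
  obtain ⟨c, hc, hc1, hcard⟩ := bohr_card d ρ hρ
  obtain ⟨m, hm⟩ := pow_unbounded_of_one_lt (1 / c) (by linarith : 1 < 1 + δ)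
  refine ⟨m + 1, by omega, ?_⟩
  intro G _ _ Γ hΓ
  by_contra hcon
  push Not at hcon
  have hG : (0 : ℝ) < Fintype.card G := by
    exact_mod_cast Fintype.card_pos_iff.2 ⟨(0 : G)⟩
  have hm0 : (0 : ℝ) < ((m + 1 : ℕ) : ℝ) := by positivity
  have key : ∀ i : ℕ, i ≤ m + 1 → (1 + δ) ^ i * ((bohr Γ ρ).card : ℝ) ≤
      ((bohr Γ (ρ + i * (ρ / (m + 1 : ℕ)))).card : ℝ) := by
    intro i
    induction i with
    | zero => intro _; simp
    | succ i ih =>
      intro hi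
      have h1 := ih (by omega)
      have hi' : (i : ℝ) ≤ ((m + 1 : ℕ) : ℝ) := by exact_mod_cast (by omega : i ≤ m + 1)
      have h2 := hcon (ρ + i * (ρ / (m + 1 : ℕ))) (by
        have : 0 ≤ (i : ℝ) * (ρ / (m + 1 : ℕ)) := by positivity
        linarith) (by
        have : (i : ℝ) * (ρ / (m + 1 : ℕ)) ≤ ρ := by
          calc (i : ℝ) * (ρ / (m + 1 : ℕ)) ≤ ((m + 1 : ℕ) : ℝ) * (ρ / (m + 1 : ℕ)) :=
                mul_le_mul_of_nonneg_right hi' (by positivity)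
            _ = ρ := by field_simp
        linarith)
      have e : ρ + ((i + 1 : ℕ) : ℝ) * (ρ / (m + 1 : ℕ)) =
          ρ + i * (ρ / (m + 1 : ℕ)) + ρ / (m + 1 : ℕ) := by push_cast; ring
      rw [e]
      refine le_trans ?_ h2.le
      rw [pow_succ]
      calc (1 + δ) ^ i * (1 + δ) * ((bohr Γ ρ).card : ℝ) =
          (1 + δ) * ((1 + δ) ^ i * ((bohr Γ ρ).card : ℝ)) := by ring
        _ ≤ _ := mul_le_mul_of_nonneg_left h1 (by linarith)
  have h1 := key (m + 1) le_rfl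
  have h2 := hcard G Γ hΓ
  have h3 : ((bohr Γ (ρ + ((m + 1 : ℕ) : ℝ) * (ρ / (m + 1 : ℕ)))).card : ℝ) ≤ Fintype.card G := by
    exact_mod_cast card_le_univ _
  have h4 : 1 / c < (1 + δ) ^ (m + 1) := by
    rw [pow_succ]
    have : 0 < (1 + δ) ^ m := by positivity
    nlinarith
  have h5 : (Fintype.card G : ℝ) < (1 + δ) ^ (m + 1) * (c * Fintype.card G) := by
    rw [div_lt_iff₀ hc] at h4
    calc (Fintype.card G : ℝ) = 1 * Fintype.card G := by ring
      _ < ((1 + δ) ^ (m + 1) * c) * Fintype.card G := mul_lt_mul_of_pos_right h4 hG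
      _ = _ := by ring
  have h6 : (1 + δ) ^ (m + 1) * (c * Fintype.card G) ≤ (1 + δ) ^ (m + 1) * ((bohr Γ ρ).card : ℝ) :=
    mul_le_mul_of_nonneg_left h2 (by positivity)
  linarith

end Pool.Agent.N646.AC
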