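import Mathlib
import Pool.Agent.N646.AC.Bohr
import Pool.Agent.N646.AC.Samp

/-! Popular returns of a dense set to almost all vectors in a Bohr set. -/

set_option autoImplicit false

namespace Pool.Agent.N646.AC

open Finset ComplexConjugate

section
variable {G : Type} [AddCommGroup G] [Fintype G] [DecidableEq G]

/-- indicator -/
def ind (A : Finset G) (x : G) : ℝ := if x ∈ A then 1 else 0

theorem ind_nonneg (A : Finset G) (x : G) : 0 ≤ ind A x := by unfold ind; split_ifs <;> norm_num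
theorem ind_le_one (A : Finset G) (x : G) : ind A x ≤ 1 := by unfold ind; split_ifs <;> norm_num

/-- the average over `x + B` -/
noncomputable def av (A B : Finset G) (x : G) : ℝ := (B.card : ℝ)⁻¹ * ∑ b ∈ B, ind A (x + b)

theorem av_nonneg (A B : Finset G) (x : G) : 0 ≤ av A B x :=
  mul_nonneg (by positivity) (sum_nonneg fun _ _ => ind_nonneg _ _)

theorem av_le_one (A B : Finset G) (x : G) : av A B x ≤ 1 := by
  unfold av
  rcases B.eq_empty_or_nonempty with rfl | hB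
  · simp
  · have h0 : (0 : ℝ) < B.card := by exact_mod_cast card_pos.2 hB
    rw [inv_mul_le_iff₀ h0, mul_one]
    calc ∑ b ∈ B, ind A (x + b) ≤ ∑ _b ∈ B, (1 : ℝ) := sum_le_sum fun _ _ => ind_le_one _ _
      _ = B.card := by simp

theorem av_shift_le (A : Finset G) {B B₁ : Finset G} {δ : ℝ} (hB : B.Nonempty) (hsub : B ⊆ B₁)
    (hc : (B₁.card : ℝ) ≤ (1 + δ) * B.card) {v : G} (hv : ∀ b ∈ B, v + b ∈ B₁) (x : G) :
    av A B (x + v) ≤ av A B x + δ := by
  have h0 : (0 : ℝ) < B.card := by exact_mod_cast card_pos.2 hB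
  have h1 : ∑ b ∈ B, ind A (x + v + b) ≤ ∑ b ∈ B₁, ind A (x + b) := by
    have e : ∑ b ∈ B, ind A (x + v + b) = ∑ b ∈ B.image (fun b => v + b), ind A (x + b) := by
      rw [sum_image (fun a _ b _ h => add_left_cancel h)]
      refine sum_congr rfl fun b _ => ?_
      rw [add_assoc]
    rw [e]
    apply sum_le_sum_of_subset_of_nonneg
    · intro c hc'
      obtain ⟨b, hb, rfl⟩ := mem_image.1 hc'
      exact hv b hb
    · intro _ _ _; exact ind_nonneg _ _
  have h2 : ∑ b ∈ B₁, ind A (x + b) ≤ ∑ b ∈ B, ind A (x + b) + δ * B.card := by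
    rw [← sum_sdiff hsub]
    have h3 : ∑ b ∈ B₁ \ B, ind A (x + b) ≤ ((B₁ \ B).card : ℝ) := by
      calc ∑ b ∈ B₁ \ B, ind A (x + b) ≤ ∑ _b ∈ B₁ \ B, (1 : ℝ) :=
            sum_le_sum fun _ _ => ind_le_one _ _
        _ = _ := by simp
    have h4 : ((B₁ \ B).card : ℝ) + B.card = B₁.card := by
      exact_mod_cast card_sdiff_add_card_eq_card hsub
    linarith
  unfold av
  rw [inv_mul_le_iff₀ h0, mul_add, mul_inv_cancel_left₀ h0.ne']
  linarith

/-- the indicator as a complex function -/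
noncomputable def indC (A : Finset G) : G → ℂ := fun x => (ind A x : ℂ)

/-- the multiplier of the average -/
noncomputable def mult (B : Finset G) (ψ : AddChar G ℂ) : ℂ := (B.card : ℂ)⁻¹ * ∑ b ∈ B, ψ b

theorem fh_av (A B : Finset G) (ψ : AddChar G ℂ) :
    fh (fun x => (av A B x : ℂ)) ψ = fh (indC A) ψ * mult B ψ := by
  unfold fh mult
  have e1 : ∀ b : G, ∑ x, (ind A (x + b) : ℂ) * conj (ψ x) =
      ψ b * ∑ x, indC A x * conj (ψ x) := by
    intro b
    rw [mul_sum]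
    refine Fintype.sum_equiv (Equiv.addRight b) _ _ fun x => ?_
    simp only [Equiv.coe_addRight, indC]
    have : conj (ψ (x + b)) = conj (ψ x) * conj (ψ b) := by
      rw [AddChar.map_add_eq_mul, map_mul]
    rw [this]
    have h2 : ψ b * conj (ψ b) = 1 := by
      rw [Complex.mul_conj', AddChar.norm_apply]; simp
    calc (ind A (x + b) : ℂ) * conj (ψ x) = (ind A (x + b) : ℂ) * conj (ψ x) * (ψ b * conj (ψ b)) := by
          rw [h2, mul_one]
      _ = _ := by ring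
  have e2 : ∑ x, ((av A B x : ℝ) : ℂ) * conj (ψ x) =
      (B.card : ℂ)⁻¹ * ∑ b ∈ B, ∑ x, (ind A (x + b) : ℂ) * conj (ψ x) := by
    unfold av
    push_cast
    rw [sum_comm, mul_sum]
    refine sum_congr rfl fun x _ => ?_
    rw [mul_assoc, sum_mul]
  rw [e2]
  simp_rw [e1]
  rw [← sum_mul]
  ring

theorem mult_le (B : Finset G) (ψ : AddChar G ℂ) : ‖mult B ψ‖ ≤ 1 := by
  unfold mult
  rcases B.eq_empty_or_nonempty with rfl | hB
  · simp
  · have h0 : (0 : ℝ) < B.card := by exact_mod_cast card_pos.2 hB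
    rw [norm_mul, norm_inv, Complex.norm_natCast, inv_mul_le_iff₀ h0, mul_one]
    refine (norm_sum_le _ _).trans ?_
    simp [AddChar.norm_apply]

theorem mult_near {B : Finset G} (hB : B.Nonempty) {ψ : AddChar G ℂ} {r : ℝ}
    (h : ∀ b ∈ B, ‖ψ b - 1‖ ≤ r) : ‖1 - mult B ψ‖ ≤ r := by
  have h0 : (0 : ℝ) < B.card := by exact_mod_cast card_pos.2 hB
  have h0' : (B.card : ℂ) ≠ 0 := by exact_mod_cast (card_pos.2 hB).ne'
  have e : 1 - mult B ψ = -((B.card : ℂ)⁻¹ * ∑ b ∈ B, (ψ b - 1)) := by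
    unfold mult
    rw [sum_sub_distrib]
    simp
    field_simp
    ring
  rw [e, norm_neg, norm_mul, norm_inv, Complex.norm_natCast, inv_mul_le_iff₀ h0]
  refine (norm_sum_le _ _).trans ((sum_le_sum h).trans ?_)
  simp

/-- a trigonometric polynomial -/
noncomputable def tp (a : AddChar G ℂ → ℂ) (x : G) : ℂ := ∑ ψ : AddChar G ℂ, a ψ * ψ x

theorem tp_l1 (a : AddChar G ℂ → ℂ) (s : ℝ) (hs : 0 ≤ s) (h : ∑ ψ, ‖a ψ‖ ^ 2 ≤ s ^ 2) :
    ∑ x, ‖tp a x‖ ≤ (Fintype.card G : ℝ) * s := by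
  have h1 := sq_sum_le_card_mul_sum_sq (s := (univ : Finset G)) (f := fun x => ‖tp a x‖)
  rw [card_univ] at h1
  have h2 : ∑ x, ‖tp a x‖ ^ 2 = (Fintype.card G : ℝ) * ∑ ψ, ‖a ψ‖ ^ 2 := parseval1 a
  rw [h2] at h1
  have hG : (0 : ℝ) ≤ Fintype.card G := Nat.cast_nonneg _
  have h3 : (∑ x, ‖tp a x‖) ^ 2 ≤ ((Fintype.card G : ℝ) * s) ^ 2 := by
    calc (∑ x, ‖tp a x‖) ^ 2 ≤ _ := h1
      _ ≤ (Fintype.card G : ℝ) * (Fintype.card G * s ^ 2) := by gcongr
      _ = _ := by ring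
  exact (pow_le_pow_iff_left₀ (sum_nonneg fun _ _ => norm_nonneg _) (by positivity)
    two_ne_zero).1 h3

theorem tp_small (F : G → ℂ) (hF : ∀ x, ‖F x‖ ≤ 1) (a : AddChar G ℂ → ℂ) (s : ℝ) (hs : 0 ≤ s)
    (h : ∑ ψ, ‖a ψ‖ ^ 2 ≤ s ^ 2) (v : G) :
    ‖∑ x, F x * tp a (x + v)‖ ≤ (Fintype.card G : ℝ) * s := by
  refine (norm_sum_le _ _).trans ?_
  calc ∑ x, ‖F x * tp a (x + v)‖ ≤ ∑ x, ‖tp a (x + v)‖ := sum_le_sum fun x _ => by
        rw [norm_mul]
        have := hF x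
        have h0 := norm_nonneg (tp a (x + v))
        nlinarith
    _ = ∑ x, ‖tp a x‖ := Fintype.sum_equiv (Equiv.addRight v) _ _ fun x => rfl
    _ ≤ _ := tp_l1 a s hs h

theorem tp_corr (F : G → ℂ) (hF : ∀ x, ‖F x‖ ≤ 1) (a : AddChar G ℂ → ℂ) (η τ c : ℝ) (hη : 0 ≤ η)
    (hτ : 0 ≤ τ) (hc : 0 ≤ c) (ha : ∀ ψ, ‖a ψ‖ ≤ η) (B : Finset G)
    (hB : c * (Fintype.card G : ℝ) ≤ B.card) (hηc : η ^ 2 ≤ τ ^ 2 * c) :
    ∑ v ∈ B, ‖∑ x, F x * tp a (x + v)‖ ≤ τ * Fintype.card G * B.card := by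
  have h1 := sq_sum_le_card_mul_sum_sq (s := B) (f := fun v => ‖∑ x, F x * tp a (x + v)‖)
  have h2 : ∑ v ∈ B, ‖∑ x, F x * tp a (x + v)‖ ^ 2 ≤ (Fintype.card G : ℝ) ^ 3 * η ^ 2 := by
    refine le_trans ?_ (corr F a η hη ha hF)
    exact sum_le_sum_of_subset_of_nonneg (subset_univ _) fun _ _ _ => by positivity
  have hG : (0 : ℝ) ≤ Fintype.card G := Nat.cast_nonneg _
  have hBn : (0 : ℝ) ≤ B.card := Nat.cast_nonneg _
  have h3 : (∑ v ∈ B, ‖∑ x, F x * tp a (x + v)‖) ^ 2 ≤ (τ * Fintype.card G * B.card) ^ 2 := by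
    calc (∑ v ∈ B, ‖∑ x, F x * tp a (x + v)‖) ^ 2 ≤ _ := h1
      _ ≤ (B.card : ℝ) * ((Fintype.card G : ℝ) ^ 3 * η ^ 2) := mul_le_mul_of_nonneg_left h2 hBn
      _ ≤ (B.card : ℝ) * ((Fintype.card G : ℝ) ^ 3 * (τ ^ 2 * c)) := by gcongr
      _ = (B.card : ℝ) * (Fintype.card G : ℝ) ^ 2 * τ ^ 2 * (c * Fintype.card G) := by ring
      _ ≤ (B.card : ℝ) * (Fintype.card G : ℝ) ^ 2 * τ ^ 2 * B.card := by gcongr
      _ = _ := by ring
  exact (pow_le_pow_iff_left₀ (sum_nonneg fun _ _ => norm_nonneg _) (by positivity)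
    two_ne_zero).1 h3

/-- the number of the returns -/
def ret {k : ℕ} (A : Finset G) (h : Fin k → G) : ℝ := ∑ x, ind A x * ∏ i, ind A (x + h i)

/-- the hybrid sums -/
noncomputable def hyb {k : ℕ} (A B : Finset G) (l : ℕ) (h : Fin k → G) : ℝ :=
  ∑ x, ind A x * ∏ i : Fin k, if (i : ℕ) < l then av A B x else ind A (x + h i)

theorem hyb_zero {k : ℕ} (A B : Finset G) (h : Fin k → G) : hyb A B 0 h = ret A h := by
  unfold hyb ret
  simp

theorem hyb_top {k : ℕ} (A B : Finset G) (h : Fin k → G) :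
    hyb A B k h = ∑ x, ind A x * av A B x ^ k := by
  unfold hyb
  refine sum_congr rfl fun x _ => ?_
  congr 1
  rw [prod_congr rfl (fun i _ => if_pos i.2)]
  simp

/-- the common factor -/
noncomputable def fac {k : ℕ} (A B : Finset G) (j : Fin k) (h : Fin k → G) (x : G) : ℝ :=
  ind A x * ∏ i ∈ univ.erase j, if (i : ℕ) < (j : ℕ) then av A B x else ind A (x + h i)

theorem fac_bd {k : ℕ} (A B : Finset G) (j : Fin k) (h : Fin k → G) (x : G) :
    ‖((fac A B j h x : ℝ) : ℂ)‖ ≤ 1 := by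
  have h1 : ∀ i : Fin k, 0 ≤ (if (i : ℕ) < (j : ℕ) then av A B x else ind A (x + h i)) := by
    intro i; split_ifs
    · exact av_nonneg _ _ _
    · exact ind_nonneg _ _
  have h2 : ∀ i : Fin k, (if (i : ℕ) < (j : ℕ) then av A B x else ind A (x + h i)) ≤ 1 := by
    intro i; split_ifs
    · exact av_le_one _ _ _
    · exact ind_le_one _ _
  rw [Complex.norm_real, Real.norm_eq_abs, abs_of_nonneg]
  · unfold fac
    have h3 : (∏ i ∈ univ.erase j, if (i : ℕ) < (j : ℕ) then av A B x else ind A (x + h i)) ≤ 1 :=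
      prod_le_one (fun i _ => h1 i) (fun i _ => h2 i)
    have h4 : 0 ≤ (∏ i ∈ univ.erase j, if (i : ℕ) < (j : ℕ) then av A B x else ind A (x + h i)) :=
      prod_nonneg fun i _ => h1 i
    have := ind_nonneg A x
    have := ind_le_one A x
    nlinarith
  · exact mul_nonneg (ind_nonneg _ _) (prod_nonneg fun i _ => h1 i)

theorem fac_update {k : ℕ} (A B : Finset G) (j : Fin k) (h : Fin k → G) (v : G) :
    fac A B j (Function.update h j v) = fac A B j h := by
  funext x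
  unfold fac
  congr 1
  refine prod_congr rfl fun i hi => ?_
  rw [Function.update_of_ne (mem_erase.1 hi).1]

theorem hyb_sub {k : ℕ} (A B : Finset G) (j : Fin k) (h : Fin k → G) :
    hyb A B j h - hyb A B ((j : ℕ) + 1) h =
      ∑ x, fac A B j h x * (ind A (x + h j) - av A B x) := by
  unfold hyb
  rw [← sum_sub_distrib]
  refine sum_congr rfl fun x _ => ?_
  unfold fac
  have e1 : (∏ i : Fin k, if (i : ℕ) < (j : ℕ) then av A B x else ind A (x + h i)) =
      ind A (x + h j) * ∏ i ∈ univ.erase j,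
        (if (i : ℕ) < (j : ℕ) then av A B x else ind A (x + h i)) := by
    rw [← mul_prod_erase univ _ (mem_univ j), if_neg (lt_irrefl _)]
  have e2 : (∏ i : Fin k, if (i : ℕ) < (j : ℕ) + 1 then av A B x else ind A (x + h i)) =
      av A B x * ∏ i ∈ univ.erase j,
        (if (i : ℕ) < (j : ℕ) then av A B x else ind A (x + h i)) := by
    rw [← mul_prod_erase univ _ (mem_univ j), if_pos (Nat.lt_succ_self _)]
    congr 1
    refine prod_congr rfl fun i hi => ?_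
    have hne : (i : ℕ) ≠ (j : ℕ) := fun h => (mem_erase.1 hi).1 (Fin.ext h)
    by_cases h3 : (i : ℕ) < (j : ℕ)
    · rw [if_pos h3, if_pos (by omega)]
    · rw [if_neg h3, if_neg (by omega)]
  rw [e1, e2]
  ring

end

end Pool.Agent.N646.AC
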