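import Mathlib
import Pool.Agent.N646.AC.Ret

/-! Popular returns: one level. -/

set_option autoImplicit false

namespace Pool.Agent.N646.AC

open Finset ComplexConjugate

section
variable {G : Type} [AddCommGroup G] [Fintype G] [DecidableEq G]

open Classical in
/-- the data of a level -/
structure LS (A : Finset G) (Γ Γ' : Finset (AddChar G ℂ)) (B B₁ B' : Finset G) (τ c η : ℝ) :
    Prop where
  hτ : 0 ≤ τ
  hη : 0 ≤ η
  hc : 0 ≤ c
  hΓ : Γ ⊆ Γ'
  hB : B.Nonempty
  hB' : B'.Nonempty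
  hBB₁ : B ⊆ B₁
  hcard : (B₁.card : ℝ) ≤ (1 + τ) * B.card
  hr : ∀ ψ ∈ Γ, ∀ b ∈ B, ‖ψ b - 1‖ ≤ τ
  hadd : ∀ v ∈ B', ∀ b ∈ B, v + b ∈ B₁
  hneg : ∀ v ∈ B', -v ∈ B'
  hcB : c * (Fintype.card G : ℝ) ≤ B'.card
  hηc : (2 * η) ^ 2 ≤ τ ^ 2 * c
  hsmall : ∀ ψ, ψ ∉ Γ' → ‖fh (indC A) ψ‖ ≤ η
  hmass : ∑ ψ ∈ Γ' \ Γ, ‖fh (indC A) ψ‖ ^ 2 ≤ τ ^ 2

theorem av_near {A : Finset G} {Γ Γ' : Finset (AddChar G ℂ)} {B B₁ B' : Finset G} {τ c η : ℝ}
    (S : LS A Γ Γ' B B₁ B' τ c η) {v : G} (hv : v ∈ B') (x : G) :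
    |av A B (x + v) - av A B x| ≤ τ := by
  rw [abs_le]
  constructor
  · have h := av_shift_le A S.hB S.hBB₁ S.hcard (S.hadd _ (S.hneg v hv)) (x + v)
    rw [add_neg_cancel_right] at h
    linarith
  · have h := av_shift_le A S.hB S.hBB₁ S.hcard (S.hadd _ hv) x
    linarith

theorem mass_le_one (A : Finset G) (T : Finset (AddChar G ℂ)) :
    ∑ ψ ∈ T, ‖fh (indC A) ψ‖ ^ 2 ≤ 1 := by
  have h1 : ∑ ψ ∈ T, ‖fh (indC A) ψ‖ ^ 2 ≤ ∑ ψ : AddChar G ℂ, ‖fh (indC A) ψ‖ ^ 2 :=
    sum_le_sum_of_subset_of_nonneg (subset_univ _) fun _ _ _ => by positivity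
  have h2 := parseval (indC A)
  have h3 : ∑ x, ‖indC A x‖ ^ 2 ≤ (Fintype.card G : ℝ) := by
    calc ∑ x, ‖indC A x‖ ^ 2 ≤ ∑ _x : G, (1 : ℝ) := sum_le_sum fun x _ => by
          unfold indC ind
          split_ifs <;> simp
      _ = Fintype.card G := by simp
  have hG : (0 : ℝ) < Fintype.card G := by
    exact_mod_cast Fintype.card_pos_iff.2 ⟨(0 : G)⟩
  rw [← h2] at h3
  have h4 : ∑ ψ : AddChar G ℂ, ‖fh (indC A) ψ‖ ^ 2 ≤ 1 := by
    by_contra hcon
    push Not at hcon
    nlinarith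
  linarith

theorem decomp {A : Finset G} {Γ Γ' : Finset (AddChar G ℂ)} {B B₁ B' : Finset G} {τ c η : ℝ}
    (S : LS A Γ Γ' B B₁ B' τ c η) : ∃ a1 a2 : AddChar G ℂ → ℂ,
    (∀ x, ((ind A x - av A B x : ℝ) : ℂ) = tp a1 x + tp a2 x) ∧
    ∑ ψ, ‖a1 ψ‖ ^ 2 ≤ (3 * τ) ^ 2 ∧ ∀ ψ, ‖a2 ψ‖ ≤ 2 * η := by
  classical
  set a : AddChar G ℂ → ℂ := fun ψ => fh (indC A) ψ * (1 - mult B ψ) with ha
  set a1 : AddChar G ℂ → ℂ := fun ψ => if ψ ∈ Γ' then a ψ else 0 with ha1
  set a2 : AddChar G ℂ → ℂ := fun ψ => if ψ ∈ Γ' then 0 else a ψ with ha2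
  have hτ := S.hτ
  have hη := S.hη
  refine ⟨a1, a2, ?_, ?_, ?_⟩
  · intro x
    have e1 : (ind A x : ℂ) = ∑ ψ : AddChar G ℂ, fh (indC A) ψ * ψ x := inversion (indC A) x
    have e2 : ((av A B x : ℝ) : ℂ) = ∑ ψ : AddChar G ℂ, fh (fun x => (av A B x : ℂ)) ψ * ψ x :=
      inversion (fun x => (av A B x : ℂ)) x
    push_cast
    rw [e1, e2, ← sum_sub_distrib]
    unfold tp
    rw [← sum_add_distrib]
    refine sum_congr rfl fun ψ _ => ?_
    rw [fh_av]
    simp only [ha1, ha2, ha]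
    split_ifs <;> ring
  · have e : ∑ ψ, ‖a1 ψ‖ ^ 2 = ∑ ψ ∈ Γ', ‖a ψ‖ ^ 2 := by
      rw [← sum_filter_add_sum_filter_not univ (fun ψ => ψ ∈ Γ') (fun ψ => ‖a1 ψ‖ ^ 2)]
      have h1 : ∑ ψ ∈ univ.filter (fun ψ => ¬ ψ ∈ Γ'), ‖a1 ψ‖ ^ 2 = 0 := by
        apply sum_eq_zero
        intro ψ hψ
        simp only [ha1, if_neg (mem_filter.1 hψ).2]
        simp
      rw [h1, add_zero]
      have h2 : univ.filter (fun ψ => ψ ∈ Γ') = Γ' := by ext; simp
      rw [h2]
      refine sum_congr rfl fun ψ hψ => ?_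
      simp only [ha1, if_pos hψ]
    rw [e, ← sum_sdiff S.hΓ]
    have h1 : ∑ ψ ∈ Γ' \ Γ, ‖a ψ‖ ^ 2 ≤ 4 * τ ^ 2 := by
      calc ∑ ψ ∈ Γ' \ Γ, ‖a ψ‖ ^ 2 ≤ ∑ ψ ∈ Γ' \ Γ, 4 * ‖fh (indC A) ψ‖ ^ 2 := by
            refine sum_le_sum fun ψ _ => ?_
            simp only [ha]
            rw [norm_mul, mul_pow]
            have h2 : ‖1 - mult B ψ‖ ≤ 2 := by
              refine (norm_sub_le _ _).trans ?_
              have := mult_le B ψ
              simp
              linarith
            have h3 : ‖1 - mult B ψ‖ ^ 2 ≤ 4 := by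
              have := norm_nonneg (1 - mult B ψ)
              nlinarith
            nlinarith [sq_nonneg ‖fh (indC A) ψ‖]
        _ = 4 * ∑ ψ ∈ Γ' \ Γ, ‖fh (indC A) ψ‖ ^ 2 := by rw [mul_sum]
        _ ≤ 4 * τ ^ 2 := by linarith [S.hmass]
    have h2 : ∑ ψ ∈ Γ, ‖a ψ‖ ^ 2 ≤ τ ^ 2 := by
      calc ∑ ψ ∈ Γ, ‖a ψ‖ ^ 2 ≤ ∑ ψ ∈ Γ, τ ^ 2 * ‖fh (indC A) ψ‖ ^ 2 := by
            refine sum_le_sum fun ψ hψ => ?_
            simp only [ha]
            rw [norm_mul, mul_pow, mul_comm]
            have h3 : ‖1 - mult B ψ‖ ≤ τ := mult_near S.hB (S.hr ψ hψ)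
            have h4 : ‖1 - mult B ψ‖ ^ 2 ≤ τ ^ 2 :=
              pow_le_pow_left₀ (norm_nonneg _) h3 2
            exact mul_le_mul_of_nonneg_right h4 (by positivity)
        _ = τ ^ 2 * ∑ ψ ∈ Γ, ‖fh (indC A) ψ‖ ^ 2 := by rw [mul_sum]
        _ ≤ τ ^ 2 * 1 := mul_le_mul_of_nonneg_left (mass_le_one A Γ) (by positivity)
        _ = _ := by ring
    nlinarith
  · intro ψ
    simp only [ha2]
    split_ifs with h
    · simp; linarith
    · simp only [ha]
      rw [norm_mul]
      have h2 : ‖1 - mult B ψ‖ ≤ 2 := by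
        refine (norm_sub_le _ _).trans ?_
        have := mult_le B ψ
        simp
        linarith
      have h3 := S.hsmall ψ h
      have := norm_nonneg (fh (indC A) ψ)
      have := norm_nonneg (1 - mult B ψ)
      nlinarith

theorem gsum {A : Finset G} {Γ Γ' : Finset (AddChar G ℂ)} {B B₁ B' : Finset G} {τ c η : ℝ}
    (S : LS A Γ Γ' B B₁ B' τ c η) (F : G → ℂ) (hF : ∀ x, ‖F x‖ ≤ 1) :
    ∑ v ∈ B', ‖∑ x, F x * ((ind A (x + v) - av A B (x + v) : ℝ) : ℂ)‖ ≤
      4 * τ * Fintype.card G * B'.card := by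
  obtain ⟨a1, a2, hdec, hs1, hs2⟩ := decomp S
  have hτ := S.hτ
  have hη := S.hη
  have hstep : ∀ v ∈ B', ‖∑ x, F x * ((ind A (x + v) - av A B (x + v) : ℝ) : ℂ)‖ ≤
      (Fintype.card G : ℝ) * (3 * τ) + ‖∑ x, F x * tp a2 (x + v)‖ := by
    intro v _
    have e : ∑ x, F x * ((ind A (x + v) - av A B (x + v) : ℝ) : ℂ) =
        ∑ x, F x * tp a1 (x + v) + ∑ x, F x * tp a2 (x + v) := by
      rw [← sum_add_distrib]
      refine sum_congr rfl fun x _ => ?_
      rw [hdec]; ring
    rw [e]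
    refine (norm_add_le _ _).trans ?_
    have := tp_small F hF a1 (3 * τ) (by positivity) hs1 v
    linarith
  have hc2 := tp_corr F hF a2 (2 * η) τ c (by positivity) hτ S.hc hs2 B' S.hcB S.hηc
  calc _ ≤ ∑ v ∈ B', ((Fintype.card G : ℝ) * (3 * τ) + ‖∑ x, F x * tp a2 (x + v)‖) :=
        sum_le_sum hstep
    _ = (B'.card : ℝ) * ((Fintype.card G : ℝ) * (3 * τ)) + ∑ v ∈ B', ‖∑ x, F x * tp a2 (x + v)‖ := by
        rw [sum_add_distrib]; simp
    _ ≤ (B'.card : ℝ) * ((Fintype.card G : ℝ) * (3 * τ)) + τ * Fintype.card G * B'.card := by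
        linarith
    _ = _ := by ring

theorem step {A : Finset G} {Γ Γ' : Finset (AddChar G ℂ)} {B B₁ B' : Finset G} {τ c η : ℝ}
    (S : LS A Γ Γ' B B₁ B' τ c η) {k : ℕ} (Z : Finset (Fin k → G)) (hZ : ∀ h ∈ Z, ∀ i, h i ∈ B')
    (hηZ : 2 * η * (Fintype.card G : ℝ) ^ k ≤ τ * Z.card) (j : Fin k) :
    ∑ h ∈ Z, |hyb A B j h - hyb A B ((j : ℕ) + 1) h| ≤
      5 * τ * Fintype.card G * Z.card := by
  have hG : (0 : ℝ) < Fintype.card G := by
    exact_mod_cast Fintype.card_pos_iff.2 ⟨(0 : G)⟩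
  obtain ⟨a1, a2, hdec, hs1, hs2⟩ := decomp S
  have hτ := S.hτ
  have hη := S.hη
  set W : (Fin k → G) → ℝ := fun h => ‖∑ x, ((fac A B j h x : ℝ) : ℂ) * tp a2 (x + h j)‖ with hW
  have h1 : ∀ h ∈ Z, |hyb A B j h - hyb A B ((j : ℕ) + 1) h| ≤
      4 * τ * Fintype.card G + W h := by
    intro h hh
    have hv := hZ h hh j
    rw [hyb_sub]
    have e : ∑ x, fac A B j h x * (ind A (x + h j) - av A B x) =
        ∑ x, fac A B j h x * (ind A (x + h j) - av A B (x + h j)) +
        ∑ x, fac A B j h x * (av A B (x + h j) - av A B x) := by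
      rw [← sum_add_distrib]
      refine sum_congr rfl fun x _ => by ring
    rw [e]
    refine (abs_add_le _ _).trans ?_
    have h2 : |∑ x, fac A B j h x * (ind A (x + h j) - av A B (x + h j))| ≤
        (Fintype.card G : ℝ) * (3 * τ) + W h := by
      have e2 : |∑ x, fac A B j h x * (ind A (x + h j) - av A B (x + h j))| =
          ‖∑ x, ((fac A B j h x : ℝ) : ℂ) * ((ind A (x + h j) - av A B (x + h j) : ℝ) : ℂ)‖ := by
        rw [← Real.norm_eq_abs, ← Complex.norm_real]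
        congr 1
        push_cast
        rfl
      have e3 : ∑ x, ((fac A B j h x : ℝ) : ℂ) * ((ind A (x + h j) - av A B (x + h j) : ℝ) : ℂ) =
          ∑ x, ((fac A B j h x : ℝ) : ℂ) * tp a1 (x + h j) +
          ∑ x, ((fac A B j h x : ℝ) : ℂ) * tp a2 (x + h j) := by
        rw [← sum_add_distrib]
        refine sum_congr rfl fun x _ => ?_
        rw [hdec]; ring
      rw [e2, e3]
      refine (norm_add_le _ _).trans ?_
      have := tp_small (fun x => ((fac A B j h x : ℝ) : ℂ)) (fun x => fac_bd A B j h x) a1 (3 * τ)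
        (by positivity) hs1 (h j)
      simp only [hW]
      linarith
    have h3 : |∑ x, fac A B j h x * (av A B (x + h j) - av A B x)| ≤ τ * Fintype.card G := by
      refine (abs_sum_le_sum_abs _ _).trans ?_
      calc ∑ x, |fac A B j h x * (av A B (x + h j) - av A B x)| ≤ ∑ _x : G, τ := by
            refine sum_le_sum fun x _ => ?_
            rw [abs_mul]
            have h2 : |fac A B j h x| ≤ 1 := by
              have := fac_bd A B j h x
              rw [Complex.norm_real] at this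
              exact this
            have h3 := av_near S hv x
            have := abs_nonneg (fac A B j h x)
            have := abs_nonneg (av A B (x + h j) - av A B x)
            nlinarith
        _ = τ * Fintype.card G := by simp [mul_comm]
    linarith
  have h2 : ∑ h : Fin k → G, W h ≤ 2 * η * (Fintype.card G : ℝ) ^ (k + 1) := by
    have e := sum_update (univ : Finset G) j W
    have e0 : Fintype.piFinset (fun _ : Fin k => (univ : Finset G)) = univ := by simp
    rw [e0, card_univ] at e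
    have h3 : ∀ h : Fin k → G, ∑ v, W (Function.update h j v) ≤
        2 * η * Fintype.card G * Fintype.card G := by
      intro h
      have h4 := tp_corr (fun x => ((fac A B j h x : ℝ) : ℂ)) (fun x => fac_bd A B j h x) a2 (2 * η)
        (2 * η) 1 (by positivity) (by positivity) zero_le_one hs2 (univ : Finset G) (by simp)
        (by simp)
      rw [card_univ] at h4
      refine le_trans (le_of_eq ?_) h4
      refine sum_congr rfl fun v _ => ?_
      simp only [hW]
      rw [fac_update]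
      simp only [Function.update_self]
    have h5 : (Fintype.card G : ℝ) * ∑ h : Fin k → G, W h ≤
        Fintype.card G * (2 * η * (Fintype.card G : ℝ) ^ (k + 1)) := by
      rw [← e]
      calc _ ≤ ∑ _h : Fin k → G, 2 * η * Fintype.card G * Fintype.card G :=
            sum_le_sum fun h _ => h3 h
        _ = _ := by
          rw [sum_const, card_univ, Fintype.card_fun, Fintype.card_fin, nsmul_eq_mul]
          push_cast
          ring
    exact le_of_mul_le_mul_left h5 hG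
  have h3 : ∑ h ∈ Z, W h ≤ τ * Fintype.card G * Z.card := by
    calc ∑ h ∈ Z, W h ≤ ∑ h : Fin k → G, W h :=
          sum_le_sum_of_subset_of_nonneg (subset_univ _) fun _ _ _ => norm_nonneg _
      _ ≤ 2 * η * (Fintype.card G : ℝ) ^ (k + 1) := h2
      _ = (2 * η * (Fintype.card G : ℝ) ^ k) * Fintype.card G := by ring
      _ ≤ (τ * Z.card) * Fintype.card G := by gcongr
      _ = _ := by ring
  calc _ ≤ ∑ h ∈ Z, (4 * τ * Fintype.card G + W h) := sum_le_sum h1
    _ = (Z.card : ℝ) * (4 * τ * Fintype.card G) + ∑ h ∈ Z, W h := by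
        rw [sum_add_distrib]; simp
    _ ≤ (Z.card : ℝ) * (4 * τ * Fintype.card G) + τ * Fintype.card G * Z.card := by linarith
    _ = _ := by ring

theorem tele {A : Finset G} {Γ Γ' : Finset (AddChar G ℂ)} {B B₁ B' : Finset G} {τ c η : ℝ}
    (S : LS A Γ Γ' B B₁ B' τ c η) (k : ℕ) (Z : Finset (Fin k → G)) (hZ : ∀ h ∈ Z, ∀ i, h i ∈ B')
    (hηZ : 2 * η * (Fintype.card G : ℝ) ^ k ≤ τ * Z.card) :
    ∑ h ∈ Z, |ret A h - ∑ x, ind A x * av A B x ^ k| ≤
      5 * k * τ * Fintype.card G * Z.card := by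
  have h1 : ∀ h : Fin k → G, |ret A h - ∑ x, ind A x * av A B x ^ k| ≤
      ∑ j : Fin k, |hyb A B j h - hyb A B ((j : ℕ) + 1) h| := by
    intro h
    rw [← hyb_zero A B h, ← hyb_top A B h]
    have e : hyb A B 0 h - hyb A B k h = ∑ j : Fin k, (hyb A B j h - hyb A B ((j : ℕ) + 1) h) := by
      rw [Fin.sum_univ_eq_sum_range (fun j => hyb A B j h - hyb A B (j + 1) h) k,
        Finset.sum_range_sub']
    rw [e]
    exact abs_sum_le_sum_abs _ _
  calc _ ≤ ∑ h ∈ Z, ∑ j : Fin k, |hyb A B j h - hyb A B ((j : ℕ) + 1) h| :=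
        sum_le_sum fun h _ => h1 h
    _ = ∑ j : Fin k, ∑ h ∈ Z, |hyb A B j h - hyb A B ((j : ℕ) + 1) h| := sum_comm
    _ ≤ ∑ _j : Fin k, 5 * τ * Fintype.card G * (Z.card : ℝ) :=
        sum_le_sum fun j _ => step S Z hZ hηZ j
    _ = _ := by
      rw [sum_const, card_univ, Fintype.card_fin, nsmul_eq_mul]; ring

theorem sum_av (A B : Finset G) (hB : B.Nonempty) : ∑ x, av A B x = A.card := by
  have h0 : (B.card : ℝ) ≠ 0 := by exact_mod_cast (card_pos.2 hB).ne'
  unfold av
  rw [← mul_sum, sum_comm]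
  have h1 : ∀ b ∈ B, ∑ x, ind A (x + b) = (A.card : ℝ) := by
    intro b _
    rw [Fintype.sum_equiv (Equiv.addRight b) (fun x => ind A (x + b)) (fun x => ind A x)
      (fun x => rfl)]
    unfold ind
    simp
  rw [sum_congr rfl h1]
  simp
  field_simp

theorem main_ge {A : Finset G} {Γ Γ' : Finset (AddChar G ℂ)} {B B₁ B' : Finset G} {τ c η : ℝ}
    (S : LS A Γ Γ' B B₁ B' τ c η) (k : ℕ) :
    (Fintype.card G : ℝ) * (((A.card : ℝ) / Fintype.card G) ^ (k + 1) - (4 + k) * τ) ≤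
      ∑ x, ind A x * av A B x ^ k := by
  have hG : (0 : ℝ) < Fintype.card G := by
    exact_mod_cast Fintype.card_pos_iff.2 ⟨(0 : G)⟩
  have h0 : (0 : ℝ) < B'.card := by exact_mod_cast card_pos.2 S.hB'
  -- power mean
  have h1 : (Fintype.card G : ℝ) * ((A.card : ℝ) / Fintype.card G) ^ (k + 1) ≤
      ∑ x, av A B x ^ (k + 1) := by
    have h2 := pow_sum_div_card_le_sum_pow (s := (univ : Finset G)) (f := fun x => av A B x)
      (fun x _ => av_nonneg A B x) k
    rw [card_univ, sum_av A B S.hB] at h2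
    have e : (Fintype.card G : ℝ) * ((A.card : ℝ) / Fintype.card G) ^ (k + 1) =
        (A.card : ℝ) ^ (k + 1) / (Fintype.card G : ℝ) ^ k := by
      rw [div_pow, pow_succ (Fintype.card G : ℝ) k]
      field_simp
    rw [e]
    exact h2
  -- comparison
  set F : G → ℂ := fun x => ((av A B x ^ k : ℝ) : ℂ) with hF
  have hpow : ∀ x, 0 ≤ av A B x ^ k ∧ av A B x ^ k ≤ 1 := fun x =>
    ⟨pow_nonneg (av_nonneg A B x) k, pow_le_one₀ (av_nonneg A B x) (av_le_one A B x)⟩
  have hFb : ∀ x, ‖F x‖ ≤ 1 := by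
    intro x
    rw [hF, Complex.norm_real, Real.norm_eq_abs, abs_of_nonneg (hpow x).1]
    exact (hpow x).2
  set D : ℝ := ∑ x, (ind A x - av A B x) * av A B x ^ k with hD
  have h3 : ∀ v ∈ B', |D| ≤ ‖∑ x, F x * ((ind A (x + v) - av A B (x + v) : ℝ) : ℂ)‖ +
      k * τ * Fintype.card G := by
    intro v hv
    have e1 : D = ∑ x, (ind A (x + v) - av A B (x + v)) * av A B (x + v) ^ k := by
      rw [hD]
      exact (Fintype.sum_equiv (Equiv.addRight v) _ _ fun x => rfl).symm
    have e2 : D = ∑ x, av A B x ^ k * (ind A (x + v) - av A B (x + v)) +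
        ∑ x, (ind A (x + v) - av A B (x + v)) * (av A B (x + v) ^ k - av A B x ^ k) := by
      rw [e1, ← sum_add_distrib]
      refine sum_congr rfl fun x _ => by ring
    rw [e2]
    refine (abs_add_le _ _).trans ?_
    apply add_le_add
    · apply le_of_eq
      rw [← Real.norm_eq_abs, ← Complex.norm_real]
      congr 1
      push_cast
      rw [hF]
      refine sum_congr rfl fun x _ => by push_cast; ring
    · refine (abs_sum_le_sum_abs _ _).trans ?_
      calc ∑ x, |(ind A (x + v) - av A B (x + v)) * (av A B (x + v) ^ k - av A B x ^ k)| ≤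
          ∑ _x : G, (k : ℝ) * τ := by
            refine sum_le_sum fun x _ => ?_
            rw [abs_mul]
            have h4 : |ind A (x + v) - av A B (x + v)| ≤ 1 := by
              rw [abs_le]
              have := ind_nonneg A (x + v)
              have := ind_le_one A (x + v)
              have := av_nonneg A B (x + v)
              have := av_le_one A B (x + v)
              constructor <;> linarith
            have h5 : |av A B (x + v) ^ k - av A B x ^ k| ≤ k * |av A B (x + v) - av A B x| := by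
              have := abs_pow_sub_pow_le (av A B (x + v)) (av A B x) k
              have hm : max |av A B (x + v)| |av A B x| ≤ 1 := by
                rw [abs_of_nonneg (av_nonneg _ _ _), abs_of_nonneg (av_nonneg _ _ _)]
                exact max_le (av_le_one _ _ _) (av_le_one _ _ _)
              have hm0 : 0 ≤ max |av A B (x + v)| |av A B x| := le_max_of_le_left (abs_nonneg _)
              have hm1 : max |av A B (x + v)| |av A B x| ^ (k - 1) ≤ 1 := pow_le_one₀ hm0 hm
              have hm2 : 0 ≤ max |av A B (x + v)| |av A B x| ^ (k - 1) := pow_nonneg hm0 _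
              have hd := abs_nonneg (av A B (x + v) - av A B x)
              have hk : (0 : ℝ) ≤ k := Nat.cast_nonneg _
              calc _ ≤ _ := this
                _ ≤ |av A B (x + v) - av A B x| * k * 1 := by gcongr
                _ = _ := by ring
            have h6 := av_near S hv x
            have hk : (0 : ℝ) ≤ k := Nat.cast_nonneg _
            calc _ ≤ 1 * (k * |av A B (x + v) - av A B x|) := by gcongr
              _ ≤ 1 * (k * τ) := by gcongr
              _ = _ := by ring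
        _ = _ := by simp [mul_comm]
  have h4 : (B'.card : ℝ) * |D| ≤ B'.card * ((4 + k) * τ * Fintype.card G) := by
    calc (B'.card : ℝ) * |D| = ∑ _v ∈ B', |D| := by simp
      _ ≤ ∑ v ∈ B', (‖∑ x, F x * ((ind A (x + v) - av A B (x + v) : ℝ) : ℂ)‖ +
          k * τ * Fintype.card G) := sum_le_sum h3
      _ = ∑ v ∈ B', ‖∑ x, F x * ((ind A (x + v) - av A B (x + v) : ℝ) : ℂ)‖ +
          B'.card * (k * τ * Fintype.card G) := by rw [sum_add_distrib]; simp
      _ ≤ 4 * τ * Fintype.card G * B'.card + B'.card * (k * τ * Fintype.card G) := by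
          linarith [gsum S F hFb]
      _ = _ := by ring
  have h5 : |D| ≤ (4 + k) * τ * Fintype.card G := le_of_mul_le_mul_left h4 h0
  have h6 : ∑ x, ind A x * av A B x ^ k = D + ∑ x, av A B x ^ (k + 1) := by
    rw [hD, ← sum_add_distrib]
    refine sum_congr rfl fun x _ => by ring
  rw [h6]
  have h7 := neg_abs_le D
  nlinarith

end

end Pool.Agent.N646.AC
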