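import Mathlib
import Pool.Agent.N646.AC.Lev

/-! Popular returns: the iteration. -/

set_option autoImplicit false

namespace Pool.Agent.N646.AC

open Finset ComplexConjugate

open Classical in
theorem level (k K : ℕ) (hK : 1 ≤ K) (τ : ℝ) (hτ : 0 < τ) (hτ1 : τ ≤ 1) (d : ℕ) :
    ∃ ρ' : ℝ, 0 < ρ' ∧ ρ' ≤ 1 ∧ ∃ η : ℝ,
    0 < η ∧ ∀ (G : Type) [AddCommGroup G] [Fintype G] [DecidableEq G] (A : Finset G)
    (Γ Γ' : Finset (AddChar G ℂ)), Γ.card ≤ d → Γ ⊆ Γ' →
    (∀ ψ, ψ ∉ Γ' → ‖fh (indC A) ψ‖ ≤ η) →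
    ∑ ψ ∈ Γ' \ Γ, ‖fh (indC A) ψ‖ ^ 2 ≤ τ ^ 2 →
    2 * η * (Fintype.card G : ℝ) ^ k ≤ τ * ((bohr Γ (ρ' / K)).card : ℝ) ^ k ∧
    ∃ (B B₁ : Finset G) (c : ℝ), LS A Γ Γ' B B₁ (bohr Γ ρ') τ c η := by
  obtain ⟨m, hm, hreg⟩ := regular d (τ / 2) (by positivity) τ hτ
  have hm0 : (0 : ℝ) < m := by exact_mod_cast hm
  have hm1 : (1 : ℝ) ≤ m := by exact_mod_cast hm
  have hK0 : (0 : ℝ) < K := by exact_mod_cast hK
  have hρ' : 0 < τ / 2 / m := by positivity
  obtain ⟨c, hc, hc1, hcard⟩ := bohr_card d (τ / 2 / m) hρ'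
  obtain ⟨c₁, hc₁, hc₁1, hcard₁⟩ := bohr_card d (τ / 2 / m / K) (by positivity)
  refine ⟨τ / 2 / m, hρ', ?_, min (τ * c / 2) (τ * c₁ ^ k / 2), by positivity, ?_⟩
  · rw [div_le_one hm0]
    linarith
  intro G _ _ _ A Γ Γ' hΓ hsub hsm hms
  have hG : (0 : ℝ) < Fintype.card G := by
    exact_mod_cast Fintype.card_pos_iff.2 ⟨(0 : G)⟩
  obtain ⟨r, hr1, hr2, hr3⟩ := hreg G Γ hΓ
  have hη1 : min (τ * c / 2) (τ * c₁ ^ k / 2) ≤ τ * c / 2 := min_le_left _ _
  have hη2 : min (τ * c / 2) (τ * c₁ ^ k / 2) ≤ τ * c₁ ^ k / 2 := min_le_right _ _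
  have hη0 : 0 < min (τ * c / 2) (τ * c₁ ^ k / 2) := by positivity
  set η := min (τ * c / 2) (τ * c₁ ^ k / 2) with hη
  refine ⟨?_, bohr Γ r, bohr Γ (r + τ / 2 / m), c, ?_⟩
  · have h1 := hcard₁ G Γ hΓ
    have h2 : (c₁ * Fintype.card G) ^ k ≤ ((bohr Γ (τ / 2 / m / K)).card : ℝ) ^ k :=
      pow_le_pow_left₀ (by positivity) h1 k
    calc 2 * η * (Fintype.card G : ℝ) ^ k ≤ 2 * (τ * c₁ ^ k / 2) * (Fintype.card G : ℝ) ^ k := by
          gcongr
      _ = τ * (c₁ * Fintype.card G) ^ k := by rw [mul_pow]; ring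
      _ ≤ _ := mul_le_mul_of_nonneg_left h2 hτ.le
  have hr0 : 0 ≤ r := by linarith
  exact
    { hτ := hτ.le
      hη := hη0.le
      hc := hc.le
      hΓ := hsub
      hB := ⟨0, zero_mem_bohr _ hr0⟩
      hB' := ⟨0, zero_mem_bohr _ hρ'.le⟩
      hBB₁ := bohr_mono (by linarith)
      hcard := hr3
      hr := by
        intro ψ hψ b hb
        have := (mem_bohr.1 hb) ψ hψ
        linarith
      hadd := by
        intro v hv b hb
        rw [add_comm v b]
        exact add_mem_bohr hb hv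
      hneg := fun v hv => neg_mem_bohr hv
      hcB := hcard G Γ hΓ
      hηc := by
        have h3 : (2 * η) ^ 2 ≤ (τ * c) ^ 2 := pow_le_pow_left₀ (by positivity) (by linarith) 2
        have h2 : 0 ≤ τ ^ 2 * c := by positivity
        nlinarith
      hsmall := hsm
      hmass := hms }

open Classical in
theorem large_card {G : Type} [AddCommGroup G] [Fintype G] [DecidableEq G] (A : Finset G) (e : ℝ)
    (he : 0 < e) :
    ((univ.filter (fun ψ : AddChar G ℂ => e < ‖fh (indC A) ψ‖)).card : ℝ) ≤ 1 / e ^ 2 := by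
  rw [le_div_iff₀ (by positivity)]
  refine le_trans ?_ (mass_le_one A (univ.filter (fun ψ : AddChar G ℂ => e < ‖fh (indC A) ψ‖)))
  rw [← nsmul_eq_mul, ← sum_const]
  refine sum_le_sum fun ψ hψ => ?_
  exact pow_le_pow_left₀ he.le (mem_filter.1 hψ).2.le 2

open Classical in
/-- **popular returns**: a dense set returns often for almost all vectors in a Bohr set, and for
almost all vectors in every not too small set of such vectors -/
theorem returns (k K : ℕ) (hK : 1 ≤ K) (α : ℝ) (hα : 0 < α) (ε : ℝ) (hε : 0 < ε) :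
    ∃ (d : ℕ) (ρ : ℝ), 0 < ρ ∧ ρ ≤ 1 ∧
    ∀ (G : Type) [AddCommGroup G] [Fintype G] [DecidableEq G]
    (A : Finset G) (ψ₀ : AddChar G ℂ), α * Fintype.card G ≤ A.card →
    ∃ (Γ : Finset (AddChar G ℂ)) (r : ℝ), ψ₀ ∈ Γ ∧ Γ.card ≤ d ∧ ρ ≤ r ∧ r ≤ 1 ∧
      ∀ Z : Finset (Fin k → G), (∀ h ∈ Z, ∀ i, h i ∈ bohr Γ r) →
        ((bohr Γ (r / K)).card : ℝ) ^ k ≤ Z.card →
      ((Z.filter (fun h => ret A h < α ^ (k + 1) / 4 * Fintype.card G)).card : ℝ) ≤ ε * Z.card := by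
  set c : ℝ := α ^ (k + 1) / 4 with hc
  have hc0 : 0 < c := by positivity
  set τ : ℝ := min (min 1 (α ^ (k + 1) / (2 * (4 + k)))) (ε * c / (5 * k + 1)) with hτ
  have hτ0 : 0 < τ := by
    rw [hτ]
    refine lt_min (lt_min one_pos (by positivity)) (by positivity)
  have hτ1 : τ ≤ 1 := (min_le_left _ _).trans (min_le_left _ _)
  have hτ2 : (4 + k) * τ ≤ α ^ (k + 1) / 2 := by
    have h : τ ≤ α ^ (k + 1) / (2 * (4 + k)) := (min_le_left _ _).trans (min_le_right _ _)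
    rw [le_div_iff₀ (by positivity)] at h
    linarith
  have hτ3 : 5 * k * τ ≤ ε * c := by
    have h : τ ≤ ε * c / (5 * k + 1) := min_le_right _ _
    rw [le_div_iff₀ (by positivity)] at h
    nlinarith
  -- the constants
  have hlev := fun d => level k K hK τ hτ0 hτ1 d
  choose ρ' hρ' hρ'1 η hη hL using hlev
  set D : ℝ → ℕ := fun e => 1 + ⌊1 / e ^ 2⌋₊ with hD
  set E : ℕ → ℝ := fun j => Nat.rec (1 : ℝ) (fun _ e => min e (η (D e))) j with hE
  have hE0 : E 0 = 1 := rfl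
  have hEs : ∀ j, E (j + 1) = min (E j) (η (D (E j))) := fun j => rfl
  have hEpos : ∀ j, 0 < E j := by
    intro j
    induction j with
    | zero => rw [hE0]; exact one_pos
    | succ j ih => rw [hEs]; exact lt_min ih (hη _)
  obtain ⟨J, hJ⟩ := exists_nat_gt (1 / τ ^ 2)
  have hρmin : ∀ J : ℕ, ∃ ρ : ℝ, 0 < ρ ∧ ρ ≤ 1 ∧ ∀ j < J, ρ ≤ ρ' (D (E j)) := by
    intro J
    induction J with
    | zero => exact ⟨1, one_pos, le_rfl, fun j hj => absurd hj (by omega)⟩
    | succ J ih =>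
      obtain ⟨ρ, h1, h2, h3⟩ := ih
      refine ⟨min ρ (ρ' (D (E J))), lt_min h1 (hρ' _), (min_le_left _ _).trans h2, ?_⟩
      intro j hj
      rcases Nat.lt_succ_iff_lt_or_eq.1 hj with h | rfl
      · exact (min_le_left _ _).trans (h3 j h)
      · exact min_le_right _ _
  obtain ⟨ρ, hρ0, hρ1, hρm⟩ := hρmin J
  refine ⟨∑ j ∈ range J, D (E j), ρ, hρ0, hρ1, ?_⟩
  intro G _ _ _ A ψ₀ hA
  have hG : (0 : ℝ) < Fintype.card G := by
    exact_mod_cast Fintype.card_pos_iff.2 ⟨(0 : G)⟩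
  set Γ : ℕ → Finset (AddChar G ℂ) := fun j =>
    insert ψ₀ (univ.filter (fun ψ : AddChar G ℂ => E j < ‖fh (indC A) ψ‖)) with hΓ
  have hΓc : ∀ j, (Γ j).card ≤ D (E j) := by
    intro j
    have h1 := card_insert_le ψ₀ (univ.filter (fun ψ : AddChar G ℂ => E j < ‖fh (indC A) ψ‖))
    have h2 := large_card A (E j) (hEpos j)
    have h3 : (univ.filter (fun ψ : AddChar G ℂ => E j < ‖fh (indC A) ψ‖)).card ≤
        ⌊1 / (E j) ^ 2⌋₊ := Nat.le_floor h2
    simp only [hD, hΓ]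
    omega
  have hΓs : ∀ j, Γ j ⊆ Γ (j + 1) := by
    intro j
    apply insert_subset_insert
    intro ψ hψ
    rw [mem_filter] at hψ ⊢
    refine ⟨mem_univ _, ?_⟩
    rw [hEs]
    exact (min_le_left _ _).trans_lt hψ.2
  have hpig : ∃ j < J, ∑ ψ ∈ Γ (j + 1) \ Γ j, ‖fh (indC A) ψ‖ ^ 2 ≤ τ ^ 2 := by
    by_contra hcon
    push Not at hcon
    have key : ∀ j ≤ J, (j : ℝ) * τ ^ 2 ≤ ∑ ψ ∈ Γ j, ‖fh (indC A) ψ‖ ^ 2 := by
      intro j
      induction j with
      | zero => intro _; simp; exact sum_nonneg fun _ _ => by positivity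
      | succ j ih =>
        intro hj
        have h1 := ih (by omega)
        have h2 := hcon j (by omega)
        rw [← sum_sdiff (hΓs j)]
        push_cast
        linarith
    have h1 := key J le_rfl
    have h2 := mass_le_one A (Γ J)
    rw [div_lt_iff₀ (by positivity)] at hJ
    linarith
  obtain ⟨j, hj, hms⟩ := hpig
  obtain ⟨hηk, B, B₁, c', S⟩ := hL (D (E j)) G A (Γ j) (Γ (j + 1)) (hΓc j) (hΓs j) (by
    intro ψ hψ
    have h1 : ¬ (E (j + 1) < ‖fh (indC A) ψ‖) := by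
      intro h
      apply hψ
      exact mem_insert_of_mem (mem_filter.2 ⟨mem_univ _, h⟩)
    push Not at h1
    rw [hEs] at h1
    exact h1.trans (min_le_right _ _)) hms
  refine ⟨Γ j, ρ' (D (E j)), mem_insert_self _ _, ?_, hρm j hj, hρ'1 _, ?_⟩
  · refine (hΓc j).trans ?_
    exact single_le_sum (f := fun j => D (E j)) (fun _ _ => Nat.zero_le _) (mem_range.2 hj)
  intro Z hZ hZc
  -- Markov
  have h1 := tele S k Z hZ (hηk.trans (mul_le_mul_of_nonneg_left hZc hτ0.le))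
  have h2 := main_ge S k
  have h3 : 2 * c * Fintype.card G ≤ ∑ x, ind A x * av A B x ^ k := by
    refine le_trans ?_ h2
    have h4 : α ≤ (A.card : ℝ) / Fintype.card G := by
      rw [le_div_iff₀ hG]; exact hA
    have h5 : α ^ (k + 1) ≤ ((A.card : ℝ) / Fintype.card G) ^ (k + 1) :=
      pow_le_pow_left₀ hα.le h4 _
    rw [mul_comm]
    refine mul_le_mul_of_nonneg_left ?_ hG.le
    rw [hc]
    linarith
  set F := Z.filter (fun h => ret A h < c * Fintype.card G) with hF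
  have h4 : (F.card : ℝ) * (c * Fintype.card G) ≤ 5 * k * τ * Fintype.card G * Z.card := by
    refine le_trans ?_ h1
    rw [← nsmul_eq_mul, ← sum_const]
    refine le_trans (sum_le_sum (g := fun h => |ret A h - ∑ x, ind A x * av A B x ^ k|) ?_)
      (sum_le_sum_of_subset_of_nonneg (filter_subset _ _) fun _ _ _ => abs_nonneg _)
    intro h hh
    have h5 := (mem_filter.1 hh).2
    rw [le_abs]
    right
    linarith
  have h5 : (F.card : ℝ) * (c * Fintype.card G) ≤ ε * Z.card * (c * Fintype.card G) := by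
    refine h4.trans ?_
    have hBk : 0 ≤ (Z.card : ℝ) := by positivity
    calc 5 * k * τ * Fintype.card G * (Z.card : ℝ)
        = (5 * k * τ) * (Fintype.card G * Z.card) := by ring
      _ ≤ (ε * c) * (Fintype.card G * Z.card) :=
          mul_le_mul_of_nonneg_right hτ3 (by positivity)
      _ = _ := by ring
  exact le_of_mul_le_mul_right h5 (by positivity)

end Pool.Agent.N646.AC
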