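import Mathlib
import Pool.Agent.N646.AC.Rec

/-! Bohr sets of integers. -/

set_option autoImplicit false

namespace Pool.Agent.N646.AC

open Finset ComplexConjugate

/-- the Bohr set of the integers `|b| ≤ H` with `|exp (2πiθb) - 1| ≤ r` for all `θ ∈ Θ` -/
noncomputable def Bz (Θ : Finset ℝ) (r : ℝ) (H : ℕ) : Finset ℤ :=
  open Classical in
  (Icc (-(H : ℤ)) H).filter (fun b => ∀ θ ∈ Θ,
    ‖Complex.exp (2 * Real.pi * Complex.I * θ * b) - 1‖ ≤ r)

theorem mem_Bz {Θ : Finset ℝ} {r : ℝ} {H : ℕ} {b : ℤ} : b ∈ Bz Θ r H ↔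
    (-(H : ℤ) ≤ b ∧ b ≤ H) ∧ ∀ θ ∈ Θ,
      ‖Complex.exp (2 * Real.pi * Complex.I * θ * b) - 1‖ ≤ r := by
  unfold Bz
  rw [mem_filter, mem_Icc]

/-- the frequency of a character -/
noncomputable def frq {Q : ℕ} (ψ : AddChar (ZMod Q) ℂ) : ℝ := Complex.arg (ψ 1) / (2 * Real.pi)

theorem frq_spec {Q : ℕ} [NeZero Q] (ψ : AddChar (ZMod Q) ℂ) (b : ℤ) :
    ψ (b : ZMod Q) = Complex.exp (2 * Real.pi * Complex.I * frq ψ * b) := by
  have h1 : ψ 1 = Complex.exp (Complex.arg (ψ 1) * Complex.I) := by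
    have h := Complex.norm_mul_exp_arg_mul_I (ψ 1)
    rw [AddChar.norm_apply, Complex.ofReal_one, one_mul] at h
    exact h.symm
  have h2 : (b : ZMod Q) = b • (1 : ZMod Q) := by simp
  rw [h2, AddChar.map_zsmul_eq_zpow, h1, ← Complex.exp_int_mul]
  congr 1
  unfold frq
  have hp : (Real.pi : ℂ) ≠ 0 := by exact_mod_cast Real.pi_ne_zero
  push_cast
  field_simp

/-- the standard character controls the size -/
theorem std_small {Q : ℕ} [NeZero Q] {b : ℤ} (hb : 2 * |b| ≤ Q) {r : ℝ}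
    (h : ‖(ZMod.stdAddChar (b : ZMod Q) : ℂ) - 1‖ ≤ r) : 4 * |(b : ℝ)| ≤ r * Q := by
  have hQ : (0 : ℝ) < Q := by exact_mod_cast Nat.pos_of_ne_zero (NeZero.ne Q)
  rw [ZMod.stdAddChar_coe] at h
  have e : (2 * Real.pi * Complex.I * b / Q : ℂ) =
      Complex.I * ((2 * Real.pi * b / Q : ℝ) : ℂ) := by push_cast; ring
  rw [e, Complex.norm_exp_I_mul_ofReal_sub_one] at h
  have e2 : (2 * Real.pi * b / Q : ℝ) / 2 = Real.pi * b / Q := by ring
  rw [e2, norm_mul, Real.norm_two] at h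
  have hb' : 2 * |(b : ℝ)| ≤ Q := by exact_mod_cast hb
  have h3 : |Real.pi * b / Q| ≤ Real.pi / 2 := by
    rw [abs_div, abs_mul, abs_of_pos Real.pi_pos, abs_of_pos hQ, div_le_iff₀ hQ]
    nlinarith [Real.pi_pos]
  have h4 : 2 / Real.pi * |Real.pi * b / Q| ≤ |Real.sin (Real.pi * b / Q)| := by
    have h5 := Real.mul_le_sin (abs_nonneg (Real.pi * b / Q)) h3
    rcases abs_cases (Real.pi * b / Q) with ⟨h6, _⟩ | ⟨h6, _⟩
    · rw [h6] at h5 ⊢
      exact h5.trans (le_abs_self _)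
    · rw [h6] at h5 ⊢
      rw [Real.sin_neg] at h5
      exact h5.trans (neg_le_abs _)
  rw [Real.norm_eq_abs] at h
  have h5 : 2 / Real.pi * |Real.pi * b / Q| = 2 * |(b : ℝ)| / Q := by
    rw [abs_div, abs_mul, abs_of_pos Real.pi_pos, abs_of_pos hQ]
    field_simp
  rw [h5] at h4
  have h6 : 2 * (2 * |(b : ℝ)| / Q) ≤ r := by linarith
  rw [← mul_div_assoc, div_le_iff₀ hQ] at h6
  linarith

theorem bohr_Bz {H : ℕ} (hH : 1 ≤ H) [NeZero (4 * H)] (Γ : Finset (AddChar (ZMod (4 * H)) ℂ))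
    (h0 : ZMod.stdAddChar ∈ Γ) {r : ℝ} (hr : r ≤ 1) :
    bohr Γ r = (Bz (Γ.image frq) r H).image (Int.cast : ℤ → ZMod (4 * H)) ∧
    Set.InjOn (Int.cast : ℤ → ZMod (4 * H)) (Bz (Γ.image frq) r H) ∧
    ∀ b ∈ Bz (Γ.image frq) r H, |(b : ℝ)| ≤ r * H := by
  have key : ∀ b : ℤ, (b : ZMod (4 * H)) ∈ bohr Γ r ↔ ∀ θ ∈ Γ.image frq,
      ‖Complex.exp (2 * Real.pi * Complex.I * θ * b) - 1‖ ≤ r := by
    intro b
    rw [mem_bohr]
    constructor
    · intro h θ hθ
      obtain ⟨ψ, hψ, rfl⟩ := mem_image.1 hθ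
      rw [← frq_spec]
      exact h ψ hψ
    · intro h ψ hψ
      rw [frq_spec]
      exact h _ (mem_image_of_mem _ hψ)
  have hsize : ∀ b : ℤ, 2 * |b| ≤ (4 * H : ℕ) → (b : ZMod (4 * H)) ∈ bohr Γ r →
      |(b : ℝ)| ≤ r * H := by
    intro b hb hbb
    have h1 := std_small hb (mem_bohr.1 hbb _ h0)
    push_cast at h1
    linarith
  have hHr : (1 : ℝ) ≤ H := by exact_mod_cast hH
  refine ⟨?_, ?_, ?_⟩
  · ext x
    constructor
    · intro hx
      rw [mem_image]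
      refine ⟨x.valMinAbs, ?_, ZMod.coe_valMinAbs x⟩
      have hx' : ((x.valMinAbs : ℤ) : ZMod (4 * H)) ∈ bohr Γ r := by
        rw [ZMod.coe_valMinAbs]; exact hx
      have hle : 2 * |x.valMinAbs| ≤ (4 * H : ℕ) := by
        have := ZMod.valMinAbs_mem_Ioc x
        rw [Set.mem_Ioc] at this
        rcases abs_cases x.valMinAbs with ⟨h, _⟩ | ⟨h, _⟩ <;> rw [h] <;> linarith [this.1, this.2]
      rw [mem_Bz]
      refine ⟨?_, (key _).1 hx'⟩
      have h2 := hsize _ hle hx'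
      have h3 : |(x.valMinAbs : ℝ)| ≤ H := h2.trans (by nlinarith)
      have h4 : |x.valMinAbs| ≤ (H : ℤ) := by exact_mod_cast h3
      exact abs_le.1 h4
    · intro hx
      obtain ⟨b, hb, rfl⟩ := mem_image.1 hx
      exact (key b).2 (mem_Bz.1 hb).2
  · intro a ha b hb hab
    rw [mem_coe, mem_Bz] at ha hb
    rw [ZMod.intCast_eq_intCast_iff_dvd_sub] at hab
    obtain ⟨c, hc⟩ := hab
    push_cast at hc
    have h1 : |b - a| < 4 * H := by
      rw [abs_lt]
      constructor <;> linarith [ha.1.1, ha.1.2, hb.1.1, hb.1.2]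
    have hc0 : c = 0 := by
      by_contra hne
      have : 1 ≤ |c| := Int.one_le_abs hne
      rw [hc, abs_mul, abs_of_pos (by positivity : (0 : ℤ) < 4 * H)] at h1
      nlinarith
    rw [hc0] at hc
    linarith
  · intro b hb
    have hb' := mem_Bz.1 hb
    apply hsize b _ ((key b).2 hb'.2)
    have : |b| ≤ (H : ℤ) := abs_le.2 hb'.1
    push_cast
    linarith

/-- multiples of the elements of a Bohr set -/
theorem zsmul_bohr {G : Type} [AddCommGroup G] [Fintype G] {Γ : Finset (AddChar G ℂ)} {r : ℝ}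
    {x : G} (hx : x ∈ bohr Γ r) (a : ℤ) {ψ : AddChar G ℂ} (hψ : ψ ∈ Γ) :
    ‖ψ (a • x) - 1‖ ≤ |(a : ℝ)| * r := by
  have h0 := mem_bohr.1 hx ψ hψ
  have hn : ∀ n : ℕ, ‖ψ (n • x) - 1‖ ≤ n * r := by
    intro n
    induction n with
    | zero => simp
    | succ n ih =>
      rw [succ_nsmul, AddChar.map_add_eq_mul]
      have e : ψ (n • x) * ψ x - 1 = ψ (n • x) * (ψ x - 1) + (ψ (n • x) - 1) := by ring
      rw [e]
      refine (norm_add_le _ _).trans ?_
      rw [norm_mul, AddChar.norm_apply, one_mul]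
      push_cast
      linarith
  rcases Int.natAbs_eq a with h | h
  · have e : a • x = a.natAbs • x := by
      conv_lhs => rw [h]
      rw [natCast_zsmul]
    rw [e]
    have := hn a.natAbs
    rwa [Nat.cast_natAbs, Int.cast_abs] at this
  · have e : a • x = -(a.natAbs • x) := by
      conv_lhs => rw [h]
      rw [neg_zsmul, natCast_zsmul]
    rw [e, AddChar.map_neg_eq_conj]
    have e2 : conj (ψ (a.natAbs • x)) - 1 = conj (ψ (a.natAbs • x) - 1) := by simp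
    rw [e2, Complex.norm_conj]
    have := hn a.natAbs
    rwa [Nat.cast_natAbs, Int.cast_abs] at this

theorem sum_bohr {G : Type} [AddCommGroup G] [Fintype G] {k : ℕ} (v : Fin k → G) (R : Fin k → ℝ) {ψ : AddChar G ℂ}
    (h : ∀ j, ‖ψ (v j) - 1‖ ≤ R j) : ‖ψ (∑ j, v j) - 1‖ ≤ ∑ j, R j := by
  classical
  have key : ∀ s : Finset (Fin k), ‖ψ (∑ j ∈ s, v j) - 1‖ ≤ ∑ j ∈ s, R j := by
    intro s
    induction s using Finset.induction_on with
    | empty => simp
    | insert j s hj ih =>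
      rw [sum_insert hj, sum_insert hj, AddChar.map_add_eq_mul]
      have e : ψ (v j) * ψ (∑ j ∈ s, v j) - 1 =
          ψ (v j) * (ψ (∑ j ∈ s, v j) - 1) + (ψ (v j) - 1) := by ring
      rw [e]
      refine (norm_add_le _ _).trans ?_
      rw [norm_mul, AddChar.norm_apply, one_mul]
      linarith [h j]
  exact key univ

end Pool.Agent.N646.AC
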