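import Mathlib
import Pool.Agent.N646.AC.Zed

/-! From almost complete dense sets of integers to Bohr sets of good vectors. -/

set_option autoImplicit false

namespace Pool.Agent.N646.AC

open Finset ComplexConjugate

/-- the integer matrices with entries at most `s` -/
noncomputable def Mats (k s : ℕ) : Finset (Matrix (Fin k) (Fin k) ℤ) :=
  (Fintype.piFinset (fun _ : Fin k => Fintype.piFinset (fun _ : Fin k => Icc (-(s : ℤ)) s))).map
    (Matrix.of (m := Fin k) (n := Fin k) (α := ℤ)).toEmbedding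

theorem mem_Mats {k s : ℕ} {T : Matrix (Fin k) (Fin k) ℤ} : T ∈ Mats k s ↔ ∀ i j, |T i j| ≤ s := by
  unfold Mats
  rw [mem_map_equiv, Fintype.mem_piFinset]
  refine forall_congr' fun i => ?_
  rw [Fintype.mem_piFinset]
  refine forall_congr' fun j => ?_
  rw [mem_Icc, ← abs_le]
  rfl

theorem Mats_card (k s : ℕ) : (Mats k s).card = ((2 * s + 1) ^ k) ^ k := by
  unfold Mats
  rw [card_map, Fintype.card_piFinset, prod_const, Fintype.card_piFinset, prod_const, card_univ,
    Fintype.card_fin, Int.card_Icc]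
  congr 2
  omega

theorem mulVec_inj {k : ℕ} {T : Matrix (Fin k) (Fin k) ℤ} (hT : T.det ≠ 0) {x y : Fin k → ℤ}
    (h : T.mulVec x = T.mulVec y) : x = y := by
  have h1 : T.mulVec (x - y) = 0 := by rw [Matrix.mulVec_sub, h, sub_self]
  exact sub_eq_zero.1 (Matrix.eq_zero_of_mulVec_eq_zero hT h1)

/-- the normalised vector `(0, h)` -/
def nv {k : ℕ} (h : Fin k → ℤ) : Fin (k + 1) → ℤ := Fin.cons 0 h

open Classical in
theorem bad_count {k : ℕ} (A : Finset ℤ) (P : (Fin (k + 1) → ℤ) → Prop) (T : Matrix (Fin k) (Fin k) ℤ)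
    (hT : T.det ≠ 0) (Y : Finset (Fin k → ℤ)) (c E H : ℝ) (hA : (A.card : ℝ) ≤ H)
    (hE : (((Fintype.piFinset (fun _ : Fin (k + 1) => A)).filter (fun t => Function.Injective t ∧
      ¬ P (fun i => t i - t 0))).card : ℝ) ≤ E)
    (hY : ∀ y ∈ Y, c ≤ ((A.filter (fun x => ∀ i, x + (T.mulVec y) i ∈ A)).card : ℝ) ∧
      ¬ (Function.Injective (nv (T.mulVec y)) ∧ P (nv (T.mulVec y)))) :
    c * Y.card ≤ E + (k + 1) ^ 2 * H ^ k := by
  set ni := (Fintype.piFinset (fun _ : Fin (k + 1) => A)).filter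
    (fun t => ¬ Function.Injective t) with hni
  set ex := (Fintype.piFinset (fun _ : Fin (k + 1) => A)).filter (fun t => Function.Injective t ∧
      ¬ P (fun i => t i - t 0)) with hex
  set S : Finset ((Fin k → ℤ) × ℤ) := (Y ×ˢ A).filter
    (fun p => ∀ i, p.2 + (T.mulVec p.1) i ∈ A) with hS
  -- the number of the pairs
  have h1 : c * Y.card ≤ (S.card : ℝ) := by
    have e : S.card = ∑ y ∈ Y, (A.filter (fun x => ∀ i, x + (T.mulVec y) i ∈ A)).card := by
      rw [hS, card_filter, sum_product]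
      refine sum_congr rfl fun y _ => ?_
      rw [card_filter]
    rw [e]
    push_cast
    calc c * Y.card = ∑ _y ∈ Y, c := by rw [sum_const, nsmul_eq_mul]; ring
      _ ≤ _ := sum_le_sum fun y hy => (hY y hy).1
  -- the map to the tuples
  have h2 : S.card ≤ (ex ∪ ni).card := by
    apply card_le_card_of_injOn (fun p : (Fin k → ℤ) × ℤ => fun i => p.2 + nv (T.mulVec p.1) i)
    · intro p hp
      rw [mem_coe, hS, mem_filter, mem_product] at hp
      obtain ⟨⟨hp1, hp2⟩, hp3⟩ := hp
      have hmem : (fun i => p.2 + nv (T.mulVec p.1) i) ∈ Fintype.piFinset (fun _ : Fin (k + 1) => A) := by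
        rw [Fintype.mem_piFinset]
        intro i
        refine Fin.cases ?_ (fun i => ?_) i
        · simpa [nv] using hp2
        · simpa [nv] using hp3 i
      rw [mem_coe, mem_union]
      by_cases hinj : Function.Injective (fun i => p.2 + nv (T.mulVec p.1) i)
      · left
        rw [hex, mem_filter]
        refine ⟨hmem, hinj, ?_⟩
        have hinj' : Function.Injective (nv (T.mulVec p.1)) := by
          intro i j hij
          apply hinj
          simp only [hij]
        have e : (fun i => p.2 + nv (T.mulVec p.1) i - (p.2 + nv (T.mulVec p.1) 0)) =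
            nv (T.mulVec p.1) := by
          funext i
          simp [nv]
        simp only [e]
        exact fun hP => (hY p.1 hp1).2 ⟨hinj', hP⟩
      · right
        rw [hni, mem_filter]
        exact ⟨hmem, hinj⟩
    · intro p _ q _ hpq
      have h0 := congrFun hpq 0
      simp only [nv, Fin.cons_zero, add_zero] at h0
      have h3 : T.mulVec p.1 = T.mulVec q.1 := by
        funext i
        have := congrFun hpq i.succ
        simp only [nv, Fin.cons_succ] at this
        rw [h0] at this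
        linarith
      have h4 : p.1 = q.1 := mulVec_inj hT h3
      exact Prod.ext h4 h0
  -- the tuples which are not injective
  have h3 : (ni.card : ℝ) ≤ (k + 1) ^ 2 * H ^ k := by
    have hsub : ni ⊆ (univ : Finset (Fin (k + 1) × Fin (k + 1))).biUnion
        (fun p => if p.1 = p.2 then ∅ else (Fintype.piFinset (fun _ : Fin (k + 1) => A)).filter
          (fun t => t p.1 = t p.2)) := by
      intro t ht
      rw [hni, mem_filter] at ht
      obtain ⟨ht1, ht2⟩ := ht
      unfold Function.Injective at ht2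
      push Not at ht2
      obtain ⟨i, j, hij, hne⟩ := ht2
      rw [mem_biUnion]
      refine ⟨(i, j), mem_univ _, ?_⟩
      simp only [if_neg hne, mem_filter]
      exact ⟨ht1, hij⟩
    have hc : ∀ p : Fin (k + 1) × Fin (k + 1), (if p.1 = p.2 then ∅ else
        (Fintype.piFinset (fun _ : Fin (k + 1) => A)).filter (fun t => t p.1 = t p.2)).card ≤
        A.card ^ k := by
      rintro ⟨i, j⟩
      split_ifs with h
      · simp
      · have : ((Fintype.piFinset (fun _ : Fin (k + 1) => A)).filter (fun t => t i = t j)).card ≤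
            (Fintype.piFinset (fun _ : Fin k => A)).card := by
          apply card_le_card_of_injOn (fun t => fun l => t (i.succAbove l))
          · intro t ht
            rw [mem_coe, mem_filter, Fintype.mem_piFinset] at ht
            rw [mem_coe, Fintype.mem_piFinset]
            exact fun l => ht.1 _
          · intro t ht t' ht' htt
            rw [mem_coe, mem_filter] at ht ht'
            have h5 : ∀ l, l ≠ i → t l = t' l := by
              intro l hl
              obtain ⟨m, rfl⟩ := Fin.exists_succAbove_eq hl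
              exact congrFun htt m
            funext l
            by_cases hl : l = i
            · subst hl
              rw [ht.2, ht'.2]
              exact h5 j (fun h' => h h'.symm)
            · exact h5 l hl
        rw [Fintype.card_piFinset, prod_const, card_univ, Fintype.card_fin] at this
        exact this
    have h4 : ni.card ≤ (k + 1) ^ 2 * A.card ^ k := by
      refine (card_le_card hsub).trans (card_biUnion_le.trans ((sum_le_sum fun p _ => hc p).trans ?_))
      rw [sum_const, card_univ, Fintype.card_prod, Fintype.card_fin, smul_eq_mul, sq]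
    have h5 : (ni.card : ℝ) ≤ (k + 1) ^ 2 * (A.card : ℝ) ^ k := by exact_mod_cast h4
    refine h5.trans ?_
    gcongr
  have h4 : ((ex ∪ ni).card : ℝ) ≤ ex.card + ni.card := by exact_mod_cast card_union_le _ _
  have h5 : (S.card : ℝ) ≤ ((ex ∪ ni).card : ℝ) := by exact_mod_cast h2
  linarith

/-- integers which are congruent modulo `4 H` and close are equal -/
theorem eq_of_cong {H : ℕ} {a b : ℤ} (h : (a : ZMod (4 * H)) = (b : ZMod (4 * H)))
    (hab : |b - a| < 4 * H) : a = b := by
  rw [ZMod.intCast_eq_intCast_iff_dvd_sub] at h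
  obtain ⟨c, hc⟩ := h
  push_cast at hc
  have hc0 : c = 0 := by
    by_contra hne
    have : 1 ≤ |c| := Int.one_le_abs hne
    rw [hc, abs_mul, abs_of_nonneg (by positivity : (0 : ℤ) ≤ 4 * H)] at hab
    have h0 : (0 : ℤ) ≤ 4 * H := by positivity
    nlinarith
  rw [hc0] at hc
  linarith

theorem ret_eq_card {G : Type} [AddCommGroup G] [Fintype G] [DecidableEq G] {k : ℕ} (A : Finset G)
    (h : Fin k → G) : ret A h = ((univ.filter (fun x => x ∈ A ∧ ∀ i, x + h i ∈ A)).card : ℝ) := by
  unfold ret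
  rw [card_filter]
  push_cast
  refine sum_congr rfl fun x _ => ?_
  by_cases hx : x ∈ A
  · by_cases h2 : ∀ i, x + h i ∈ A
    · have : ∀ i, ind A (x + h i) = 1 := fun i => by unfold ind; rw [if_pos (h2 i)]
      simp [ind, hx, h2]
    · push Not at h2
      obtain ⟨i, hi⟩ := h2
      have h3 : ∏ i, ind A (x + h i) = 0 := by
        apply prod_eq_zero (mem_univ i)
        unfold ind; rw [if_neg hi]
      rw [h3, mul_zero, if_neg]
      exact fun hc => hi (hc.2 i)
  · simp [ind, hx]

open Classical in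
/-- **vectors in Bohr sets**: if almost all tuples of a dense set `A` of integers have a
translation invariant property, then it holds for almost all vectors in a Bohr set, together with
all their images under the nonsingular integer matrices with small entries -/
theorem returnsZ (k s : ℕ) (α : ℝ) (hα : 0 < α) (ε : ℝ) (hε : 0 < ε) :
    ∃ (d H₀ : ℕ) (ρ δ ε' : ℝ), 0 < ρ ∧ 0 < δ ∧ 0 < ε' ∧ ∀ H : ℕ, H₀ ≤ H → ∀ A : Finset ℤ,
      A ⊆ Ico 0 (H : ℤ) → α * H ≤ A.card → ∃ (Θ : Finset ℝ) (r : ℝ), Θ.card ≤ d ∧ ρ ≤ r ∧ r ≤ 1 ∧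
      δ * H ≤ (Bz Θ r H).card ∧ ∀ P : (Fin (k + 1) → ℤ) → Prop,
      (((Fintype.piFinset (fun _ : Fin (k + 1) => A)).filter (fun t => Function.Injective t ∧
        ¬ P (fun i => t i - t 0))).card : ℝ) ≤ ε' * (H : ℝ) ^ (k + 1) →
      (((Fintype.piFinset (fun _ : Fin k => Bz Θ r H)).filter (fun y =>
        ¬ ∀ T ∈ Mats k s, T.det ≠ 0 →
          Function.Injective (nv (T.mulVec y)) ∧ P (nv (T.mulVec y)))).card : ℝ) ≤
        ε * ((Bz Θ r H).card : ℝ) ^ k := by
  set K : ℕ := k * s + 1 with hK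
  have hK1 : 1 ≤ K := by omega
  have hKr : (0 : ℝ) < K := by exact_mod_cast hK1
  set τs : ℝ := ((Mats k s).card : ℝ) with hτs
  have hτs0 : 0 < τs := by
    rw [hτs, Mats_card]
    push_cast
    positivity
  set ε₁ : ℝ := ε / (2 * τs) with hε₁
  have hε₁0 : 0 < ε₁ := by positivity
  have hε₂ : τs * (2 * ε₁) = ε := by
    rw [hε₁]
    field_simp
  obtain ⟨d, ρ, hρ, hρ1, hret⟩ := returns k K hK1 (α / 4) (by positivity) ε₁ hε₁0
  set c : ℝ := (α / 4) ^ (k + 1) / 4 with hc
  have hc0 : 0 < c := by positivity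
  obtain ⟨δ, hδ, hδ1, hcard⟩ := bohr_card d (ρ / K) (by positivity)
  set ε' : ℝ := ε₁ * (4 * c) * δ ^ k / 2 with hε'
  have hε'0 : 0 < ε' := by positivity
  obtain ⟨H₁, hH₁⟩ := exists_nat_ge (((k : ℝ) + 1) ^ 2 / ε')
  refine ⟨d, max 1 H₁, ρ / K, δ, ε', by positivity, hδ, hε'0, ?_⟩
  intro H hH A hA hAα
  have hH1 : 1 ≤ H := (le_max_left _ _).trans hH
  have hH0 : (0 : ℝ) < H := by exact_mod_cast hH1
  have : NeZero (4 * H) := ⟨by omega⟩
  have hHb : ((k : ℝ) + 1) ^ 2 ≤ ε' * H := by
    have h1 : ((k : ℝ) + 1) ^ 2 / ε' ≤ H :=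
      hH₁.trans (by exact_mod_cast (le_max_right _ _).trans hH)
    rw [div_le_iff₀ hε'0] at h1
    linarith
  set A' : Finset (ZMod (4 * H)) := A.image (Int.cast : ℤ → ZMod (4 * H)) with hA'
  have hAinj : Set.InjOn (Int.cast : ℤ → ZMod (4 * H)) A := by
    intro a ha b hb hab
    apply eq_of_cong hab
    have ha' := mem_Ico.1 (hA ha)
    have hb' := mem_Ico.1 (hA hb)
    rw [abs_lt]
    constructor <;> linarith [ha'.1, ha'.2, hb'.1, hb'.2]
  have hA'c : A'.card = A.card := card_image_of_injOn hAinj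
  have hQ : (Fintype.card (ZMod (4 * H)) : ℝ) = 4 * H := by
    rw [ZMod.card]; push_cast; ring
  obtain ⟨Γ, r₀, hΓ0, hΓc, hr₀, hr₀1, hZ⟩ := hret (ZMod (4 * H)) A' ZMod.stdAddChar (by
    rw [hQ, hA'c]; linarith)
  have hr₀0 : 0 < r₀ := hρ.trans_le hr₀
  set r : ℝ := r₀ / K with hr
  have hr0 : 0 < r := by positivity
  have hK1r : (1 : ℝ) ≤ K := by exact_mod_cast hK1
  have hrr₀ : r ≤ r₀ := by
    rw [hr, div_le_iff₀ hKr]
    nlinarith
  have hr1 : r ≤ 1 := hrr₀.trans hr₀1
  obtain ⟨hB1, hB2, hB3⟩ := bohr_Bz hH1 Γ hΓ0 hr1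
  set Θ := Γ.image frq with hΘ
  set B := Bz Θ r H with hB
  have hBc : (bohr Γ r).card = B.card := by
    rw [hB1]; exact card_image_of_injOn hB2
  have hBδ : δ * H ≤ B.card := by
    rw [← hBc]
    have h1 := hcard (ZMod (4 * H)) Γ hΓc
    rw [hQ] at h1
    have h2 : ((bohr Γ (ρ / K)).card : ℝ) ≤ ((bohr Γ r).card : ℝ) := by
      have h3 : bohr Γ (ρ / K) ⊆ bohr Γ r := bohr_mono (by
        rw [hr]; gcongr)
      exact_mod_cast card_le_card h3
    nlinarith
  refine ⟨Θ, r, card_image_le.trans hΓc, by rw [hr]; gcongr, hr1, hBδ, ?_⟩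
  intro P hP
  set Y := Fintype.piFinset (fun _ : Fin k => B) with hY
  have hYc : (Y.card : ℝ) = (B.card : ℝ) ^ k := by
    rw [hY, Fintype.card_piFinset, prod_const, card_univ, Fintype.card_fin]
    push_cast
    rfl
  set Φ : Matrix (Fin k) (Fin k) ℤ → (Fin k → ℤ) → (Fin k → ZMod (4 * H)) :=
    fun T y i => ((T.mulVec y i : ℤ) : ZMod (4 * H)) with hΦ
  have hKr1 : (k : ℝ) * s ≤ K := by rw [hK]; push_cast; linarith
  -- sizes
  have hsize : ∀ T ∈ Mats k s, ∀ y ∈ Y, ∀ i, |T.mulVec y i| ≤ (H : ℤ) := by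
    intro T hT y hy i
    rw [mem_Mats] at hT
    rw [hY, Fintype.mem_piFinset] at hy
    have h1 : |((T.mulVec y i : ℤ) : ℝ)| ≤ H := by
      have e : ((T.mulVec y i : ℤ) : ℝ) = ∑ j, (T i j : ℝ) * (y j : ℝ) := by
        unfold Matrix.mulVec dotProduct
        push_cast
        rfl
      rw [e]
      calc |∑ j, (T i j : ℝ) * (y j : ℝ)| ≤ ∑ j, |(T i j : ℝ) * (y j : ℝ)| := abs_sum_le_sum_abs _ _
        _ ≤ ∑ _j : Fin k, (s : ℝ) * (r * H) := by
            refine sum_le_sum fun j _ => ?_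
            rw [abs_mul]
            have h2 : |(T i j : ℝ)| ≤ s := by exact_mod_cast hT i j
            exact mul_le_mul h2 (hB3 _ (hy j)) (abs_nonneg _) (Nat.cast_nonneg _)
        _ = (k * s) * r * H := by
            rw [sum_const, card_univ, Fintype.card_fin, nsmul_eq_mul]; ring
        _ ≤ K * r * H := by gcongr
        _ = r₀ * H := by rw [hr]; field_simp
        _ ≤ 1 * H := by gcongr
        _ = H := one_mul _
    exact_mod_cast h1
  have hΦinj : ∀ T ∈ Mats k s, T.det ≠ 0 → Set.InjOn (Φ T) Y := by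
    intro T hT hdet y hy y' hy' h
    apply mulVec_inj hdet
    funext i
    have h1 := congrFun h i
    simp only [hΦ] at h1
    apply eq_of_cong h1
    have h2 := hsize T hT y hy i
    have h3 := hsize T hT y' hy' i
    rw [abs_le] at h2 h3
    have : (0 : ℤ) < H := by exact_mod_cast hH1
    rw [abs_lt]
    constructor <;> linarith [h2.1, h2.2, h3.1, h3.2]
  have hΦmem : ∀ T ∈ Mats k s, ∀ y ∈ Y, ∀ i, Φ T y i ∈ bohr Γ r₀ := by
    intro T hT y hy i
    rw [mem_Mats] at hT
    rw [hY, Fintype.mem_piFinset] at hy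
    rw [mem_bohr]
    intro ψ hψ
    have hyb : ∀ j, ((y j : ℤ) : ZMod (4 * H)) ∈ bohr Γ r := by
      intro j
      rw [hB1]
      exact mem_image_of_mem _ (hy j)
    have e : Φ T y i = ∑ j, (T i j) • ((y j : ℤ) : ZMod (4 * H)) := by
      simp only [hΦ, Matrix.mulVec, dotProduct]
      push_cast
      refine sum_congr rfl fun j _ => ?_
      rw [zsmul_eq_mul]
    rw [e]
    refine (sum_bohr (fun j => (T i j) • ((y j : ℤ) : ZMod (4 * H))) (fun _ => (s : ℝ) * r)
      (fun j => (zsmul_bohr (hyb j) (T i j) hψ).trans ?_)).trans ?_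
    · have h2 : |(T i j : ℝ)| ≤ s := by exact_mod_cast hT i j
      exact mul_le_mul_of_nonneg_right h2 hr0.le
    · rw [sum_const, card_univ, Fintype.card_fin, nsmul_eq_mul]
      calc (k : ℝ) * (s * r) = (k * s) * r := by ring
        _ ≤ K * r := by gcongr
        _ = r₀ := by rw [hr]; field_simp
  -- returns in the integers
  have hretle : ∀ T ∈ Mats k s, ∀ y ∈ Y, ret A' (Φ T y) ≤
      ((A.filter (fun x => ∀ i, x + (T.mulVec y) i ∈ A)).card : ℝ) := by
    intro T hT y hy
    rw [ret_eq_card, Nat.cast_le]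
    have hsub : univ.filter (fun x => x ∈ A' ∧ ∀ i, x + Φ T y i ∈ A') ⊆
        (A.filter (fun x => ∀ i, x + (T.mulVec y) i ∈ A)).image (Int.cast : ℤ → ZMod (4 * H)) := by
      intro x hx
      rw [mem_filter] at hx
      obtain ⟨-, hx1, hx2⟩ := hx
      obtain ⟨a, ha, rfl⟩ := mem_image.1 hx1
      rw [mem_image]
      refine ⟨a, mem_filter.2 ⟨ha, fun i => ?_⟩, rfl⟩
      obtain ⟨a', ha', haa⟩ := mem_image.1 (hx2 i)
      have h1 : ((a' : ℤ) : ZMod (4 * H)) = ((a + T.mulVec y i : ℤ) : ZMod (4 * H)) := by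
        rw [haa]; simp only [hΦ]; push_cast; rfl
      have h2 : a' = a + T.mulVec y i := by
        apply eq_of_cong h1
        have h3 := hsize T hT y hy i
        rw [abs_le] at h3
        have ha1 := mem_Ico.1 (hA ha)
        have ha2 := mem_Ico.1 (hA ha')
        rw [abs_lt]
        constructor <;> linarith [h3.1, h3.2, ha1.1, ha1.2, ha2.1, ha2.2]
      rw [← h2]; exact ha'
    exact (card_le_card hsub).trans card_image_le
  -- the two kinds of bad vectors
  set F : Matrix (Fin k) (Fin k) ℤ → Finset (Fin k → ℤ) := fun T =>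
    Y.filter (fun y => ret A' (Φ T y) < c * Fintype.card (ZMod (4 * H))) with hF
  set W : Matrix (Fin k) (Fin k) ℤ → Finset (Fin k → ℤ) := fun T =>
    Y.filter (fun y => c * Fintype.card (ZMod (4 * H)) ≤ ret A' (Φ T y) ∧
      ¬ (Function.Injective (nv (T.mulVec y)) ∧ P (nv (T.mulVec y)))) with hW
  have hFc : ∀ T ∈ Mats k s, T.det ≠ 0 → ((F T).card : ℝ) ≤ ε₁ * (B.card : ℝ) ^ k := by
    intro T hT hdet
    have h1 := hZ (Y.image (Φ T)) (by
      intro h hh i
      obtain ⟨y, hy, rfl⟩ := mem_image.1 hh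
      exact hΦmem T hT y hy i) (by
      rw [card_image_of_injOn (hΦinj T hT hdet), hYc, hBc])
    rw [card_image_of_injOn (hΦinj T hT hdet), hYc] at h1
    refine le_trans ?_ h1
    rw [Nat.cast_le]
    apply card_le_card_of_injOn (Φ T)
    · intro y hy
      rw [mem_coe, hF, mem_filter] at hy
      rw [mem_coe, mem_filter]
      exact ⟨mem_image_of_mem _ hy.1, hy.2⟩
    · intro y hy y' hy' h
      exact hΦinj T hT hdet (mem_filter.1 hy).1 (mem_filter.1 hy').1 h
  have hAc : (A.card : ℝ) ≤ H := by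
    have := card_le_card hA
    rw [Int.card_Ico] at this
    have h2 : ((H : ℤ) - 0).toNat = H := by omega
    rw [h2] at this
    exact_mod_cast this
  have hWc : ∀ T ∈ Mats k s, T.det ≠ 0 → ((W T).card : ℝ) ≤ ε₁ * (B.card : ℝ) ^ k := by
    intro T hT hdet
    have h1 := bad_count A P T hdet (W T) (c * Fintype.card (ZMod (4 * H)))
      (ε' * (H : ℝ) ^ (k + 1)) H hAc hP (by
        intro y hy
        rw [hW, mem_filter] at hy
        exact ⟨hy.2.1.trans (hretle T hT y hy.1), hy.2.2⟩)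
    rw [hQ] at h1
    have h2 : ((k : ℝ) + 1) ^ 2 * (H : ℝ) ^ k ≤ ε' * (H : ℝ) ^ (k + 1) := by
      calc ((k : ℝ) + 1) ^ 2 * (H : ℝ) ^ k ≤ (ε' * H) * (H : ℝ) ^ k := by gcongr
        _ = _ := by ring
    have h3 : δ ^ k * (H : ℝ) ^ k ≤ (B.card : ℝ) ^ k := by
      rw [← mul_pow]
      exact pow_le_pow_left₀ (by positivity) hBδ k
    have h4 : c * (4 * H) * ((W T).card : ℝ) ≤ c * (4 * H) * (ε₁ * (B.card : ℝ) ^ k) := by
      calc c * (4 * H) * ((W T).card : ℝ) ≤ 2 * (ε' * (H : ℝ) ^ (k + 1)) := by linarith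
        _ = c * (4 * H) * (ε₁ * (δ ^ k * (H : ℝ) ^ k)) := by rw [hε']; ring
        _ ≤ _ := by gcongr
    exact le_of_mul_le_mul_left h4 (by positivity)
  have hsub : Y.filter (fun y => ¬ ∀ T ∈ Mats k s, T.det ≠ 0 →
      Function.Injective (nv (T.mulVec y)) ∧ P (nv (T.mulVec y))) ⊆
      ((Mats k s).filter (fun T => T.det ≠ 0)).biUnion (fun T => F T ∪ W T) := by
    intro y hy
    rw [mem_filter] at hy
    obtain ⟨hy1, hy2⟩ := hy
    push Not at hy2
    obtain ⟨T, hT, hdet, hTy⟩ := hy2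
    rw [mem_biUnion]
    refine ⟨T, mem_filter.2 ⟨hT, hdet⟩, ?_⟩
    rw [mem_union]
    by_cases hlt : ret A' (Φ T y) < c * Fintype.card (ZMod (4 * H))
    · left
      exact mem_filter.2 ⟨hy1, hlt⟩
    · right
      push Not at hlt
      exact mem_filter.2 ⟨hy1, hlt, fun hc' => hTy hc'.1 hc'.2⟩
  have h1 : ((Y.filter (fun y => ¬ ∀ T ∈ Mats k s, T.det ≠ 0 →
      Function.Injective (nv (T.mulVec y)) ∧ P (nv (T.mulVec y)))).card : ℝ) ≤
      ∑ T ∈ (Mats k s).filter (fun T => T.det ≠ 0), (((F T).card : ℝ) + (W T).card) := by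
    have h2 := (card_le_card hsub).trans (card_biUnion_le.trans
      (sum_le_sum fun T _ => card_union_le _ _))
    exact_mod_cast h2
  calc _ ≤ _ := h1
    _ ≤ ∑ _T ∈ (Mats k s).filter (fun T => T.det ≠ 0), (2 * ε₁ * (B.card : ℝ) ^ k) := by
        refine sum_le_sum fun T hT => ?_
        rw [mem_filter] at hT
        linarith [hFc T hT.1 hT.2, hWc T hT.1 hT.2]
    _ = (((Mats k s).filter (fun T => T.det ≠ 0)).card : ℝ) * (2 * ε₁ * (B.card : ℝ) ^ k) := by
        rw [sum_const, nsmul_eq_mul]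
    _ ≤ τs * (2 * ε₁ * (B.card : ℝ) ^ k) := by
        have h2 : (((Mats k s).filter (fun T => T.det ≠ 0)).card : ℝ) ≤ τs := by
          rw [hτs]; exact_mod_cast card_filter_le _ _
        exact mul_le_mul_of_nonneg_right h2 (by positivity)
    _ = (τs * (2 * ε₁)) * (B.card : ℝ) ^ k := by ring
    _ = ε * (B.card : ℝ) ^ k := by rw [hε₂]

end Pool.Agent.N646.AC
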