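import Mathlib
import Pool.Agent.N646.AC.Fin
import Pool.Agent.N646.AC.Vec

/-!
Shifts: almost all vectors in a Bohr set of bounded rank are vectors of shifts for which all
patterns of primes and composites occur.
-/

set_option autoImplicit false

namespace Pool.Agent.N646.AC

open Finset Filter Topology
open Pool.Agent.Y827.LS
open Pool.Agent.Y827.GS
open Pool.Agent.Y827.RO
open Pool.Agent.Y827.HD

/-- all patterns of primes and composites occur for the shifts `M h_0, …, M h_k` -/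
def PP {k : ℕ} (M C N : ℕ) (h : Fin (k + 1) → ℤ) : Prop :=
  ∀ J : Finset (Fin (k + 1)), (N : ℝ) / (Real.log N) ^ C ≤
    (((Icc 1 (2 * N)).filter (fun n : ℕ => ∀ i, ((n : ℤ) + M * h i).toNat.Prime ↔ i ∈ J)).card : ℝ)

/-- the form `n + M x` -/
def sf (M : ℕ) (x : ℤ) : ℤ × ℤ := (1, M * x)

theorem sf_inj {M : ℕ} (hM : 1 ≤ M) : Function.Injective (sf M) := by
  intro x y h
  unfold sf at h
  have h1 := (Prod.mk.inj h).2
  have h2 : (M : ℤ) ≠ 0 := by positivity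
  exact mul_left_cancel₀ h2 h1

theorem shift_AllP {k M C N : ℕ} {t : Fin (k + 1) → ℤ} (h0 : 0 ≤ t 0) (h1 : M * t 0 ≤ N)
    (h : AllP C N (fun i => sf M (t i))) : PP M C N (fun i => t i - t 0) := by
  intro J
  refine (h J).trans ?_
  unfold pat
  rw [Nat.cast_le]
  have hM0 : (0 : ℤ) ≤ M * t 0 := by positivity
  apply card_le_card_of_injOn (fun n : ℕ => n + (M * t 0).toNat)
  · intro n hn
    rw [mem_coe, mem_filter, mem_Icc] at hn
    rw [mem_coe, mem_filter, mem_Icc]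
    obtain ⟨⟨hn1, hn2⟩, hn3⟩ := hn
    have hb : (M * t 0).toNat ≤ N := by omega
    refine ⟨⟨le_trans hn1 (Nat.le_add_right _ _), ?_⟩, fun i => ?_⟩
    · have := Nat.add_le_add hn2 hb
      rw [two_mul]
      exact this
    have e : (((n + (M * t 0).toNat : ℕ) : ℤ) + M * (t i - t 0)) =
        (sf M (t i)).1 * (n : ℤ) + (sf M (t i)).2 := by
      unfold sf
      push_cast
      rw [Int.toNat_of_nonneg hM0]
      ring
    rw [e]
    exact hn3 i
  · intro a _ b _ hab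
    simpa using hab

theorem sum_rare {m : ℕ} (V : Finset (ℤ × ℤ)) (U : Fin m → Finset (ℤ × ℤ)) (hU : ∀ j, U j ⊆ V)
    (s e : ℝ) (hs : 0 ≤ s) (h : ((rare V U s).card : ℝ) ≤ e * V.card) :
    s * m * ((1 - e) * V.card) ≤ ∑ j, ((U j).card : ℝ) := by
  classical
  have e1 : ∑ j, ((U j).card : ℝ) = ∑ v ∈ V, ((univ.filter (fun j => v ∈ U j)).card : ℝ) := by
    have h1 : ∀ j, ((U j).card : ℝ) = ∑ v ∈ V, if v ∈ U j then (1 : ℝ) else 0 := by
      intro j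
      rw [← sum_filter, sum_const, nsmul_eq_mul, mul_one]
      congr 2
      ext v
      rw [mem_filter]
      exact ⟨fun hv => ⟨hU j hv, hv⟩, fun hv => hv.2⟩
    rw [sum_congr rfl (fun j _ => h1 j), sum_comm]
    refine sum_congr rfl fun v _ => ?_
    rw [← sum_filter, sum_const, nsmul_eq_mul, mul_one]
  rw [e1]
  have h2 : ∑ v ∈ V \ rare V U s, ((univ.filter (fun j => v ∈ U j)).card : ℝ) ≤
      ∑ v ∈ V, ((univ.filter (fun j => v ∈ U j)).card : ℝ) :=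
    sum_le_sum_of_subset_of_nonneg sdiff_subset fun _ _ _ => Nat.cast_nonneg _
  refine le_trans ?_ h2
  have h3 : ∀ v ∈ V \ rare V U s, s * m ≤ ((univ.filter (fun j => v ∈ U j)).card : ℝ) := by
    intro v hv
    rw [Finset.mem_sdiff] at hv
    by_contra hcon
    push Not at hcon
    apply hv.2
    unfold rare
    rw [mem_filter]
    exact ⟨hv.1, hcon⟩
  have h4 : s * m * ((V \ rare V U s).card : ℝ) ≤
      ∑ v ∈ V \ rare V U s, ((univ.filter (fun j => v ∈ U j)).card : ℝ) := by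
    calc s * m * ((V \ rare V U s).card : ℝ) = ∑ _v ∈ V \ rare V U s, s * m := by
          rw [sum_const, nsmul_eq_mul]; ring
      _ ≤ _ := sum_le_sum h3
  refine le_trans ?_ h4
  have h5 : ((V \ rare V U s).card : ℝ) + (rare V U s).card = V.card := by
    have h6 : rare V U s ⊆ V := by unfold rare; exact filter_subset _ _
    exact_mod_cast card_sdiff_add_card_eq_card h6
  have h6 : (1 - e) * (V.card : ℝ) ≤ ((V \ rare V U s).card : ℝ) := by linarith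
  exact mul_le_mul_of_nonneg_left h6 (by positivity)

open Classical in
theorem covB (k s : ℕ) (ε : ℝ) (hε : 0 < ε) : ∃ (M d n₀ C : ℕ) (ρ δ : ℝ), 1 ≤ M ∧ 0 < ρ ∧ 0 < δ ∧
    ∀ᶠ N : ℕ in atTop, ∀ H : ℕ, n₀ ≤ H → M * H ≤ N → ∃ (Θ : Finset ℝ) (r : ℝ), Θ.card ≤ d ∧
      ρ ≤ r ∧ r ≤ 1 ∧ δ * H ≤ (Bz Θ r H).card ∧
      (((Fintype.piFinset (fun _ : Fin k => Bz Θ r H)).filter (fun y =>
        ¬ ∀ T ∈ Mats k s, T.det ≠ 0 →
          Function.Injective (nv (T.mulVec y)) ∧ PP M C N (nv (T.mulVec y)))).card : ℝ) ≤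
        ε * ((Bz Θ r H).card : ℝ) ^ k := by
  obtain ⟨d, H₀, ρ, δ, ε', hρ, hδ, hε', hret⟩ := returnsZ k s (1 / 5) (by norm_num) ε hε
  obtain ⟨z, n₀, C, m, hm, hcov⟩ := covU k (min ε' (1 / 100)) (by positivity)
  set M : ℕ := z.factorial with hM
  have hM1 : 1 ≤ M := Nat.factorial_pos z
  refine ⟨M, d, max (max H₀ n₀) 1, C, ρ, δ, hM1, hρ, hδ, ?_⟩
  filter_upwards [hcov 1, eventually_ge_atTop 1] with N hN hN1 H hH hMH
  have hHH₀ : H₀ ≤ H := (le_max_left _ _).trans ((le_max_left _ _).trans hH)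
  have hHn₀ : n₀ ≤ H := (le_max_right _ _).trans ((le_max_left _ _).trans hH)
  have hH1 : 1 ≤ H := (le_max_right _ _).trans hH
  have hHr : (0 : ℝ) < H := by exact_mod_cast hH1
  set V : Finset (ℤ × ℤ) := (Ico 0 (H : ℤ)).image (sf M) with hV
  have hVc : V.card = H := by
    rw [hV, card_image_of_injective _ (sf_inj hM1), Int.card_Ico]
    omega
  have hNr : (0 : ℝ) < N := by exact_mod_cast hN1
  have hMx : ∀ x ∈ Ico 0 (H : ℤ), 0 ≤ (M : ℤ) * x ∧ (M : ℤ) * x ≤ N := by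
    intro x hx
    rw [mem_Ico] at hx
    refine ⟨mul_nonneg (by positivity) hx.1, ?_⟩
    calc (M : ℤ) * x ≤ M * H := by
          apply mul_le_mul_of_nonneg_left hx.2.le (by positivity)
      _ ≤ N := by exact_mod_cast hMH
  obtain ⟨U, hU1, hU2⟩ := hN V (by
    intro f hf
    obtain ⟨x, hx, rfl⟩ := mem_image.1 hf
    obtain ⟨h1, h2⟩ := hMx x hx
    unfold Adf sf
    refine ⟨one_ne_zero, by simp, ?_, ?_, ?_⟩
    · rw [abs_of_nonneg h1]; exact h2
    · exact isCoprime_one_left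
    · intro t ht1 ht2
      have h3 : (0 : ℝ) ≤ ((M * x : ℤ) : ℝ) := by exact_mod_cast h1
      push_cast at h3 ⊢
      linarith) (by
    intro p hp hpp
    refine ⟨1, ?_⟩
    intro f hf
    obtain ⟨x, hx, rfl⟩ := mem_image.1 hf
    unfold sf
    intro hdvd
    have h1 : (p : ℤ) ∣ M := by exact_mod_cast (Nat.dvd_factorial hpp.pos hp)
    have h2 : (p : ℤ) ∣ 1 := by
      have h3 : (p : ℤ) ∣ M * x := h1.mul_right x
      have h4 := dvd_sub hdvd h3
      simpa using h4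
    have h3 : p ∣ 1 := by exact_mod_cast h2
    exact hpp.one_lt.ne' (Nat.dvd_one.1 h3)) (by rw [hVc]; exact hHn₀)
  -- a dense almost complete set
  obtain ⟨j, hj⟩ : ∃ j, (1 / 5 : ℝ) * H ≤ ((U j).card : ℝ) := by
    by_contra hcon
    push Not at hcon
    have hmm : min ε' (1 / 100) ≤ 1 / 100 := min_le_right _ _
    have h1 := sum_rare V U (fun j => (hU1 j).1) (5 / 18 - min ε' (1 / 100)) (min ε' (1 / 100))
      (by linarith) hU2
    rw [hVc] at h1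
    have hm0 : (0 : ℝ) < m := by exact_mod_cast hm
    have h2 : ∑ j, ((U j).card : ℝ) ≤ ∑ _j : Fin m, (1 / 5 : ℝ) * H :=
      sum_le_sum fun j _ => (hcon j).le
    rw [sum_const, card_univ, Fintype.card_fin, nsmul_eq_mul] at h2
    have h3 : (26 / 100 : ℝ) ≤ (5 / 18 - min ε' (1 / 100)) * (1 - min ε' (1 / 100)) := by
      have h4 : 0 < min ε' (1 / 100) := by positivity
      nlinarith
    have h4 : (26 / 100 : ℝ) * (m * H) ≤ (5 / 18 - min ε' (1 / 100)) * m *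
        ((1 - min ε' (1 / 100)) * H) := by
      calc (26 / 100 : ℝ) * (m * H) ≤
          ((5 / 18 - min ε' (1 / 100)) * (1 - min ε' (1 / 100))) * (m * H) :=
            mul_le_mul_of_nonneg_right h3 (by positivity)
        _ = _ := by ring
    have h5 : 0 < (m : ℝ) * H := by positivity
    nlinarith
  set A : Finset ℤ := (Ico 0 (H : ℤ)).filter (fun x => sf M x ∈ U j) with hA
  have hAU : A.image (sf M) = U j := by
    ext f
    rw [mem_image]
    constructor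
    · rintro ⟨x, hx, rfl⟩
      exact (mem_filter.1 hx).2
    · intro hf
      obtain ⟨x, hx, rfl⟩ := mem_image.1 ((hU1 j).1 hf)
      exact ⟨x, mem_filter.2 ⟨hx, hf⟩, rfl⟩
  have hAc : A.card = (U j).card := by
    rw [← hAU, card_image_of_injective _ (sf_inj hM1)]
  obtain ⟨Θ, r, h1, h2, h3, h4, h5⟩ := hret H hHH₀ A (filter_subset _ _) (by rw [hAc]; exact hj)
  refine ⟨Θ, r, h1, h2, h3, h4, h5 (PP M C N) ?_⟩
  -- the exceptional tuples
  have h6 : ((Fintype.piFinset (fun _ : Fin (k + 1) => A)).filter (fun t => Function.Injective t ∧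
      ¬ PP M C N (fun i => t i - t 0))).card ≤ (exc (k := k) (U j) (AllP C N)).card := by
    apply card_le_card_of_injOn (fun t => fun i => sf M (t i))
    · intro t ht
      rw [mem_coe, mem_filter, Fintype.mem_piFinset] at ht
      rw [mem_coe, mem_exc]
      obtain ⟨g1, g2, g3⟩ := ht
      refine ⟨fun i => (mem_filter.1 (g1 i)).2, (sf_inj hM1).comp g2, fun hP => g3 ?_⟩
      have hx := (mem_filter.1 (g1 0)).1
      exact shift_AllP (mem_Ico.1 hx).1 (hMx _ hx).2 hP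
    · intro t _ t' _ h
      funext i
      exact sf_inj hM1 (congrFun h i)
  have hUH : ((U j).card : ℝ) ≤ H := by
    rw [← hVc]
    exact_mod_cast card_le_card (hU1 j).1
  calc (((Fintype.piFinset (fun _ : Fin (k + 1) => A)).filter (fun t => Function.Injective t ∧
      ¬ PP M C N (fun i => t i - t 0))).card : ℝ) ≤ ((exc (k := k) (U j) (AllP C N)).card : ℝ) := by
        exact_mod_cast h6
    _ ≤ min ε' (1 / 100) * ((U j).card : ℝ) ^ (k + 1) := (hU1 j).2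
    _ ≤ ε' * (H : ℝ) ^ (k + 1) := by
        have := min_le_left ε' (1 / 100)
        gcongr

open Classical in
/-- the final form -/
theorem covBF (k s : ℕ) (ε : ℝ) (hε : 0 < ε) : ∃ (M d n₀ C : ℕ) (ρ δ : ℝ), 1 ≤ M ∧ 0 < ρ ∧ 0 < δ ∧
    (∀ᶠ N : ℕ in atTop, ∀ H : ℕ, n₀ ≤ H → M * H ≤ N → ∃ (Θ : Finset ℝ) (r : ℝ), Θ.card ≤ d ∧
      ρ ≤ r ∧ r ≤ 1 ∧ δ * H ≤ (Bz Θ r H).card ∧
      ∃ 𝒢 ⊆ Fintype.piFinset (fun _ : Fin k => Bz Θ r H),
        (((Fintype.piFinset (fun _ : Fin k => Bz Θ r H)) \ 𝒢).card : ℝ) ≤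
          ε * ((Bz Θ r H).card : ℝ) ^ k ∧
        ∀ y ∈ 𝒢, ∀ T : Matrix (Fin k) (Fin k) ℤ, (∀ i j, |T i j| ≤ s) → T.det ≠ 0 →
          PP M C N (nv (T.mulVec y))) ∧
    (∀ H : ℕ, n₀ ≤ H → ∃ (Θ : Finset ℝ) (r : ℝ), Θ.card ≤ d ∧
      ρ ≤ r ∧ r ≤ 1 ∧ δ * H ≤ (Bz Θ r H).card ∧
      ∃ 𝒢 ⊆ Fintype.piFinset (fun _ : Fin k => Bz Θ r H),
        (((Fintype.piFinset (fun _ : Fin k => Bz Θ r H)) \ 𝒢).card : ℝ) ≤
          ε * ((Bz Θ r H).card : ℝ) ^ k ∧
        ∃ᶠ N : ℕ in atTop,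
          ∀ y ∈ 𝒢, ∀ T : Matrix (Fin k) (Fin k) ℤ, (∀ i j, |T i j| ≤ s) → T.det ≠ 0 →
            PP M C N (nv (T.mulVec y))) := by
  obtain ⟨M, d, n₀, C, ρ, δ, hM, hρ, hδ, h⟩ := covB k s ε hε
  have key : ∀ᶠ N : ℕ in atTop, ∀ H : ℕ, n₀ ≤ H → M * H ≤ N → ∃ (Θ : Finset ℝ) (r : ℝ), Θ.card ≤ d ∧
      ρ ≤ r ∧ r ≤ 1 ∧ δ * H ≤ (Bz Θ r H).card ∧
      ∃ 𝒢 ⊆ Fintype.piFinset (fun _ : Fin k => Bz Θ r H),
        (((Fintype.piFinset (fun _ : Fin k => Bz Θ r H)) \ 𝒢).card : ℝ) ≤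
          ε * ((Bz Θ r H).card : ℝ) ^ k ∧
        ∀ y ∈ 𝒢, ∀ T : Matrix (Fin k) (Fin k) ℤ, (∀ i j, |T i j| ≤ s) → T.det ≠ 0 →
          PP M C N (nv (T.mulVec y)) := by
    filter_upwards [h] with N hN H hH hMH
    obtain ⟨Θ, r, h1, h2, h3, h4, h5⟩ := hN H hH hMH
    refine ⟨Θ, r, h1, h2, h3, h4, (Fintype.piFinset (fun _ : Fin k => Bz Θ r H)).filter (fun y =>
        ∀ T ∈ Mats k s, T.det ≠ 0 →
          Function.Injective (nv (T.mulVec y)) ∧ PP M C N (nv (T.mulVec y))), filter_subset _ _,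
          ?_, ?_⟩
    · refine le_trans ?_ h5
      rw [Nat.cast_le]
      apply card_le_card
      intro y hy
      rw [Finset.mem_sdiff, mem_filter] at hy
      rw [mem_filter]
      exact ⟨hy.1, fun hc => hy.2 ⟨hy.1, hc⟩⟩
    · intro y hy T hT hdet
      exact ((mem_filter.1 hy).2 T (mem_Mats.2 hT) hdet).2
  refine ⟨M, d, n₀, C, ρ, δ, hM, hρ, hδ, key, ?_⟩
  intro H hH
  have hev : ∀ᶠ N : ℕ in atTop, ∃ p ∈ (Icc (-(H : ℤ)) H).powerset ×ˢ
      (Fintype.piFinset (fun _ : Fin k => Icc (-(H : ℤ)) H)).powerset,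
      (∃ (Θ : Finset ℝ) (r : ℝ), Θ.card ≤ d ∧
      ρ ≤ r ∧ r ≤ 1 ∧ δ * H ≤ (Bz Θ r H).card ∧ Bz Θ r H = p.1 ∧
        p.2 ⊆ Fintype.piFinset (fun _ : Fin k => p.1) ∧
        (((Fintype.piFinset (fun _ : Fin k => p.1)) \ p.2).card : ℝ) ≤ ε * (p.1.card : ℝ) ^ k) ∧
        ∀ y ∈ p.2, ∀ T : Matrix (Fin k) (Fin k) ℤ, (∀ i j, |T i j| ≤ s) → T.det ≠ 0 →
          PP M C N (nv (T.mulVec y)) := by
    filter_upwards [key, eventually_ge_atTop (M * H)] with N hN hNM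
    obtain ⟨Θ, r, h1, h2, h3, h4, 𝒢, h5, h6, h7⟩ := hN H hH hNM
    have hsub : Bz Θ r H ⊆ Icc (-(H : ℤ)) H := by
      intro b hb
      exact mem_Icc.2 (mem_Bz.1 hb).1
    refine ⟨(Bz Θ r H, 𝒢), ?_, ⟨Θ, r, h1, h2, h3, h4, rfl, h5, h6⟩, h7⟩
    rw [mem_product]
    refine ⟨mem_powerset.2 hsub, mem_powerset.2 (h5.trans ?_)⟩
    intro y hy
    rw [Fintype.mem_piFinset] at hy ⊢
    exact fun i => hsub (hy i)
  obtain ⟨p, -, hfr⟩ := freq_finset _ _ hev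
  obtain ⟨N₀, ⟨Θ, r, h1, h2, h3, h4, h5, h6, h7⟩, -⟩ := hfr.exists
  refine ⟨Θ, r, h1, h2, h3, h4, p.2, ?_, ?_, hfr.mono fun N hN => hN.2⟩
  · rw [h5]; exact h6
  · rw [h5]; exact h7

end Pool.Agent.N646.AC
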